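import Pool.Agent.H87.L.Q169_RC_Del
import Pool.Agent.H7.L.TH652_Dual7

set_option autoImplicit false

/-!
# Flat complexes and the rule for odd dimensions
-/

namespace Pool.Agent.Q169.RC

open Pool.Agent.W907.SG Pool.Agent.W907.SM Pool.Agent.TH652.Above
open Pool.Agent.W907.SM.Clo (Lk mem_Lk)

theorem lv_of {V : Type} [Fintype V] [LinearOrder V] {G : SimpleGraph V} {i : ℕ} (h : L2Van G i) : LV G i :=
  fun f o => ord V V _ f _ o G G i ⟨SimpleGraph.Iso.refl⟩ h

/-- `ℓ²`-vanishing passes from `G` to all full subcomplexes if it holds for all full subcomplexes of the links -/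
theorem lv_down {V : Type} [Finite V] (G : SimpleGraph V) (i : ℕ) (h1 : LV G i)
    (h2 : ∀ v, ∀ A : Set V, A ⊆ G.neighborSet v → LV (G.induce A) i) (A : Set V) : LV (G.induce A) i := by
  classical
  have key : ∀ k : ℕ, ∀ A : Set V, Aᶜ.ncard = k → LV (G.induce A) i := by
    intro k
    induction k with
    | zero =>
      intro A hA
      rw [Set.ncard_eq_zero, Set.compl_empty_iff] at hA
      rw [hA, lv_univ]
      exact h1
    | succ k ih =>
      intro A hA
      obtain ⟨v, hv⟩ : (Aᶜ).Nonempty := by
        rw [← Set.ncard_pos]; omega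
      have h3 : LV (G.induce (insert v A)) i := by
        refine ih _ ?_
        have h4 : (insert v A)ᶜ = Aᶜ \ {v} := by
          ext x
          simp only [Set.mem_compl_iff, Set.mem_insert_iff, not_or, Set.mem_sdiff, Set.mem_singleton_iff]
          tauto
        have h5 := Set.ncard_sdiff_singleton_add_one hv (Set.toFinite _)
        rw [h4]
        omega
      have h6 := lv_del G (insert v A) v (Set.mem_insert _ _) i h3 (h2 v _ Set.inter_subset_right)
      refine lv_set ?_ h6
      ext x
      simp only [Set.mem_sdiff, Set.mem_insert_iff, Set.mem_singleton_iff]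
      constructor
      · intro hx
        exact ⟨Or.inr hx, fun h => hv (h ▸ hx)⟩
      · rintro ⟨h | h, h'⟩
        · exact absurd h h'
        · exact h
  exact key _ A rfl

theorem P_link {n : ℕ} {V : Type} {G : SimpleGraph V} (h : P n G) (v : V) (A : Set V) (hA : A ⊆ G.neighborSet v)
    (i : ℕ) (hi : n < 2 * i + 1) : LV (G.induce A) i :=
  h.2 {v} (by simp) A (by
    intro a ha u hu
    rw [Finset.mem_singleton] at hu
    subst hu
    exact hA ha) i (by simpa using hi)

/-- the flat lemma: if the Euler characteristic of the group of a homology sphere of dimension `2 m - 1` vanishes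
then the `ℓ²`-homology of all its full subcomplexes vanishes from the degree `m` on -/
theorem flat {m : ℕ} {V : Type} [Fintype V] [LinearOrder V] (S : SimpleGraph V) (hP : P (2 * m) S)
    (hS : HSph (2 * m) S) (hχ : chiW S = 0) (A : Set V) (i : ℕ) (hi : m ≤ i) : LV (S.induce A) i := by
  have hall : ∀ i, L2Van S i := (l2eul V S m fun i hi =>
    singer_of_above hS (fun j hj => lv_of_P hP j hj _ _) i (by omega)).2 hχ
  exact lv_down S i (lv_of (hall i)) (fun v A hA => P_link hP v A hA i (by omega)) A

/-- flat complexes, as members of the class `Q (2 m + 1)` -/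
theorem Q_flat {m : ℕ} {V : Type} [Fintype V] [LinearOrder V] (S : SimpleGraph V) (hP : P (2 * m + 2) S)
    (hS : HSph (2 * m + 2) S) (hχ : chiW S = 0) : Q (2 * m + 1) S :=
  ⟨inferInstance, fun A i hi => flat (m := m + 1) S hP hS hχ A i (by omega)⟩

/-- the rule for the passage from a full subcomplex to the whole complex -/
theorem Q_ext {n : ℕ} {V : Type} [Finite V] (G : SimpleGraph V) (B : Set V) (hB : Q n (G.induce B))
    (h : ∀ v, v ∉ B → ∀ A : Set V, A ⊆ G.neighborSet v → ∀ i : ℕ, n < 2 * i + 2 → LV (G.induce A) i) : Q n G := by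
  classical
  refine ⟨inferInstance, fun A i hi => ?_⟩
  have key : ∀ k : ℕ, ∀ A : Set V, (A \ B).ncard = k → LV (G.induce A) i := by
    intro k
    induction k with
    | zero =>
      intro A hA
      rw [Set.ncard_eq_zero, Set.sdiff_eq_empty] at hA
      have h4 := hB.2 {x | x.1 ∈ A} i hi
      rw [lv_sub] at h4
      refine lv_set ?_ h4
      ext x
      simp only [Set.mem_image, Set.mem_ofPred_eq, Subtype.exists, exists_and_left,
        exists_prop, exists_eq_right_right]
      exact ⟨fun hx => ⟨hx, hA hx⟩, fun hx => hx.1⟩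
    | succ k ih =>
      intro A hA
      obtain ⟨v, hv⟩ : (A \ B).Nonempty := by
        rw [← Set.ncard_pos]; omega
      refine lv_add G A v hv.1 i (ih _ ?_) (fun j hj => ?_)
      · have h1 : (A \ {v}) \ B = (A \ B) \ {v} := by
          ext x
          simp only [Set.mem_sdiff, Set.mem_singleton_iff]
          tauto
        have h2 := Set.ncard_sdiff_singleton_add_one hv (Set.toFinite _)
        rw [h1]
        omega
      · exact h v hv.2 _ Set.inter_subset_right j (by omega)
  exact key _ A rfl

/-- a complex of dimension less than `i - 1` has no homology in degree `i` -/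
theorem Q_dim {n m : ℕ} {V : Type} [Finite V] (G : SimpleGraph V) (hm : 2 * m ≤ n)
    (hB : ∀ T : Finset V, G.IsClique (T : Set V) → T.card ≤ m) : Q n G := by
  refine ⟨inferInstance, fun A i hi => ?_⟩
  intro _ _ c hc
  funext w T
  refine hc.supp w T ?_
  rintro ⟨h1, h2⟩
  have h3 := hB (T.map ⟨Subtype.val, Subtype.val_injective⟩) (by
    intro a ha b hb hab
    rw [Finset.mem_coe, Finset.mem_map] at ha hb
    obtain ⟨x, hx, rfl⟩ := ha
    obtain ⟨y, hy, rfl⟩ := hb
    exact h1 hx hy fun e => hab (by rw [e]))
  rw [Finset.card_map] at h3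
  omega

/-- restricting a statement on the full subcomplexes of an induced graph -/
theorem lv_of_induce {V : Type} {G : SimpleGraph V} {D A : Set V} (hA : A ⊆ D) {i : ℕ}
    (h : LV ((G.induce D).induce {x | x.1 ∈ A}) i) : LV (G.induce A) i := by
  rw [lv_sub] at h
  refine lv_set ?_ h
  ext x
  simp only [Set.mem_image, Set.mem_ofPred_eq, Subtype.exists, exists_and_left,
    exists_prop, exists_eq_right_right]
  exact ⟨fun hx => ⟨hx, hA hx⟩, fun hx => hx.1⟩

/-- heredity: `P (n+1)` from `Q (n+1)` and `P n` for the links of the vertices -/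
theorem P_her {n : ℕ} {V : Type} (G : SimpleGraph V) (hQ : Q (n + 1) G)
    (h : ∀ v, P n (G.induce (G.neighborSet v))) : P (n + 1) G := by
  classical
  refine ⟨hQ.1, fun T hT A hA i hi => ?_⟩
  rcases T.eq_empty_or_nonempty with rfl | ⟨v, hv⟩
  · exact hQ.2 A i (by simpa using hi)
  · have h1 := (h v).2 ((T.erase v).subtype (fun x => x ∈ G.neighborSet v)) (by
      intro a ha b hb hab
      rw [Finset.mem_coe, Finset.mem_subtype, Finset.mem_erase] at ha hb
      exact hT ha.2 hb.2 (fun e => hab (Subtype.ext e))) {x | x.1 ∈ A} (by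
      intro x hx u hu
      rw [Finset.mem_subtype, Finset.mem_erase] at hu
      exact hA hx u.1 hu.2) i (by
      rw [Finset.card_subtype, Finset.filter_true_of_mem]
      · have := Finset.card_erase_add_one hv
        omega
      · intro t ht
        rw [Finset.mem_erase] at ht
        exact hT hv ht.2 (Ne.symm ht.1))
    exact lv_of_induce (fun x hx => hA hx v hv) h1

/-- the odd-dimensional rule: if the links of all vertices are in the class `P (2 m)`, the links of the vertices
outside `B` are homology spheres with vanishing Euler characteristic, and `B` contains no clique with `m + 1`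
elements, then the complex is in the class `P (2 m + 1)` -/
theorem P_odd {m : ℕ} {V : Type} [Fintype V] [LinearOrder V] (G : SimpleGraph V)
    (hL : ∀ v, P (2 * m) (G.induce (G.neighborSet v))) (B : Set V)
    (hB : Q (2 * m + 1) (G.induce B))
    (h : ∀ v, v ∉ B → ∀ [Fintype (G.neighborSet v)], HSph (2 * m) (G.induce (G.neighborSet v)) ∧
      chiW (G.induce (G.neighborSet v)) = 0) : P (2 * m + 1) G := by
  classical
  refine P_her G (Q_ext G B hB fun v hv A hA i hi => ?_) hL
  obtain ⟨h1, h2⟩ := h v hv
  exact lv_of_induce hA (flat (G.induce (G.neighborSet v)) (hL v) h1 h2 {x | x.1 ∈ A} i (by omega))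

end Pool.Agent.Q169.RC
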