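import Pool.Agent.H87.L.Q169_RC_VKL
import Pool.Agent.H87.L.Q169_RC_Flat
import Pool.Agent.H7.L.Y131_KS_Sub

set_option autoImplicit false

/-!
# Balanced complexes with vanishing van Kampen obstruction: transport to arbitrary vertex sets
-/

namespace Pool.Agent.Q169.RC

open Finset Pool.Agent.W907.SG Pool.Agent.W907.SM Pool.Agent.W555.KS Pool.Agent.TH652.Above
open Pool.Agent.Y131.KS (VK2 vk2_mono vk_of_vk2 vk2_of_sphere)

theorem vk_lv {V : Type} [Finite V] (G : SimpleGraph V) (δ : ℕ) (κ : V → Fin (δ + 1))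
    (hκ : ∀ u v, G.Adj u v → κ u ≠ κ v) {N : ℕ} (K : Finset (Finset (Fin N))) (hK : VK2 K (2 * δ + 1 + 1))
    (f : V ↪ Fin N) (hf : ∀ T : Finset V, G.IsClique (T : Set V) → T.map f ∈ K) (A : Set V) :
    LV (G.induce A) (δ + 1) := by
  classical
  have _ := Fintype.ofFinite V
  obtain ⟨s, hs⟩ : ∃ s : Finset (Fin N), ∀ x, x ∈ s ↔ ∃ a ∈ A, f a = x :=
    ⟨univ.filter (fun x => ∃ a ∈ A, f a = x), fun x => by simp⟩
  have hg : ∀ i : Fin s.card, ∃ a ∈ A, f a = s.orderEmbOfFin rfl i :=
    fun i => (hs _).1 (s.orderEmbOfFin_mem rfl i)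
  choose h hA hh using hg
  have hinj : Function.Injective h := by
    intro i j hij
    apply (s.orderEmbOfFin rfl).injective
    rw [← hh i, ← hh j, hij]
  have himg : h '' Set.univ = A := by
    ext a
    constructor
    · rintro ⟨i, -, rfl⟩
      exact hA i
    · intro ha
      have h1 : f a ∈ s := (hs _).2 ⟨a, ha, rfl⟩
      have h2 : f a ∈ Set.range (s.orderEmbOfFin rfl) := by
        rw [Finset.range_orderEmbOfFin]
        exact h1
      obtain ⟨i, hi⟩ := h2
      refine ⟨i, Set.mem_univ _, f.injective ?_⟩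
      rw [hh i, hi]
  have hcl : ∀ T : Finset (Fin s.card), (G.comap h).IsClique (T : Set (Fin s.card)) ↔
      G.IsClique ((T.map ⟨h, hinj⟩ : Finset V) : Set V) := by
    intro T
    constructor
    · intro hT a ha b hb hab
      rw [Finset.mem_coe, Finset.mem_map] at ha hb
      obtain ⟨x, hx, rfl⟩ := ha
      obtain ⟨y, hy, rfl⟩ := hb
      exact hT hx hy fun e => hab (by rw [e])
    · intro hT a ha b hb hab
      have ha' : h a ∈ ((T.map ⟨h, hinj⟩ : Finset V) : Set V) := by
        rw [Finset.mem_coe, Finset.mem_map]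
        exact ⟨a, ha, rfl⟩
      have hb' : h b ∈ ((T.map ⟨h, hinj⟩ : Finset V) : Set V) := by
        rw [Finset.mem_coe, Finset.mem_map]
        exact ⟨b, hb, rfl⟩
      exact hT ha' hb' (fun e => hab (hinj e))
  obtain ⟨K', hK'⟩ : ∃ K' : Finset (Finset (Fin s.card)), ∀ T, T ∈ K' ↔
      (G.comap h).IsClique (T : Set (Fin s.card)) :=
    ⟨univ.filter (fun T => (G.comap h).IsClique (T : Set (Fin s.card))), fun T => by simp⟩
  have hcx : IsCx K' := by
    refine ⟨(hK' _).2 (by simp), fun σ hσ τ hτ => (hK' _).2 ?_⟩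
    exact ((hK' _).1 hσ).subset (by exact_mod_cast hτ)
  have hVK : VK K' (2 * δ + 1 + 1) := by
    apply vk_of_vk2
    refine vk2_mono (f := (s.orderEmbOfFin rfl).toEmbedding) (s.orderEmbOfFin rfl).strictMono ?_ hK
    intro T hT
    have h1 := hf _ ((hcl T).1 ((hK' T).1 hT))
    have h2 : (T.map ⟨h, hinj⟩).map f = T.map (s.orderEmbOfFin rfl).toEmbedding := by
      rw [Finset.map_map]
      ext x
      simp only [Finset.mem_map, Function.Embedding.trans_apply, Function.Embedding.coeFn_mk, hh,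
        RelEmbedding.coe_toEmbedding]
    rw [← h2]
    exact h1
  have h1 : L2Van (G.comap h) (δ + 1) :=
    l2_top (G.comap h) (fun i => κ (h i)) (fun u v huv => hκ _ _ huv) K' hcx (fun T hT => (hK' T).2 hT) hVK
  have h2 := (lv_img (G := G) h Set.univ (fun a _ b _ e => hinj e) (fun a _ b _ => Iff.rfl) (δ + 1)).1
    ((lv_univ _ _).2 (lv_of h1))
  rw [himg] at h2
  exact h2

theorem clique_card {V : Type} (G : SimpleGraph V) (δ : ℕ) (κ : V → Fin (δ + 1))
    (hκ : ∀ u v, G.Adj u v → κ u ≠ κ v) (T : Finset V) (hT : G.IsClique (T : Set V)) : T.card ≤ δ + 1 := by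
  classical
  have h1 : (T.image κ).card = T.card := by
    apply card_image_of_injOn
    intro a ha b hb hab
    by_contra hne
    exact hκ a b (hT ha hb hne) hab
  have h2 := card_le_univ (T.image κ)
  rw [Fintype.card_fin] at h2
  omega

/-- balanced complexes of dimension at most `δ` in a space with vanishing obstruction are in the class
`Q (2 δ + 1)` -/
theorem vk_Q {V : Type} [Finite V] (G : SimpleGraph V) (δ : ℕ) (κ : V → Fin (δ + 1))
    (hκ : ∀ u v, G.Adj u v → κ u ≠ κ v) {N : ℕ} (K : Finset (Finset (Fin N))) (hK : VK2 K (2 * δ + 1 + 1))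
    (f : V ↪ Fin N) (hf : ∀ T : Finset V, G.IsClique (T : Set V) → T.map f ∈ K) : Q (2 * δ + 1) G := by
  refine ⟨inferInstance, fun A i hi => ?_⟩
  rcases Nat.lt_or_ge (δ + 1) i with h | h
  · exact (Q_dim (n := 2 * (δ + 1)) G (le_refl _) (fun T hT => clique_card G δ κ hκ T hT)).2 A i (by omega)
  · have h2 : i = δ + 1 := by omega
    subst h2
    exact vk_lv G δ κ hκ K hK f hf A

end Pool.Agent.Q169.RC
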