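import Pool.Agent.H87.L.Q24_SG_Few

/-!
# The class `AR n`, and vanishing of the `ℓ²`-homology above the middle
-/

set_option autoImplicit false

namespace Pool.Agent.Q24.SG

open Pool.Agent.W907.SG Pool.Agent.W907.SM Pool.Agent.TH652.Above
open Pool.Agent.TH652.Join (join)

/-- a class of finite graphs which contains the class `AQ` of the starting files -/
inductive AR : ℕ → ∀ {V : Type}, SimpleGraph V → Prop
  /-- the members of the class `AQ n` -/
  | aq {n : ℕ} {V : Type} (G : SimpleGraph V) : AQ n G → AR n G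
  /-- few vertices: every clique `T` with `m + 1` elements has more than `|V| - 3 (m + 1)` common neighbours; for
  instance all graphs with at most `3 m + 2` vertices -/
  | few {m : ℕ} {V : Type} [Finite V] (G : SimpleGraph V) :
      (∀ T : Finset V, G.IsClique (T : Set V) → T.card = m + 1 →
        Nat.card V < 3 * (m + 1) + {u : V | ∀ t ∈ T, G.Adj t u}.ncard) → AR (2 * m) G
  /-- full subcomplexes -/
  | full {n : ℕ} {V : Type} (G : SimpleGraph V) (A : Set V) : AR n G → AR n (G.induce A)
  /-- joins -/
  | join {m n : ℕ} {V U : Type} (G : SimpleGraph V) (H : SimpleGraph U) : AR m G → AR n H → AR (m + n) (join G H)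
  /-- from `n` to `n + 1` -/
  | succ {n : ℕ} {V : Type} (G : SimpleGraph V) : AR n G → AR (n + 1) G
  /-- from `2 m + 1` to `2 m` -/
  | pred {m : ℕ} {V : Type} (G : SimpleGraph V) : AR (2 * m + 1) G → AR (2 * m) G
  /-- deleting an edge whose link is in the class `n` -/
  | del {n : ℕ} {V : Type} [Finite V] (G : SimpleGraph V) (s t : V) : G.Adj s t → AR (n + 2) G →
      AR n (G.induce (G.neighborSet s ∩ G.neighborSet t)) → AR (n + 2) (G.deleteEdges {s(s, t)})
  /-- even length: the vertices whose links are not in the class `2 m + 1` span a subcomplex in the class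
  `2 m + 2` -/
  | loc {m : ℕ} {V : Type} [Finite V] (G : SimpleGraph V) (B : Set V) : AR (2 * m + 2) (G.induce B) →
      (∀ v, v ∉ B → AR (2 * m + 1) (G.induce (G.neighborSet v))) → AR (2 * m + 2) G
  /-- adding a vertex whose link is in the class `n` -/
  | vert {n : ℕ} {V : Type} [Finite V] (G : SimpleGraph V) (v : V) : AR (n + 2) (G.induce {v}ᶜ) →
      AR n (G.induce (G.neighborSet v)) → AR (n + 2) G
  /-- gluing along a full subcomplex of the class `n` -/
  | glue {n : ℕ} {V : Type} [Finite V] (G : SimpleGraph V) (A B : Set V) : A ∪ B = Set.univ →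
      (∀ a ∈ A, a ∉ B → ∀ b ∈ B, b ∉ A → ¬ G.Adj a b) → AR (n + 2) (G.induce A) → AR (n + 2) (G.induce B) →
      AR n (G.induce (A ∩ B)) → AR (n + 2) G
  /-- isomorphic graphs -/
  | iso {n : ℕ} {V U : Type} (G : SimpleGraph V) (H : SimpleGraph U) : Nonempty (G ≃g H) → AR n G → AR n H

theorem CR_univ {V : Type} [Finite V] {G : SimpleGraph V} {r : ℕ}
    (h : ∀ T : Finset V, G.IsClique (T : Set V) → T.card = r →
        Nat.card V < 3 * r + {u : V | ∀ t ∈ T, G.Adj t u}.ncard) : CR G Set.univ r := by
  intro T hT _ hr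
  have h1 := h T hT hr
  rw [Set.ncard_univ]
  simpa using h1

theorem Q_few {m : ℕ} {V : Type} [Finite V] (G : SimpleGraph V)
    (h : ∀ T : Finset V, G.IsClique (T : Set V) → T.card = m + 1 →
        Nat.card V < 3 * (m + 1) + {u : V | ∀ t ∈ T, G.Adj t u}.ncard) : Q (2 * m) G :=
  ⟨inferInstance, fun A i hi => few G _ A (m + 1) rfl (by omega) ((CR_univ h).mono (Set.subset_univ A)) i (by omega)⟩

theorem Q_locB {m : ℕ} {V : Type} [Finite V] (G : SimpleGraph V) (B : Set V) (hB : Q (2 * m + 2) (G.induce B))
    (h : ∀ v, v ∉ B → Q (2 * m + 1) (G.induce (G.neighborSet v))) : Q (2 * m + 2) G := by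
  classical
  refine ⟨inferInstance, fun A i hi => ?_⟩
  have key : ∀ k : ℕ, ∀ A : Set V, (A \ B).ncard = k → LV (G.induce A) i := by
    intro k
    induction k with
    | zero =>
      intro A hA
      rw [Set.ncard_eq_zero, Set.sdiff_eq_empty] at hA
      have h1 := hB.2 {x | x.1 ∈ A} i hi
      rw [lv_sub] at h1
      refine lv_set ?_ h1
      ext x
      simp only [Set.mem_image, Set.mem_ofPred_eq, Subtype.exists, exists_and_left, exists_prop,
        exists_eq_right_right]
      exact ⟨fun hx => ⟨hx, hA hx⟩, fun hx => hx.1⟩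
    | succ k ih =>
      intro A hA
      obtain ⟨v, hv⟩ : (A \ B).Nonempty := by
        rw [← Set.ncard_pos]; omega
      refine lv_add G A v hv.1 i (ih _ ?_) (fun j hj => ?_)
      · have h1 : (A \ {v}) \ B = (A \ B) \ {v} := by
          ext x
          simp only [Set.mem_sdiff, Set.mem_singleton_iff]
          tauto
        have h2 := Set.ncard_sdiff_singleton_add_one hv (Set.toFinite _)
        rw [h1]
        omega
      · have h1 := (h v hv.2).2 {x | x.1 ∈ A} j (by omega)
        rw [lv_sub] at h1
        refine lv_set ?_ h1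
        ext x
        simp only [Set.mem_inter_iff, Set.mem_image, Set.mem_ofPred_eq, Subtype.exists, exists_and_left,
          exists_prop, exists_eq_right_right]
  exact key _ A rfl

theorem Q_of_AR {n : ℕ} {V : Type} {G : SimpleGraph V} (h : AR n G) : Q n G := by
  induction h with
  | aq G h => exact Q_of_AQ h
  | few G h => exact Q_few G h
  | full G A _ ih => exact Q_emb G _ (SimpleGraph.Embedding.induce A) ih
  | join G H _ _ ih1 ih2 => exact Q_join G H ih1 ih2
  | succ G _ ih => exact ⟨ih.1, fun A i hi => ih.2 A i (by omega)⟩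
  | pred G _ ih => exact ⟨ih.1, fun A i hi => ih.2 A i (by omega)⟩
  | del G s t hst _ _ ih1 ih2 => exact Q_del G s t hst ih1 ih2
  | loc G B _ _ ih1 ih2 => exact Q_locB G B ih1 ih2
  | vert G v _ _ ih1 ih2 => exact Q_vert G v ih1 ih2
  | glue G A B hAB hno _ _ _ ih1 ih2 ih3 => exact Q_glue G A B hAB hno ih1 ih2 ih3
  | iso G H e _ ih => exact Q_emb G H e.some.symm.toEmbedding ih

theorem above_AR {n : ℕ} {V : Type} [Fintype V] [LinearOrder V] {G : SimpleGraph V} (h : AR n G) (i : ℕ)
    (hi : n < 2 * i) : L2Van G i :=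
  (lv_univ G i).1 ((Q_of_AR h).2 Set.univ i hi) _ _

/-- duality with a defect -/
theorem near_middle {n r : ℕ} {V : Type} [Fintype V] [LinearOrder V] {G : SimpleGraph V} (hS : HSph n G)
    (h : AR (n + r) G) (i : ℕ) (hi : 2 * i + r < n ∨ n + r < 2 * i) : L2Van G i := by
  rcases hi with h1 | h1
  · exact Pool.Agent.TH652.Dual.l2_duality (n := n) hS (i := i) (j := n - i) (by omega)
      (above_AR h (n - i) (by omega))
  · exact above_AR h i h1

/-- a flag homology sphere in the class `AR n` -/
theorem singer_AR {n : ℕ} {V : Type} [Fintype V] [LinearOrder V] {G : SimpleGraph V} (hS : HSph n G)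
    (h : AR n G) (i : ℕ) (hi : 2 * i ≠ n) : L2Van G i :=
  singer_of_above hS (fun i hi => above_AR h i hi) i hi

end Pool.Agent.Q24.SG
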