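import Pool.Agent.H7.L.R781_VS_Class
import Pool.Agent.H87.L.R703_CW_Mono

set_option autoImplicit false

/-!
# Links in flag homology spheres given by graphs
-/

namespace Pool.Agent.R703.CW

open Pool.Agent.W907.SG Pool.Agent.W907.SM Pool.Agent.TH652.Above
open Pool.Agent.W497.FS (cl lam lkF mem_cl mem_lkF)

variable {V : Type} [Fintype V] [LinearOrder V] {G : SimpleGraph V}

/-- facets -/
theorem exists_facet {n : ℕ} (hS : HSph n G) (T : Finset V) (hT : G.IsClique (T : Set V)) :
    ∃ S : Finset V, T ⊆ S ∧ G.IsClique (S : Set V) ∧ S.card = n := by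
  classical
  obtain ⟨S, hS0, hmax⟩ := Set.Finite.exists_maximalFor Finset.card
    {S : Finset V | T ⊆ S ∧ G.IsClique (S : Set V)} (Set.toFinite _) ⟨T, Finset.Subset.refl T, hT⟩
  obtain ⟨hTS, hSc⟩ := hS0
  refine ⟨S, hTS, hSc, ?_⟩
  have hlk : lk G S = ∅ := by
    rw [Set.eq_empty_iff_forall_notMem]
    intro v hv
    have hvS : v ∉ S := fun h => (hv v h).ne rfl
    have h1 : G.IsClique ((insert v S : Finset V) : Set V) := by
      rw [Finset.coe_insert]
      exact hSc.insert fun u hu _ => hv u hu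
    have h2 := hmax ⟨hTS.trans (Finset.subset_insert v S), h1⟩ (by
      rw [Finset.card_insert_of_notMem hvS]; omega)
    rw [Finset.card_insert_of_notMem hvS] at h2
    omega
  by_contra hcon
  have h1 := hS S hSc 0
  rw [if_neg (by omega)] at h1
  have h2 := Pool.Agent.TH652.Dual.exact_of_beta h1
  set c : Finset V → ℝ := fun T => if T = ∅ then 1 else 0 with hc
  have hcZ : c ∈ ZZ G (fun _ => (- LinearMap.id : ℝ →ₗ[ℝ] ℝ)) (lk G S) ∅ 0 := by
    refine Submodule.mem_inf.2 ⟨?_, ?_⟩
    · rw [mem_KK]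
      refine ⟨fun U hU => ?_, fun U t _ => by simp⟩
      rw [hc]
      dsimp only
      rw [if_neg]
      rintro rfl
      exact hU ⟨by simp, by simp, by simp⟩
    · rw [LinearMap.mem_ker]
      funext U
      rw [bd_apply]
      refine Finset.sum_eq_zero fun v _ => ?_
      rw [hc]
      dsimp only
      rw [if_neg (Finset.insert_ne_empty v U), smul_zero]
  rw [← h2] at hcZ
  obtain ⟨y, hy, hyc⟩ := hcZ
  have hy0 : y = 0 := by
    funext U
    refine (mem_KK.1 hy).1 U ?_
    rintro ⟨-, hU, hU1⟩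
    rw [hlk, Set.subset_empty_iff, Finset.coe_eq_empty] at hU
    rw [hU] at hU1
    simp at hU1
  rw [hy0, map_zero] at hyc
  have h3 := congrFun hyc ∅
  rw [hc] at h3
  simp at h3

/-- the size of the cliques -/
theorem card_le_of_hsph {n : ℕ} (hS : HSph n G) (T : Finset V) (hT : G.IsClique (T : Set V)) :
    T.card ≤ n := by
  obtain ⟨S, h1, -, h2⟩ := exists_facet hS T hT
  exact h2 ▸ Finset.card_le_card h1

/-- links are homology spheres -/
theorem hsph_link {n : ℕ} (hS : HSph n G) (T : Finset V) (hT : G.IsClique (T : Set V))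
    [Fintype ↥(lk G T)] : HSph (n - T.card) (G.induce (lk G T)) := by
  classical
  intro S' hS' i
  obtain ⟨S, hSd⟩ : ∃ S : Finset V, S = T ∪ S'.map (Function.Embedding.subtype _) := ⟨_, rfl⟩
  have hdis : Disjoint T (S'.map (Function.Embedding.subtype _)) := by
    rw [Finset.disjoint_left]
    intro a ha ha2
    obtain ⟨b, hb, rfl⟩ := Finset.mem_map.1 ha2
    exact (b.2 _ ha).ne rfl
  have hcard : S.card = T.card + S'.card := by
    rw [hSd, Finset.card_union_of_disjoint hdis, Finset.card_map]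
  have hSc : G.IsClique (S : Set V) := by
    intro a ha b hb hab
    rw [Finset.mem_coe, hSd, Finset.mem_union, Finset.mem_map] at ha hb
    rcases ha with ha | ⟨a', ha', rfl⟩ <;> rcases hb with hb | ⟨b', hb', rfl⟩
    · exact hT ha hb hab
    · exact (b'.2 a ha).symm
    · exact a'.2 b hb
    · exact hS' ha' hb' fun h => hab (congrArg Subtype.val h)
  have hfin : Fintype ↥(lk (G.induce (lk G T)) S') := Fintype.ofFinite _
  have e1 := tr ↥(lk (G.induce (lk G T)) S') ↥(lk G T) ℝ ℝ (G.induce (lk G T))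
    ((G.induce (lk G T)).induce (lk (G.induce (lk G T)) S')) (fun _ => - LinearMap.id) Subtype.val
    (fun _ _ h => h) (fun _ _ => Iff.rfl) i
  have e2 := tr ↥(lk (G.induce (lk G T)) S') V ℝ ℝ G
    ((G.induce (lk G T)).induce (lk (G.induce (lk G T)) S')) (fun _ => - LinearMap.id)
    (fun x => x.1.1) (fun _ _ h => h) (fun _ _ => Iff.rfl) i
  rw [Subtype.range_coe] at e1
  have hr : Set.range (fun x : ↥(lk (G.induce (lk G T)) S') => (x.1.1 : V)) = lk G S := by
    ext v
    constructor
    · rintro ⟨x, rfl⟩ u hu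
      rw [hSd, Finset.mem_union, Finset.mem_map] at hu
      rcases hu with hu | ⟨u', hu', rfl⟩
      · exact x.1.2 u hu
      · exact x.2 u' hu'
    · intro hv
      have hvT : v ∈ lk G T := fun u hu => hv u (by rw [hSd]; exact Finset.mem_union_left _ hu)
      refine ⟨⟨⟨v, hvT⟩, fun u hu => hv u.1 ?_⟩, rfl⟩
      rw [hSd, Finset.mem_union, Finset.mem_map]
      exact Or.inr ⟨u, hu, rfl⟩
  rw [hr] at e2
  have e3 := hS S hSc i
  rw [e2] at e3
  rw [e1, e3]
  have h1 := card_le_of_hsph hS S hSc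
  by_cases h : i + S.card = n
  · rw [if_pos h, if_pos (by omega)]
  · rw [if_neg h, if_neg (by omega)]

theorem chi_filter {V : Type} [Fintype V] (G : SimpleGraph V)
    [DecidablePred fun T : Finset V => G.IsClique (T : Set V)] :
    chiW G = ∑ T ∈ Finset.univ.filter (fun T : Finset V => G.IsClique (T : Set V)),
      (-1 / 2 : ℚ) ^ T.card := by
  rw [chiW, Finset.sum_filter]
  exact Finset.sum_congr rfl fun S _ => by congr

/-- the Charney–Davis quantity -/
theorem chiW_link (T : Finset V) [Fintype ↥(lk G T)] :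
    chiW (G.induce (lk G T)) = lam G (lkF G Finset.univ T) := by
  classical
  rw [chi_filter, lam, Pool.Agent.W497.FS.fe]
  refine Finset.sum_bij (fun S _ => S.map (Function.Embedding.subtype _)) ?_ ?_ ?_ ?_
  · intro S hS
    have hS' := (Finset.mem_filter.1 hS).2
    refine mem_cl.2 ⟨fun x hx => ?_, fun x hx y hy hxy => ?_⟩
    · obtain ⟨a, -, rfl⟩ := Finset.mem_map.1 hx
      exact mem_lkF.2 ⟨Finset.mem_univ _, fun y hy => (a.2 y hy).symm⟩
    · obtain ⟨a, ha, rfl⟩ := Finset.mem_map.1 hx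
      obtain ⟨b, hb, rfl⟩ := Finset.mem_map.1 hy
      exact hS' ha hb fun h => hxy (congrArg Subtype.val h)
  · intro S _ S' _ h
    exact Finset.map_injective _ h
  · intro σ hσ
    obtain ⟨h1, h2⟩ := mem_cl.1 hσ
    have h3 : ∀ x ∈ σ, x ∈ lk G T := fun x hx u hu => ((mem_lkF.1 (h1 hx)).2 u hu).symm
    refine ⟨σ.subtype (fun x => x ∈ lk G T), Finset.mem_filter.2 ⟨Finset.mem_univ _, ?_⟩, ?_⟩
    · intro a ha b hb hab
      rw [Finset.mem_coe, Finset.mem_subtype] at ha hb
      exact h2 a ha b hb fun h => hab (Subtype.ext h)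
    · rw [Finset.subtype_map]
      exact Finset.filter_true_of_mem h3
  · intro S _
    rw [Finset.card_map]

end Pool.Agent.R703.CW
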