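import Pool.Agent.H87.L.W5h83_GT_Top4
import Pool.Agent.H7.L.R781_VS_Class
import Pool.Agent.H87.L.W5h83_GT_ConeDef

/-!
# Unions of two full subcomplexes
-/

set_option autoImplicit false

namespace Pool.Agent.W5h83.GT

open Pool.Agent.W907.SG Pool.Agent.W907.SM
open Pool.Agent.TH652.Above (Q Q_emb lv_univ)

section
variable {U V : Type} {G : SimpleGraph V} {H : SimpleGraph U}

/-- embeddings of cones -/
def coneEmb (f : H ↪g G) (S : Set V) (T : Set U) (h : ∀ u, f u ∈ S ↔ u ∈ T) : cone H T ↪g cone G S where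
  toFun := Option.map f
  inj' := Option.map_injective f.injective
  map_rel_iff' := by
    intro x y
    cases x <;> cases y
    · exact Iff.rfl
    · exact h _
    · exact h _
    · exact f.map_adj_iff

/-- the embedding into the cone -/
def someEmb (f : H ↪g G) (S : Set V) : H ↪g cone G S where
  toFun u := some (f u)
  inj' := fun _ _ h => f.injective (Option.some_injective _ h)
  map_rel_iff' := f.map_adj_iff

end

/-- **Gluing.** -/
theorem lv_sum {V : Type} [Finite V] (G : SimpleGraph V) (A B : Set V) (hAB : A ∪ B = Set.univ)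
    (hno : ∀ a ∈ A, a ∉ B → ∀ b ∈ B, b ∉ A → ¬ G.Adj a b) (i : ℕ) (h1 : LV (G.induce A) i) (h2 : LV (G.induce B) i)
    (h3 : LV (cone (G.induce A) {a | (a : V) ∈ B}) i) (h4 : LV (cone (G.induce B) {b | (b : V) ∈ A}) i) :
    LV G i := by
  classical
  -- restriction
  have hr : ∀ (A B : Set V), LV (G.induce A) i → LV ((cone G (A ∩ B)).induce (some '' A)) i := by
    intro A B h
    let f : ↥A → ↥(some '' A : Set (Option V)) := fun a => ⟨some (a : V), a, a.2, rfl⟩
    have hf : Function.Bijective f := by
      constructor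
      · intro x y hxy
        exact Subtype.ext (Option.some_injective _ (congrArg Subtype.val hxy))
      · rintro ⟨x, a, ha, rfl⟩
        exact ⟨⟨a, ha⟩, rfl⟩
    exact liso _ _ _ _ i ⟨⟨Equiv.ofBijective f hf, Iff.rfl⟩⟩ h
  have hc : ∀ (A B : Set V), LV (cone (G.induce A) {a | (a : V) ∈ B}) i →
      LV ((cone G (A ∩ B)).induce (insert none (some '' A))) i := by
    intro A B h
    let f : Option ↥A → ↥(insert (none : Option V) (some '' A)) := fun x => match x with
      | none => ⟨none, Or.inl rfl⟩
      | some a => ⟨some (a : V), Or.inr ⟨a, a.2, rfl⟩⟩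
    have hf : Function.Bijective f := by
      constructor
      · intro x y hxy
        have h0 := congrArg Subtype.val hxy
        cases x <;> cases y
        · rfl
        · exact absurd h0 (Option.some_ne_none _).symm
        · exact absurd h0 (Option.some_ne_none _)
        · exact congrArg some (Subtype.ext (Option.some_injective _ h0))
      · rintro ⟨x, hx⟩
        rcases hx with rfl | ⟨a, ha, rfl⟩
        · exact ⟨none, rfl⟩
        · exact ⟨some ⟨a, ha⟩, rfl⟩
    refine liso _ _ _ _ i ⟨⟨Equiv.ofBijective f hf, ?_⟩⟩ h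
    intro x y
    cases x with
    | none =>
      cases y with
      | none => exact Iff.rfl
      | some b => exact ⟨fun h => h.2, fun h => ⟨b.2, h⟩⟩
    | some a =>
      cases y with
      | none => exact ⟨fun h => h.2, fun h => ⟨a.2, h⟩⟩
      | some b => exact Iff.rfl
  have hm : ∀ (x : Option V) (A : Set V), x ∈ some '' A ↔ ∃ a ∈ A, some a = x := fun _ _ => Iff.rfl
  have key := glue_link (cone G (A ∩ B)) none (some '' A) (some '' B) (by rintro ⟨a, _, ha⟩; exact Option.some_ne_none _ ha)
    (by rintro ⟨a, _, ha⟩; exact Option.some_ne_none _ ha)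
    (by
      ext x
      cases x with
      | none =>
        simp
      | some a =>
        have : a ∈ A ∪ B := by rw [hAB]; trivial
        simpa using this)
    (by
      rintro _ ⟨a, ha, rfl⟩ haB _ ⟨b, hb, rfl⟩ hbA
      exact hno a ha (fun h => haB ⟨a, h, rfl⟩) b hb (fun h => hbA ⟨b, h, rfl⟩))
    (by
      ext x
      cases x with
      | none =>
        simp [cone]
      | some a =>
        simp [cone])
    i (hr A B h1) (by rw [Set.inter_comm]; exact hr B A h2) (hc A B h3) (by rw [Set.inter_comm]; exact hc B A h4)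
  let f : V → ↥({none}ᶜ : Set (Option V)) := fun a => ⟨some a, by simp⟩
  have hf : Function.Bijective f := by
    constructor
    · intro x y hxy
      exact Option.some_injective _ (congrArg Subtype.val hxy)
    · rintro ⟨x, hx⟩
      cases x with
      | none => exact absurd rfl hx
      | some a => exact ⟨a, rfl⟩
  have e0 : G ≃g (cone G (A ∩ B)).induce ({none}ᶜ : Set (Option V)) := ⟨Equiv.ofBijective f hf, Iff.rfl⟩
  exact liso _ _ _ _ i ⟨e0.symm⟩ key

/-- embeddings of iterated full subgraphs -/
def indEmb {V : Type} (G : SimpleGraph V) (D A : Set V) :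
    (G.induce D).induce {x : D | (x : V) ∈ A} ↪g G.induce A where
  toFun x := ⟨x.1.1, x.2⟩
  inj' := fun _ _ h => Subtype.ext (Subtype.ext (congrArg (fun z : ↥A => (z : V)) h))
  map_rel_iff' := Iff.rfl

/-- the closure property -/
theorem Q_sum {n : ℕ} {V : Type} [Finite V] (G : SimpleGraph V) (A B : Set V) (hAB : A ∪ B = Set.univ)
    (hno : ∀ a ∈ A, a ∉ B → ∀ b ∈ B, b ∉ A → ¬ G.Adj a b)
    (h1 : Q n (cone (G.induce A) {a | (a : V) ∈ B})) (h2 : Q n (cone (G.induce B) {b | (b : V) ∈ A})) : Q n G := by
  refine ⟨inferInstance, fun D i hi => ?_⟩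
  have tr : ∀ {U : Type} {K : SimpleGraph U}, Q n K → LV K i := fun {U} {K} h => (lv_univ K i).1 (h.2 Set.univ i hi)
  refine lv_sum (G.induce D) {x | (x : V) ∈ A} {x | (x : V) ∈ B} ?_ ?_ i ?_ ?_ ?_ ?_
  · ext x
    have : (x : V) ∈ A ∪ B := by rw [hAB]; trivial
    simpa using this
  · exact fun a ha haB b hb hbA => hno a ha haB b hb hbA
  · exact tr (Q_emb _ _ (someEmb (indEmb G D A) _) h1)
  · exact tr (Q_emb _ _ (someEmb (indEmb G D B) _) h2)
  · exact tr (Q_emb _ _ (coneEmb (indEmb G D A) _ _ fun _ => Iff.rfl) h1)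
  · exact tr (Q_emb _ _ (coneEmb (indEmb G D B) _ _ fun _ => Iff.rfl) h2)

end Pool.Agent.W5h83.GT
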