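import Pool.Agent.H87.L.Y408_BS_Gen2
import Pool.Agent.H87.L.W386_KS_Span

/-!
# From the generic forms in characteristic two to all fields

The first section (`span2`, `map_ne`) is copied from `Pool.Agent.Y131.KS.Chain` (helper131,
after helper386).
-/

set_option autoImplicit false

namespace Pool.Agent.Y408.BS

open Finset MvPolynomial Pool.Agent.W555.KS

section Sp
open Pool.Agent.W386.KS

theorem span2 (ι N m : Type) [Fintype ι] [Fintype N] [Fintype m]
    (A : N → m → MvPolynomial ι ℤ)
    (hA : ∀ w : m → FractionRing (MvPolynomial ι (ZMod 2)),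
      w ∈ Submodule.span (FractionRing (MvPolynomial ι (ZMod 2)))
        (Set.range (fun i : N => fun j : m => algebraMap (MvPolynomial ι (ZMod 2))
          (FractionRing (MvPolynomial ι (ZMod 2)))
          (MvPolynomial.map (Int.castRingHom (ZMod 2)) (A i j))))) :
    ∃ F : MvPolynomial ι ℤ, MvPolynomial.map (Int.castRingHom (ZMod 2)) F ≠ 0 ∧
      ∀ (k : Type) [Field k] (c : ι → k), aeval c F ≠ 0 →
      ∀ w : m → k, w ∈ Submodule.span k (Set.range (fun i : N => fun j : m => aeval c (A i j))) := by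
  classical
  obtain ⟨i, hi⟩ := exists_rows (fun (i : N) (j : m) => algebraMap (MvPolynomial ι (ZMod 2))
        (FractionRing (MvPolynomial ι (ZMod 2)))
        (MvPolynomial.map (Int.castRingHom (ZMod 2)) (A i j)))
        (Submodule.eq_top_iff'.2 hA)
  refine ⟨(Matrix.of (fun a b => A (i a) b) : Matrix m m (MvPolynomial ι ℤ)).det, ?_, ?_⟩
  · intro h0
    apply hi
    have h1 := congrArg (algebraMap (MvPolynomial ι (ZMod 2))
        (FractionRing (MvPolynomial ι (ZMod 2)))) h0
    rw [RingHom.map_det, RingHom.map_det, map_zero] at h1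
    rw [← h1]
    rfl
  · intro k _ c hc w
    have h1 : (Matrix.of (fun a b => aeval c (A (i a) b)) : Matrix m m k).det ≠ 0 := by
      intro h0
      apply hc
      have h2 := RingHom.map_det (aeval c : MvPolynomial ι ℤ →ₐ[ℤ] k).toRingHom
        (Matrix.of (fun a b => A (i a) b) : Matrix m m (MvPolynomial ι ℤ))
      have h3 : (RingHom.mapMatrix (aeval c : MvPolynomial ι ℤ →ₐ[ℤ] k).toRingHom)
        (Matrix.of (fun a b => A (i a) b) : Matrix m m (MvPolynomial ι ℤ)) =
        (Matrix.of (fun a b => aeval c (A (i a) b)) : Matrix m m k) := by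
        ext a b; rfl
      rw [h3, h0] at h2
      exact h2
    have h2 : LinearIndependent k (Matrix.of (fun a b => aeval c (A (i a) b)) : Matrix m m k).row :=
      Matrix.linearIndependent_rows_iff_isUnit.2
        ((Matrix.isUnit_iff_isUnit_det _).2 (isUnit_iff_ne_zero.2 h1))
    have h3 := h2.span_eq_top_of_card_eq_finrank' (by rw [Module.finrank_fintype_fun_eq_card])
    have h4 : w ∈ Submodule.span k (Set.range
        (Matrix.of (fun a b => aeval c (A (i a) b)) : Matrix m m k).row) := by
      rw [h3]; trivial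
    refine Submodule.span_mono ?_ h4
    rintro _ ⟨a, rfl⟩
    exact ⟨i a, rfl⟩

theorem map_ne {σ k : Type} [Field k] (hk : CharZero k ∨ CharP k 2) {F : MvPolynomial σ ℤ}
    (hF : MvPolynomial.map (Int.castRingHom (ZMod 2)) F ≠ 0) :
    MvPolynomial.map (Int.castRingHom k) F ≠ 0 := by
  rcases hk with hk | hk
  · intro h
    apply hF
    have h1 : F = 0 := map_injective (Int.castRingHom k) (RingHom.injective_int _)
      (by rw [h, map_zero])
    rw [h1, map_zero]
  · intro h
    apply hF
    have e : (Int.castRingHom k) = (ZMod.castHom (dvd_refl 2) k).comp (Int.castRingHom (ZMod 2)) :=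
      RingHom.ext_int _ _
    rw [e, ← MvPolynomial.map_map] at h
    exact map_injective (ZMod.castHom (dvd_refl 2) k) (RingHom.injective _) (by rw [h, map_zero])

end Sp

variable {n m δ : ℕ}

/-- exponent of the monomial of `w` -/
noncomputable def mon (w : Fin (δ + 1) → Fin n) : Fin n →₀ ℕ := ∑ i, Finsupp.single (w i) 1

/-- the same without the factor `i0` -/
noncomputable def moff (i0 : Fin (δ + 1)) (w : Fin (δ + 1) → Fin n) : Fin n →₀ ℕ :=
  ∑ i ∈ univ.erase i0, Finsupp.single (w i) 1

theorem mon_eq (i0 : Fin (δ + 1)) (w : Fin (δ + 1) → Fin n) :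
    mon w = Finsupp.single (w i0) 1 + moff i0 w := by
  unfold mon moff
  exact (add_sum_erase univ (fun i => (Finsupp.single (w i) 1 : Fin n →₀ ℕ)) (mem_univ i0)).symm

theorem mem_supp_mon (w : Fin (δ + 1) → Fin n) (v : Fin n) :
    v ∈ (mon w).support ↔ ∃ i, w i = v := by
  unfold mon
  rw [Finsupp.mem_support_iff, Finsupp.finsetSum_apply]
  constructor
  · intro h
    obtain ⟨i, -, hi⟩ := Finset.exists_ne_zero_of_sum_ne_zero h
    refine ⟨i, ?_⟩
    by_contra hne
    exact hi (Finsupp.single_eq_of_ne (fun h => hne h.symm))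
  · rintro ⟨i, rfl⟩
    have h1 : (Finsupp.single (w i) 1 : Fin n →₀ ℕ) (w i) ≤
        ∑ j, (Finsupp.single (w j) 1 : Fin n →₀ ℕ) (w i) :=
      Finset.single_le_sum (f := fun j => (Finsupp.single (w j) 1 : Fin n →₀ ℕ) (w i))
        (fun _ _ => Nat.zero_le _) (mem_univ i)
    rw [Finsupp.single_eq_same] at h1
    omega

theorem prod_X {R : Type*} [CommRing R] (w : Fin (δ + 1) → Fin n) :
    (∏ i, X (w i) : MvPolynomial (Fin n) R) = monomial (mon w) 1 := by
  unfold mon
  rw [monomial_sum_one]
  rfl

theorem prod_X_off {R : Type*} [CommRing R] (i0 : Fin (δ + 1)) (w : Fin (δ + 1) → Fin n) :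
    (∏ i ∈ univ.erase i0, X (w i) : MvPolynomial (Fin n) R) = monomial (moff i0 w) 1 := by
  unfold moff
  rw [monomial_sum_one]
  rfl

/-- coloured words -/
def Cw (κ : Fin n → Fin m) (col : Fin (δ + 1) → Fin m) (w : Fin (δ + 1) → Fin n) : Prop :=
  ∀ i, κ (w i) = col i

/-- a word with the same monomial whose letter at `i0` is `v` -/
theorem exists_swap {κ : Fin n → Fin m} {col : Fin (δ + 1) → Fin m} {w : Fin (δ + 1) → Fin n}
    (hw : Cw κ col w) (i0 : Fin (δ + 1)) {v : Fin n} (hv : v ∈ (mon w).support)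
    (hκ : κ v = col i0) : ∃ u, Cw κ col u ∧ mon u = mon w ∧ u i0 = v := by
  obtain ⟨j, hj⟩ := (mem_supp_mon w v).1 hv
  refine ⟨w ∘ Equiv.swap j i0, ?_, ?_, ?_⟩
  · intro i
    have h1 : col j = col i0 := by rw [← hw j, hj, hκ]
    show κ (w (Equiv.swap j i0 i)) = col i
    rw [hw]
    by_cases h2 : i = j
    · subst h2; rw [Equiv.swap_apply_left]; exact h1.symm
    · by_cases h3 : i = i0
      · subst h3; rw [Equiv.swap_apply_right]; exact h1
      · rw [Equiv.swap_apply_of_ne_of_ne h2 h3]
  · unfold mon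
    exact Equiv.sum_comp (Equiv.swap j i0) (fun i => (Finsupp.single (w i) 1 : Fin n →₀ ℕ))
  · show w (Equiv.swap j i0 i0) = v
    rw [Equiv.swap_apply_right, hj]

theorem moff_eq_of {i0 : Fin (δ + 1)} {u : Fin (δ + 1) → Fin n} {e : Fin n →₀ ℕ}
    (h : e + Finsupp.single (u i0) 1 = mon u) : moff i0 u = e := by
  rw [mon_eq i0, add_comm] at h
  exact (add_left_cancel h).symm

/-- the exponents of the coloured words -/
noncomputable def T (κ : Fin n → Fin m) (col : Fin (δ + 1) → Fin m) : Finset (Fin n →₀ ℕ) := by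
  classical exact (univ.filter (fun w => Cw κ col w)).image mon

/-- the exponents of the coloured words with one letter removed -/
noncomputable def E (κ : Fin n → Fin m) (col : Fin (δ + 1) → Fin m) (i0 : Fin (δ + 1)) :
    Finset (Fin n →₀ ℕ) := by
  classical exact (univ.filter (fun w => Cw κ col w)).image (moff i0)

theorem mem_T {κ : Fin n → Fin m} {col : Fin (δ + 1) → Fin m} {t : Fin n →₀ ℕ} :
    t ∈ T κ col ↔ ∃ w, Cw κ col w ∧ mon w = t := by
  classical
  unfold T
  simp [Finset.mem_image]

theorem mem_E {κ : Fin n → Fin m} {col : Fin (δ + 1) → Fin m} {i0 : Fin (δ + 1)}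
    {t : Fin n →₀ ℕ} : t ∈ E κ col i0 ↔ ∃ w, Cw κ col w ∧ moff i0 w = t := by
  classical
  unfold E
  simp [Finset.mem_image]

theorem mem_E_of {κ : Fin n → Fin m} {col : Fin (δ + 1) → Fin m} {i0 : Fin (δ + 1)}
    {e : Fin n →₀ ℕ} {v : Fin n} (hκ : κ v = col i0) (h : e + Finsupp.single v 1 ∈ T κ col) :
    e ∈ E κ col i0 := by
  obtain ⟨w, hw, he⟩ := mem_T.1 h
  have hv : v ∈ (mon w).support := by
    rw [he, Finsupp.mem_support_iff, Finsupp.add_apply, Finsupp.single_eq_same]
    omega
  obtain ⟨u, hu, hum, hui⟩ := exists_swap hw i0 hv hκ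
  refine mem_E.2 ⟨u, hu, moff_eq_of ?_⟩
  rw [hui, hum, he]

theorem mem_T_of {κ : Fin n → Fin m} {col : Fin (δ + 1) → Fin m} {i0 : Fin (δ + 1)}
    {e : Fin n →₀ ℕ} {v : Fin n} (hκ : κ v = col i0) (h : e ∈ E κ col i0) :
    e + Finsupp.single v 1 ∈ T κ col := by
  classical
  obtain ⟨w, hw, he⟩ := mem_E.1 h
  refine mem_T.2 ⟨Function.update w i0 v, ?_, ?_⟩
  · intro i
    by_cases hi : i = i0
    · subst hi; rw [Function.update_self]; exact hκ
    · rw [Function.update_of_ne hi]; exact hw i
  · rw [mon_eq i0, Function.update_self, add_comm, ← he]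
    congr 1
    unfold moff
    refine Finset.sum_congr rfl (fun i hi => ?_)
    rw [Function.update_of_ne (ne_of_mem_erase hi)]

/-- all exponents with one letter removed -/
noncomputable def EE (κ : Fin n → Fin m) (col : Fin (δ + 1) → Fin m) : Finset (Fin n →₀ ℕ) := by
  classical exact univ.biUnion (E κ col)

theorem mem_EE {κ : Fin n → Fin m} {col : Fin (δ + 1) → Fin m} {i0 : Fin (δ + 1)}
    {e : Fin n →₀ ℕ} (h : e ∈ E κ col i0) : e ∈ EE κ col := by
  classical
  unfold EE
  exact Finset.mem_biUnion.2 ⟨i0, mem_univ _, h⟩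

open Classical in
/-- the rows of the linear system -/
noncomputable def Row {R : Type*} [CommRing R] (κ : Fin n → Fin m) (col : Fin (δ + 1) → Fin m)
    (K : Finset (Finset (Fin n))) (a : (Fin (δ + 1) × Fin 2) × Fin n → R) :
    (((Fin (δ + 1) × Fin 2) × {e // e ∈ EE κ col}) ⊕ {t // t ∈ T κ col}) →
    {t // t ∈ T κ col} → R
  | Sum.inl (p, e), t => ∑ v ∈ univ.filter (fun v => κ v = col p.1),
      if e.1 + Finsupp.single v 1 = t.1 then a (p, v) else 0
  | Sum.inr t0, t => if t = t0 ∧ t0.1.support ∉ K then 1 else 0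

theorem Row_map {R S : Type*} [CommRing R] [CommRing S] (f : R →+* S) (κ : Fin n → Fin m)
    (col : Fin (δ + 1) → Fin m)
    (K : Finset (Finset (Fin n))) (a : (Fin (δ + 1) × Fin 2) × Fin n → R) (N) (w) :
    f (Row κ col K a N w) = Row κ col K (fun x => f (a x)) N w := by
  rcases N with ⟨ij, u⟩ | w0
  · simp only [Row]
    rw [map_sum]
    refine Finset.sum_congr rfl (fun v _ => ?_)
    split_ifs <;> simp
  · simp only [Row]
    split_ifs <;> simp

theorem coeff_srI {k : Type*} [Field k] {L : Finset (Finset (Fin n))}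
    (hL : IsCx L) {p : MvPolynomial (Fin n) k} (hp : p ∈ srI k L) :
    ∀ m : Fin n →₀ ℕ, m.support ∈ L → coeff m p = 0 := by
  unfold srI at hp
  induction hp using Submodule.span_induction with
  | mem x hx =>
    obtain ⟨σ, hσ, rfl⟩ := hx
    intro m hm
    have e : (∏ v ∈ σ, X v : MvPolynomial (Fin n) k) = monomial (∑ v ∈ σ, Finsupp.single v 1) 1 := by
      rw [monomial_sum_one]
      rfl
    rw [e, coeff_monomial, if_neg]
    rintro rfl
    apply hσ
    have : (∑ v ∈ σ, Finsupp.single v 1 : Fin n →₀ ℕ).support = σ := by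
      ext v
      rw [Finsupp.mem_support_iff, Finsupp.finsetSum_apply]
      simp [Finsupp.single_apply]
    rwa [this] at hm
  | zero => intro m _; simp
  | add x y _ _ hx hy =>
    intro m hm
    rw [coeff_add, hx m hm, hy m hm, add_zero]
  | smul a x _ hx =>
    intro m hm
    rw [smul_eq_mul, coeff_mul]
    apply Finset.sum_eq_zero
    intro ab hab
    rw [Finset.HasAntidiagonal.mem_antidiagonal] at hab
    rw [hx ab.2 (hL.2 _ hm _ ?_), mul_zero]
    intro v hv
    rw [Finsupp.mem_support_iff] at hv ⊢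
    rw [← hab, Finsupp.add_apply]
    omega

/-- a monomial whose support is not a face is in the Stanley-Reisner ideal -/
theorem monomial_mem_srI {k : Type*} [Field k] {K : Finset (Finset (Fin n))}
    {t : Fin n →₀ ℕ} (h : t.support ∉ K) : (monomial t 1 : MvPolynomial (Fin n) k) ∈ srI k K := by
  have e : (monomial t 1 : MvPolynomial (Fin n) k) =
      monomial (t - ∑ v ∈ t.support, Finsupp.single v 1) 1 * ∏ v ∈ t.support, X v := by
    have e1 : (∏ v ∈ t.support, X v : MvPolynomial (Fin n) k) =
        monomial (∑ v ∈ t.support, Finsupp.single v 1) 1 := by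
      rw [monomial_sum_one]
      rfl
    have e2 : (t - ∑ v ∈ t.support, Finsupp.single v 1) + ∑ v ∈ t.support, Finsupp.single v 1
        = t := by
      ext v
      rw [Finsupp.add_apply, Finsupp.tsub_apply, Finsupp.finsetSum_apply]
      have h1 : ∑ x ∈ t.support, (Finsupp.single x 1 : Fin n →₀ ℕ) v =
          if t v = 0 then 0 else 1 := by
        simp only [Finsupp.single_apply]
        rw [Finset.sum_ite_eq']
        by_cases h0 : t v = 0
        · rw [if_neg (by simpa using h0), if_pos h0]
        · rw [if_pos (by simpa using h0), if_neg h0]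
      rw [h1]
      split_ifs <;> omega
    rw [e1, monomial_mul, one_mul, e2]
  rw [e]
  exact Ideal.mul_mem_left _ _ (Ideal.subset_span ⟨_, h, rfl⟩)

theorem coeff_mul_form {k : Type*} [Field k] {κ : Fin n → Fin m} (f : MvPolynomial (Fin n) k)
    (i : Fin m) (a : Fin n → k) (t : Fin n →₀ ℕ) :
    coeff t (f * form κ i a) = ∑ v ∈ univ.filter (fun v => κ v = i),
      if v ∈ t.support then coeff (t - Finsupp.single v 1) f * a v else 0 := by
  unfold form
  rw [Finset.mul_sum, coeff_sum]
  refine Finset.sum_congr rfl (fun v _ => ?_)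
  have e : f * (C (a v) * X v) = C (a v) * (f * X v) := by ring
  rw [e, coeff_C_mul, coeff_mul_X']
  split_ifs
  · ring
  · ring

/-- step 1: the rows span in characteristic 2 -/
theorem span_all {k : Type} [Field k] (κ : Fin n → Fin m) (col : Fin (δ + 1) → Fin m)
    {K : Finset (Finset (Fin n))}
    (hK : IsCx K) (a : (Fin (δ + 1) × Fin 2) × Fin n → k)
    (h : ∀ w : Fin (δ + 1) → Fin n, Cw κ col w → (∏ i, X (w i) : MvPolynomial (Fin n) k) ∈
      srI k K ⊔ Ideal.span (Set.range (fun ij : Fin (δ + 1) × Fin 2 =>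
        form κ (col ij.1) (fun v => a (ij, v)))))
    (y : {t // t ∈ T κ col} → k) : y ∈ Submodule.span k (Set.range (Row κ col K a)) := by
  classical
  set Sp := Submodule.span k (Set.range (Row κ col K a)) with hSp
  have hrow : ∀ N, Row κ col K a N ∈ Sp := fun N => Submodule.subset_span ⟨N, rfl⟩
  have hbad : ∀ z : {t // t ∈ T κ col} → k, (∀ t, t.1.support ∈ K → z t = 0) → z ∈ Sp := by
    intro z hz
    have e : z = ∑ w, z w • Row κ col K a (Sum.inr w) := by
      funext w'
      rw [Finset.sum_apply, Finset.sum_eq_single w']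
      · simp only [Pi.smul_apply, Row, smul_eq_mul, true_and]
        by_cases hg : w'.1.support ∈ K
        · rw [hz w' hg, zero_mul]
        · rw [if_pos hg, mul_one]
      · intro w _ hne
        simp only [Pi.smul_apply, Row, smul_eq_mul]
        rw [if_neg (fun h => hne h.1.symm), mul_zero]
      · intro h
        exact absurd (mem_univ _) h
    rw [e]
    exact Submodule.sum_mem _ (fun w _ => Submodule.smul_mem _ _ (hrow _))
  have hunit : ∀ t : {t // t ∈ T κ col}, Pi.single t (1 : k) ∈ Sp := by
    intro t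
    by_cases htK : t.1.support ∈ K
    · obtain ⟨w, hw, hwt⟩ := mem_T.1 t.2
      obtain ⟨s, hs, r, hr, hst⟩ := Submodule.mem_sup.mp (h w hw)
      obtain ⟨f, hf⟩ := (Ideal.mem_span_range_iff_exists_fun).mp hr
      set S : {t // t ∈ T κ col} → k := ∑ p : Fin (δ + 1) × Fin 2, ∑ e : {e // e ∈ EE κ col},
        coeff e.1 (f p) • Row κ col K a (Sum.inl (p, e)) with hS
      have hSmem : S ∈ Sp := Submodule.sum_mem _ (fun p _ => Submodule.sum_mem _ (fun u _ =>
        Submodule.smul_mem _ _ (hrow _)))
      have hSval : ∀ t', S t' = ∑ p : Fin (δ + 1) × Fin 2,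
          coeff t'.1 (f p * form κ (col p.1) (fun v => a (p, v))) := by
        intro t'
        rw [hS, Finset.sum_apply]
        refine Finset.sum_congr rfl (fun p _ => ?_)
        rw [Finset.sum_apply, coeff_mul_form]
        simp only [Pi.smul_apply, Row, smul_eq_mul, Finset.mul_sum]
        rw [Finset.sum_comm]
        refine Finset.sum_congr rfl (fun v hv => ?_)
        have hκ : κ v = col p.1 := (mem_filter.1 hv).2
        by_cases hvt : v ∈ t'.1.support
        · rw [if_pos hvt]
          have hle : Finsupp.single v 1 ≤ t'.1 := by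
            rw [Finsupp.single_le_iff]
            have := Finsupp.mem_support_iff.1 hvt
            omega
          have hadd : t'.1 - Finsupp.single v 1 + Finsupp.single v 1 = t'.1 :=
            tsub_add_cancel_of_le hle
          have hE : t'.1 - Finsupp.single v 1 ∈ EE κ col := by
            refine mem_EE (i0 := p.1) (mem_E_of hκ ?_)
            rw [hadd]
            exact t'.2
          rw [Finset.sum_eq_single ⟨t'.1 - Finsupp.single v 1, hE⟩]
          · rw [if_pos hadd]
          · intro e _ hne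
            rw [if_neg, mul_zero]
            intro h1
            apply hne
            apply Subtype.ext
            show e.1 = t'.1 - Finsupp.single v 1
            rw [← h1, add_tsub_cancel_right]
          · intro h1
            exact absurd (mem_univ _) h1
        · rw [if_neg hvt]
          refine Finset.sum_eq_zero (fun e _ => ?_)
          rw [if_neg, mul_zero]
          intro h1
          apply hvt
          rw [← h1, Finsupp.mem_support_iff, Finsupp.add_apply, Finsupp.single_eq_same]
          omega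
      have hval : ∀ t' : {t // t ∈ T κ col}, t'.1.support ∈ K →
          S t' = Pi.single (M := fun _ => k) t (1 : k) t' := by
        intro t' ht'
        have h1 := congrArg (coeff t'.1) hst
        rw [coeff_add, coeff_srI hK hs _ ht', zero_add, ← hf,
          coeff_sum, prod_X, coeff_monomial, hwt] at h1
        rw [hSval t', h1]
        by_cases he : t' = t
        · subst he
          rw [if_pos rfl, Pi.single_eq_same]
        · rw [if_neg, Pi.single_eq_of_ne he]
          intro h3
          exact he (Subtype.ext h3).symm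
      have e : Pi.single t (1 : k) = S + (Pi.single t (1 : k) - S) := by abel
      rw [e]
      apply Submodule.add_mem _ hSmem
      apply hbad
      intro w' hw'
      rw [Pi.sub_apply, hval w' hw', sub_self]
    · apply hbad
      intro w' hw'
      apply Pi.single_eq_of_ne
      rintro rfl
      exact htK hw'
  have e : y = ∑ w, y w • Pi.single w (1 : k) := by
    funext w'
    rw [Finset.sum_apply, Finset.sum_eq_single w']
    · simp
    · intro w _ hne
      rw [Pi.smul_apply, Pi.single_eq_of_ne hne.symm, smul_zero]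
    · intro h
      exact absurd (mem_univ _) h
  rw [e]
  exact Submodule.sum_mem _ (fun w _ => Submodule.smul_mem _ _ (hunit w))

/-- step 2: representation of the coloured monomials -/
theorem step2 {k : Type} [Field k] (κ : Fin n → Fin m) (col : Fin (δ + 1) → Fin m)
    {K : Finset (Finset (Fin n))}
    (a : (Fin (δ + 1) × Fin 2) × Fin n → k)
    (h : ∀ y : {t // t ∈ T κ col} → k, y ∈ Submodule.span k (Set.range (Row κ col K a)))
    (w : Fin (δ + 1) → Fin n) (hw : Cw κ col w) :
    ∃ q : Fin (δ + 1) × Fin 2 → MvPolynomial (Fin n) k,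
      (∀ ij, q ij ∈ Submodule.span k {y | ∃ u : Fin (δ + 1) → Fin n, (∀ i, κ (u i) = col i) ∧
        y = ∏ i ∈ univ.erase ij.1, X (u i)}) ∧
      ∏ i, X (w i) - ∑ ij, q ij * form κ (col ij.1) (fun v => a (ij, v)) ∈ srI k K := by
  classical
  have hwT : mon w ∈ T κ col := mem_T.2 ⟨w, hw, rfl⟩
  obtain ⟨b, hb⟩ := (Submodule.mem_span_range_iff_exists_fun k).mp
    (h (Pi.single ⟨mon w, hwT⟩ 1))
  let Q : Fin (δ + 1) × Fin 2 → (Fin n →₀ ℕ) → MvPolynomial (Fin n) k := fun p e =>
    if e ∈ E κ col p.1 then monomial e 1 else 0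
  refine ⟨fun p => ∑ e : {e // e ∈ EE κ col}, b (Sum.inl (p, e)) • Q p e.1, ?_, ?_⟩
  · intro p
    apply Submodule.sum_mem
    intro e _
    apply Submodule.smul_mem
    show (if e.1 ∈ E κ col p.1 then monomial e.1 (1 : k) else 0) ∈ _
    split_ifs with hu
    · obtain ⟨u, hu1, hu2⟩ := mem_E.1 hu
      exact Submodule.subset_span ⟨u, hu1, by rw [prod_X_off, hu2]⟩
    · exact Submodule.zero_mem _
  -- the linear map
  let Φ : ({t // t ∈ T κ col} → k) →ₗ[k] MvPolynomial (Fin n) k :=
    ∑ t : {t // t ∈ T κ col}, (LinearMap.proj t : ({t // t ∈ T κ col} → k) →ₗ[k] k).smulRight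
      (monomial t.1 1)
  have hΦv : ∀ y, Φ y = ∑ t : {t // t ∈ T κ col}, y t • (monomial t.1 1 :
      MvPolynomial (Fin n) k) := by
    intro y
    show (∑ t : {t // t ∈ T κ col}, _ : _ →ₗ[k] _) y = _
    rw [LinearMap.sum_apply]
    rfl
  have h1 : Φ (Pi.single ⟨mon w, hwT⟩ 1) = ∏ i, X (w i) := by
    rw [hΦv, Finset.sum_eq_single ⟨mon w, hwT⟩]
    · rw [Pi.single_eq_same, one_smul, prod_X]
    · intro w' _ hne
      rw [Pi.single_eq_of_ne hne, zero_smul]
    · intro h
      exact absurd (mem_univ _) h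
  have h2 : ∀ t0, Φ (Row κ col K a (Sum.inr t0)) ∈ srI k K := by
    intro t0
    rw [hΦv]
    apply Ideal.sum_mem
    intro t' _
    simp only [Row]
    split_ifs with g1
    · rw [one_smul, g1.1]
      exact monomial_mem_srI g1.2
    · rw [zero_smul]; exact Ideal.zero_mem _
  have h3 : ∀ p : Fin (δ + 1) × Fin 2, ∀ e : {e // e ∈ EE κ col},
      Φ (Row κ col K a (Sum.inl (p, e))) = Q p e.1 * form κ (col p.1) (fun v => a (p, v)) := by
    intro p e
    rw [hΦv]
    simp only [Row, Finset.sum_smul]
    rw [Finset.sum_comm]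
    unfold form
    rw [Finset.mul_sum]
    refine Finset.sum_congr rfl (fun v hv => ?_)
    have hκ : κ v = col p.1 := (mem_filter.1 hv).2
    by_cases he : e.1 ∈ E κ col p.1
    · have hT := mem_T_of hκ he
      rw [Finset.sum_eq_single ⟨e.1 + Finsupp.single v 1, hT⟩]
      · rw [if_pos rfl]
        show a (p, v) • monomial (e.1 + Finsupp.single v 1) (1 : k) = (if e.1 ∈ E κ col p.1 then
          monomial e.1 (1 : k) else 0) * (C (a (p, v)) * X v)
        rw [if_pos he, X, ← mul_assoc, mul_comm (monomial e.1 (1 : k)), mul_assoc, monomial_mul,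
          one_mul, smul_eq_C_mul]
      · intro t _ hne
        rw [if_neg, zero_smul]
        intro h4
        exact hne (Subtype.ext h4.symm)
      · intro h4
        exact absurd (mem_univ _) h4
    · show _ = (if e.1 ∈ E κ col p.1 then monomial e.1 (1 : k) else 0) * (C (a (p, v)) * X v)
      rw [if_neg he, zero_mul]
      refine Finset.sum_eq_zero (fun t _ => ?_)
      rw [if_neg, zero_smul]
      intro h4
      exact he (mem_E_of hκ (by rw [h4]; exact t.2))
  have e4 : (∏ i, X (w i) : MvPolynomial (Fin n) k) = (∑ p : Fin (δ + 1) × Fin 2,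
      ∑ e : {e // e ∈ EE κ col}, b (Sum.inl (p, e)) • (Q p e.1 *
        form κ (col p.1) (fun v => a (p, v)))) +
      ∑ t0, b (Sum.inr t0) • Φ (Row κ col K a (Sum.inr t0)) := by
    rw [← h1, ← hb, map_sum, Fintype.sum_sum_type, Fintype.sum_prod_type]
    simp only [map_smul, h3]
  have e5 : (∏ i, X (w i) : MvPolynomial (Fin n) k) - ∑ ij : Fin (δ + 1) × Fin 2,
      (∑ e : {e // e ∈ EE κ col}, b (Sum.inl (ij, e)) • Q ij e.1) *
        form κ (col ij.1) (fun v => a (ij, v)) =
      ∑ t0, b (Sum.inr t0) • Φ (Row κ col K a (Sum.inr t0)) := by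
    rw [e4, add_sub_right_comm, ← Finset.sum_sub_distrib, Finset.sum_eq_zero, zero_add]
    intro p _
    rw [Finset.sum_mul, ← Finset.sum_sub_distrib]
    refine Finset.sum_eq_zero (fun e _ => ?_)
    rw [smul_mul_assoc, sub_self]
  rw [e5]
  apply Ideal.sum_mem
  intro t0 _
  rw [smul_eq_C_mul]
  exact Ideal.mul_mem_left _ _ (h2 t0)

/-- the representation for generic forms over every field -/
theorem gen0 (h1e : StT1E) (hind : StInd) (K : Finset (Finset (Fin n))) (κ : Fin n → Fin m)
    (col : Fin (δ + 1) → Fin m) (hK : IsCx K) (hV : VK K (2 * δ + 1 + 1)) :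
    ∃ F : MvPolynomial ((Fin (δ + 1) × Fin 2) × Fin n) ℤ,
      MvPolynomial.map (Int.castRingHom (ZMod 2)) F ≠ 0 ∧
    ∀ (k : Type) [Field k] (c : (Fin (δ + 1) × Fin 2) × Fin n → k), aeval c F ≠ 0 →
      ∀ w : Fin (δ + 1) → Fin n, (∀ i, κ (w i) = col i) →
        ∃ q : Fin (δ + 1) × Fin 2 → MvPolynomial (Fin n) k,
          (∀ ij, q ij ∈ Submodule.span k {y | ∃ u : Fin (δ + 1) → Fin n, (∀ i, κ (u i) = col i) ∧
            y = ∏ i ∈ univ.erase ij.1, X (u i)}) ∧
          ∏ i, X (w i) - ∑ ij, q ij * form κ (col ij.1) (fun v => c (ij, v)) ∈ srI k K := by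
  obtain ⟨F, hF0, hF⟩ := span2 ((Fin (δ + 1) × Fin 2) × Fin n)
    (((Fin (δ + 1) × Fin 2) × {e // e ∈ EE κ col}) ⊕ {t // t ∈ T κ col})
    {t // t ∈ T κ col} (Row κ col K (fun x => (X x : MvPolynomial
      ((Fin (δ + 1) × Fin 2) × Fin n) ℤ))) (by
      intro w
      have h1 := span_all κ col hK (fun x => algebraMap (MvPolynomial
        ((Fin (δ + 1) × Fin 2) × Fin n) (ZMod 2)) (FractionRing (MvPolynomial
        ((Fin (δ + 1) × Fin 2) × Fin n) (ZMod 2))) (X x))
        (fun w hw => gen2 h1e hind K κ col hK hV w hw) w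
      have e : (fun i => fun j : {t // t ∈ T κ col} => algebraMap (MvPolynomial
        ((Fin (δ + 1) × Fin 2) × Fin n) (ZMod 2)) (FractionRing (MvPolynomial
        ((Fin (δ + 1) × Fin 2) × Fin n) (ZMod 2))) (MvPolynomial.map (Int.castRingHom (ZMod 2))
          (Row κ col K (fun x => (X x : MvPolynomial ((Fin (δ + 1) × Fin 2) × Fin n) ℤ)) i j))) =
        Row κ col K (fun x => algebraMap (MvPolynomial
        ((Fin (δ + 1) × Fin 2) × Fin n) (ZMod 2)) (FractionRing (MvPolynomial
        ((Fin (δ + 1) × Fin 2) × Fin n) (ZMod 2))) (X x)) := by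
        funext i j
        rw [Row_map, Row_map]
        simp only [MvPolynomial.map_X]
      rw [e]
      exact h1)
  refine ⟨F, hF0, ?_⟩
  intro k _ c hc w hw
  have h1 := hF k c hc
  have e : (fun i => fun j : {t // t ∈ T κ col} => aeval c
      (Row κ col K (fun x => (X x : MvPolynomial ((Fin (δ + 1) × Fin 2) × Fin n) ℤ)) i j)) =
      Row κ col K c := by
    funext i j
    have := Row_map (aeval c : MvPolynomial ((Fin (δ + 1) × Fin 2) × Fin n) ℤ →ₐ[ℤ] k).toRingHom
      κ col K (fun x => (X x : MvPolynomial ((Fin (δ + 1) × Fin 2) × Fin n) ℤ)) i j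
    refine this.trans ?_
    congr 1
    funext x
    simp
  rw [e] at h1
  exact step2 κ col c h1 w hw

end Pool.Agent.Y408.BS
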