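import Pool.Agent.H87.L.W497_FS_Defs

/-!
# Flag homology spheres: faces are cliques, Euler relation (FS-A1)
-/

set_option autoImplicit false

open Finset

namespace Pool.Agent.W253.FS

open Pool.Agent.W497.FS

/-- the link of a face -/
def lnk {n : ℕ} (S : Finset (Finset (Fin n))) (F : Finset (Fin n)) : Finset (Finset (Fin n)) :=
  S.filter (fun G => Disjoint G F ∧ G ∪ F ∈ S)

theorem empty_mem {k : Type} [Field k] {n d : ℕ} {S : Finset (Finset (Fin n))}
    {r : Finset (Finset (Fin n)) → ℕ → ℕ} (h : IsFHS k n d S r) : (∅ : Finset (Fin n)) ∈ S :=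
  h.2.1 ∅ (by simp)

theorem cl_eq {k : Type} [Field k] {n d : ℕ} {S : Finset (Finset (Fin n))}
    {r : Finset (Finset (Fin n)) → ℕ → ℕ} (h : IsFHS k n d S r) : cl (skel S) (vert S) = S := by
  classical
  ext F
  simp only [cl, mem_filter, mem_powerset]
  constructor
  · rintro ⟨h1, h2⟩
    apply h.2.1
    intro a ha b hb
    by_cases hab : a = b
    · subst hab
      have := h1 ha
      simpa [vert] using this
    · exact (h2 a ha b hb hab).2
  · intro hF
    refine ⟨?_, ?_⟩
    · intro v hv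
      simp only [vert, mem_filter, mem_univ, true_and]
      exact h.1 F hF _ (by simpa using hv)
    · intro x hx y hy hxy
      refine ⟨hxy, h.1 F hF _ ?_⟩
      intro z hz
      rcases mem_insert.1 hz with rfl | hz
      · exact hx
      · rw [mem_singleton] at hz
        rw [hz]; exact hy

theorem r_zero {k : Type} [Field k] {n d : ℕ} {S : Finset (Finset (Fin n))}
    {r : Finset (Finset (Fin n)) → ℕ → ℕ} (h : IsFHS k n d S r) (L : Finset (Finset (Fin n))) :
    r L 0 = 0 := by
  rw [h.2.2.1 L 0]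
  have : (Matrix.of
        (fun (A : {A : Finset (Fin n) // A ∈ L.filter (fun A => A.card = 0 - 1)})
             (B : {B : Finset (Fin n) // B ∈ L.filter (fun B => B.card = 0)}) =>
          ∑ v ∈ B.1, if B.1.erase v = A.1
            then (-1 : k) ^ (B.1.filter (fun w => w < v)).card else 0)) = 0 := by
    ext A B
    have hB := (mem_filter.1 B.2).2
    rw [Finset.card_eq_zero] at hB
    simp [hB]
  rw [this, Matrix.rank_zero]

theorem r_big {k : Type} [Field k] {n d : ℕ} {S : Finset (Finset (Fin n))}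
    {r : Finset (Finset (Fin n)) → ℕ → ℕ} (h : IsFHS k n d S r) (L : Finset (Finset (Fin n)))
    (j : ℕ) (hj : ∀ B ∈ L, B.card ≠ j) : r L j = 0 := by
  rw [h.2.2.1 L j]
  have hemp : IsEmpty {B : Finset (Fin n) // B ∈ L.filter (fun B => B.card = j)} := by
    constructor
    rintro ⟨B, hB⟩
    exact hj B (mem_filter.1 hB).1 (mem_filter.1 hB).2
  have := Matrix.rank_le_card_width (Matrix.of
        (fun (A : {A : Finset (Fin n) // A ∈ L.filter (fun A => A.card = j - 1)})
             (B : {B : Finset (Fin n) // B ∈ L.filter (fun B => B.card = j)}) =>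
          ∑ v ∈ B.1, if B.1.erase v = A.1
            then (-1 : k) ^ (B.1.filter (fun w => w < v)).card else 0))
  rw [Fintype.card_eq_zero] at this
  exact Nat.le_zero.1 this

theorem card_max {k : Type} [Field k] {n d : ℕ} {S : Finset (Finset (Fin n))}
    {r : Finset (Finset (Fin n)) → ℕ → ℕ} (h : IsFHS k n d S r) (F : Finset (Fin n))
    (hF : Maximal (· ∈ S) F) : F.card = d := by
  classical
  have hL : S.filter (fun G => Disjoint G F ∧ G ∪ F ∈ S) = {∅} := by
    ext G
    simp only [mem_filter, mem_singleton]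
    constructor
    · rintro ⟨_, h2, h3⟩
      have h4 : G ∪ F ⊆ F := hF.le_of_ge h3 (subset_union_right)
      have h5 : G ⊆ F := subset_union_left.trans h4
      have h6 : Disjoint G G := h2.mono_right h5
      simpa using h6
    · rintro rfl
      exact ⟨empty_mem h, by simp, by simpa using hF.prop⟩
  have h4 := h.2.2.2 F hF.prop 0
  rw [hL, r_zero h] at h4
  rw [r_big h {∅} (0 + 1) (by simp)] at h4
  by_contra hne
  rw [if_neg (by omega)] at h4
  simp at h4

theorem card_le {k : Type} [Field k] {n d : ℕ} {S : Finset (Finset (Fin n))}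
    {r : Finset (Finset (Fin n)) → ℕ → ℕ} (h : IsFHS k n d S r) (F : Finset (Fin n))
    (hF : F ∈ S) : F.card ≤ d := by
  obtain ⟨T, hT, hm⟩ := S.exists_le_maximal hF
  rw [← card_max h T hm]
  exact card_le_card hT

theorem d_le {k : Type} [Field k] {n d : ℕ} {S : Finset (Finset (Fin n))}
    {r : Finset (Finset (Fin n)) → ℕ → ℕ} (h : IsFHS k n d S r) : d ≤ n := by
  obtain ⟨T, _, hm⟩ := S.exists_le_maximal (empty_mem h)
  rw [← card_max h T hm]
  simpa using card_le_univ T

theorem telescope (f : ℕ → ℤ) (N : ℕ) :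
    ∑ j ∈ range N, (-1 : ℤ) ^ j * (f j + f (j + 1)) = f 0 - (-1) ^ N * f N := by
  induction N with
  | zero => simp
  | succ N ih =>
    rw [sum_range_succ, ih, pow_succ]
    ring

theorem euler {k : Type} [Field k] {n d : ℕ} {S : Finset (Finset (Fin n))}
    {r : Finset (Finset (Fin n)) → ℕ → ℕ} (h : IsFHS k n d S r) (F : Finset (Fin n))
    (hF : F ∈ S) : ∑ G ∈ S.filter (fun G => Disjoint G F ∧ G ∪ F ∈ S), (-1 : ℤ) ^ G.card =
      (-1) ^ (d - F.card) := by
  classical
  set L := S.filter (fun G => Disjoint G F ∧ G ∪ F ∈ S) with hL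
  have hcard : ∀ G : Finset (Fin n), G.card < n + 1 := fun G => by
    have := card_le_univ G
    rw [Fintype.card_fin] at this
    omega
  have e1 : ∑ G ∈ L, (-1 : ℤ) ^ G.card =
      ∑ j ∈ range (n + 1), (-1 : ℤ) ^ j * ((L.filter (fun G => G.card = j)).card : ℤ) := by
    rw [← sum_fiberwise_of_maps_to (s := L) (t := range (n + 1)) (g := fun G => G.card)
      (fun G _ => mem_range.2 (hcard G))]
    refine sum_congr rfl fun j _ => ?_
    rw [sum_congr rfl (g := fun _ => (-1 : ℤ) ^ j) (fun G hG => by rw [(mem_filter.1 hG).2]),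
      sum_const, nsmul_eq_mul]
    ring
  have e2 : ∀ j, (-1 : ℤ) ^ j * ((L.filter (fun G => G.card = j)).card : ℤ) =
      (-1 : ℤ) ^ j * ((r L j : ℤ) + (r L (j + 1) : ℤ)) +
        (-1 : ℤ) ^ j * (if j + F.card = d then 1 else 0) := by
    intro j
    have := h.2.2.2 F hF j
    rw [← hL] at this
    rw [← this]
    ring
  rw [e1, sum_congr rfl fun j _ => e2 j, sum_add_distrib]
  have e3 := telescope (fun j => (r L j : ℤ)) (n + 1)
  rw [e3, r_zero h, r_big h L (n + 1) (fun B _ => (hcard B).ne)]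
  have hle := card_le h F hF
  have hdn := d_le h
  rw [sum_eq_single (d - F.card)]
  · rw [if_pos (by omega)]
    simp
  · intro j _ hj
    rw [if_neg (by omega), mul_zero]
  · intro hj
    exact absurd (mem_range.2 (by omega)) hj

theorem main : StmA1 := by
  classical
  intro k _ n d S r h
  refine ⟨cl_eq h, ?_, card_le h⟩
  intro σ hσ
  rw [cl_eq h] at hσ ⊢
  have h1 : ∑ τ ∈ S.filter (fun τ => σ ⊆ τ), (-1 : ℤ) ^ τ.card =
      ∑ G ∈ S.filter (fun G => Disjoint G σ ∧ G ∪ σ ∈ S), (-1 : ℤ) ^ (G.card + σ.card) := by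
    refine sum_bij' (fun τ _ => τ \ σ) (fun G _ => G ∪ σ) ?_ ?_ ?_ ?_ ?_
    · intro τ hτ
      rw [mem_filter] at hτ ⊢
      refine ⟨h.1 τ hτ.1 _ sdiff_subset, sdiff_disjoint, ?_⟩
      rw [sdiff_union_of_subset hτ.2]
      exact hτ.1
    · intro G hG
      rw [mem_filter] at hG ⊢
      exact ⟨hG.2.2, subset_union_right⟩
    · intro τ hτ
      exact sdiff_union_of_subset (mem_filter.1 hτ).2
    · intro G hG
      rw [mem_filter] at hG
      rw [union_sdiff_right]
      exact sdiff_eq_self_of_disjoint hG.2.1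
    · intro τ hτ
      rw [card_sdiff_add_card_eq_card (mem_filter.1 hτ).2]
  have h2 : ∑ G ∈ S.filter (fun G => Disjoint G σ ∧ G ∪ σ ∈ S), (-1 : ℤ) ^ (G.card + σ.card) =
      (-1) ^ d := by
    simp only [pow_add]
    rw [← sum_mul, euler h σ hσ, ← pow_add, Nat.sub_add_cancel (card_le h σ hσ)]
  rw [← h2, ← h1]
  refine sum_congr ?_ fun _ _ => rfl
  ext τ
  simp

end Pool.Agent.W253.FS
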