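import Pool.Agent.H87.L.W497_FS_Defs

set_option autoImplicit false
set_option linter.unusedSectionVars false

/-! # Basic lemmas: links, joins, closed subcomplexes, prime complexes -/

namespace Pool.Agent.W497.FS

variable {α : Type*} {H : SimpleGraph α}

theorem mem_lk {W : Finset α} {v x : α} : x ∈ lk H W v ↔ x ∈ W ∧ H.Adj v x := by
  classical
  simp [lk]

theorem mem_lkF {W κ : Finset α} {x : α} :
    x ∈ lkF H W κ ↔ x ∈ W ∧ ∀ y ∈ κ, H.Adj y x := by
  classical
  simp [lkF]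

theorem mem_cl {W σ : Finset α} :
    σ ∈ cl H W ↔ σ ⊆ W ∧ ∀ x ∈ σ, ∀ y ∈ σ, x ≠ y → H.Adj x y := by
  classical
  simp [cl]

theorem lk_subset {W : Finset α} {v : α} : lk H W v ⊆ W := fun _ hx => (mem_lk.1 hx).1

theorem not_mem_lk_self {W : Finset α} {v : α} : v ∉ lk H W v := fun h => (mem_lk.1 h).2.ne rfl

theorem lk_mono {A W : Finset α} (h : A ⊆ W) (v : α) : lk H A v ⊆ lk H W v :=
  fun _ hx => mem_lk.2 ⟨h (mem_lk.1 hx).1, (mem_lk.1 hx).2⟩

/-- complete adjacency between two sets -/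
def Full (H : SimpleGraph α) (A B : Finset α) : Prop := ∀ a ∈ A, ∀ b ∈ B, H.Adj a b

theorem Full.symm {A B : Finset α} (h : Full H A B) : Full H B A :=
  fun b hb a ha => (h a ha b hb).symm

theorem Full.disjoint {A B : Finset α} (h : Full H A B) : Disjoint A B :=
  Finset.disjoint_left.2 fun x hA hB => (h x hA x hB).ne rfl

theorem Full.mono {A B A' B' : Finset α} (h : Full H A B) (hA : A' ⊆ A) (hB : B' ⊆ B) :
    Full H A' B' := fun a ha b hb => h a (hA ha) b (hB hb)

variable [DecidableEq α]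

theorem Full.lk_left {A B : Finset α} (h : Full H A B) {a : α} (ha : a ∈ A) :
    lk H (A ∪ B) a = lk H A a ∪ B := by
  ext x
  simp only [mem_lk, Finset.mem_union]
  constructor
  · rintro ⟨h1 | h1, h2⟩
    · exact Or.inl ⟨h1, h2⟩
    · exact Or.inr h1
  · rintro (⟨h1, h2⟩ | h1)
    · exact ⟨Or.inl h1, h2⟩
    · exact ⟨Or.inr h1, h a ha x h1⟩

theorem Full.lk_right {A B : Finset α} (h : Full H A B) {b : α} (hb : b ∈ B) :
    lk H (A ∪ B) b = A ∪ lk H B b := by
  rw [Finset.union_comm, h.symm.lk_left hb, Finset.union_comm]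

/-! ### Normal pseudomanifolds -/

theorem NP.lk {d : ℕ} {W : Finset α} (h : NP H (d + 1) W) {v : α} (hv : v ∈ W) :
    NP H d (FS.lk H W v) := by
  rcases d with _ | d
  · have h' : W.card = 2 ∧ ∀ x ∈ W, ∀ y ∈ W, ¬ H.Adj x y := h
    change FS.lk H W v = ∅
    apply Finset.eq_empty_of_forall_notMem
    intro x hx
    rw [mem_lk] at hx
    exact h'.2 v hv x hx.1 hx.2
  · exact h.2.2 v hv

theorem NP.nonempty {d : ℕ} {W : Finset α} (h : NP H (d + 1) W) : W.Nonempty := by
  rcases d with _ | d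
  · have h' : W.card = 2 ∧ ∀ x ∈ W, ∀ y ∈ W, ¬ H.Adj x y := h
    rw [← Finset.card_pos]; omega
  · exact h.1

theorem NP.rank_pos {d : ℕ} {W : Finset α} (h : NP H d W) {v : α} (hv : v ∈ W) :
    ∃ e, d = e + 1 := by
  rcases d with _ | d
  · have : W = ∅ := h
    rw [this] at hv
    exact absurd hv (Finset.notMem_empty v)
  · exact ⟨d, rfl⟩

theorem NP.lk' {d : ℕ} {W : Finset α} (h : NP H d W) {v : α} (hv : v ∈ W) :
    ∃ e, d = e + 1 ∧ NP H e (FS.lk H W v) := by
  obtain ⟨e, rfl⟩ := h.rank_pos hv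
  exact ⟨e, rfl, h.lk hv⟩

theorem NP.rank_unique {d d' : ℕ} {W : Finset α} (h : NP H d W) (h' : NP H d' W) : d = d' := by
  induction d generalizing d' W with
  | zero =>
    rcases d' with _ | d'
    · rfl
    · obtain ⟨v, hv⟩ := h'.nonempty
      have : W = ∅ := h
      rw [this] at hv
      exact absurd hv (Finset.notMem_empty v)
  | succ d ih =>
    obtain ⟨v, hv⟩ := h.nonempty
    obtain ⟨e, rfl, he⟩ := h'.lk' hv
    rw [ih (h.lk hv) he]

/-- a complex without boundary, of rank `d` (weaker than `NP`) -/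
def Q (H : SimpleGraph α) : ℕ → Finset α → Prop
  | 0, W => W = ∅
  | 1, W => 2 ≤ W.card ∧ ∀ x ∈ W, ∀ y ∈ W, ¬ H.Adj x y
  | (d + 2), W => W.Nonempty ∧ ∀ v ∈ W, Q H (d + 1) (lk H W v)

theorem NP.q {d : ℕ} {W : Finset α} (h : NP H d W) : Q H d W := by
  induction d generalizing W with
  | zero => exact h
  | succ d ih =>
    rcases d with _ | d
    · have h' : W.card = 2 ∧ ∀ x ∈ W, ∀ y ∈ W, ¬ H.Adj x y := h
      exact ⟨h'.1.ge, h'.2⟩
    · exact ⟨h.1, fun v hv => ih (h.lk hv)⟩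

theorem Q.lk {d : ℕ} {W : Finset α} (h : Q H (d + 1) W) {v : α} (hv : v ∈ W) :
    Q H d (FS.lk H W v) := by
  rcases d with _ | d
  · have h' : 2 ≤ W.card ∧ ∀ x ∈ W, ∀ y ∈ W, ¬ H.Adj x y := h
    change FS.lk H W v = ∅
    apply Finset.eq_empty_of_forall_notMem
    intro x hx
    rw [mem_lk] at hx
    exact h'.2 v hv x hx.1 hx.2
  · exact h.2 v hv

theorem Q.nonempty {d : ℕ} {W : Finset α} (h : Q H (d + 1) W) : W.Nonempty := by
  rcases d with _ | d
  · have h' : 2 ≤ W.card ∧ ∀ x ∈ W, ∀ y ∈ W, ¬ H.Adj x y := h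
    rw [← Finset.card_pos]; omega
  · exact h.1

/-- a closed subcomplex of full rank is everything -/
theorem closed_eq {d : ℕ} {W T : Finset α} (h : NP H d W) (hT : T ⊆ W) (hq : Q H d T) :
    T = W := by
  induction d generalizing W T with
  | zero =>
    have h1 : W = ∅ := h
    have h2 : T = ∅ := hq
    rw [h1, h2]
  | succ d ih =>
    rcases d with _ | d
    · have h' : W.card = 2 ∧ ∀ x ∈ W, ∀ y ∈ W, ¬ H.Adj x y := h
      have hq' : 2 ≤ T.card ∧ ∀ x ∈ T, ∀ y ∈ T, ¬ H.Adj x y := hq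
      exact Finset.eq_of_subset_of_card_le hT (by omega)
    · by_contra hne
      obtain ⟨a, ha, b, hb, hbT, hab⟩ := h.2.1 T hT hq.nonempty hne
      have := ih (h.lk (hT ha)) (lk_mono hT a) (hq.lk ha)
      have hb' : b ∈ lk H W a := mem_lk.2 ⟨hb, hab⟩
      rw [← this] at hb'
      exact hbT (mem_lk.1 hb').1

theorem Q.join {d₁ d₂ : ℕ} {A B : Finset α} (hA : Q H d₁ A) (hB : Q H d₂ B)
    (hAB : Full H A B) : Q H (d₁ + d₂) (A ∪ B) := by
  induction hn : d₁ + d₂ generalizing d₁ d₂ A B with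
  | zero =>
    obtain ⟨rfl, rfl⟩ : d₁ = 0 ∧ d₂ = 0 := by omega
    have h1 : A = ∅ := hA
    have h2 : B = ∅ := hB
    change A ∪ B = ∅
    rw [h1, h2]; rfl
  | succ n ih =>
    rcases d₁ with _ | d₁
    · have h1 : A = ∅ := hA
      obtain rfl : d₂ = n + 1 := by omega
      rw [h1, Finset.empty_union]; exact hB
    rcases d₂ with _ | d₂
    · have h1 : B = ∅ := hB
      obtain rfl : d₁ = n := by omega
      rw [h1, Finset.union_empty]; exact hA
    obtain rfl : n = d₁ + d₂ + 1 := by omega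
    refine ⟨hA.nonempty.mono Finset.subset_union_left, fun v hv => ?_⟩
    rcases Finset.mem_union.1 hv with hv | hv
    · rw [hAB.lk_left hv]
      exact ih (hA.lk hv) hB (hAB.mono lk_subset (Finset.Subset.refl _)) (by omega)
    · rw [hAB.lk_right hv]
      exact ih hA (hB.lk hv) (hAB.mono (Finset.Subset.refl _) lk_subset) (by omega)

theorem NP.split {d : ℕ} {A B : Finset α} (hAB : Full H A B) (h : NP H d (A ∪ B)) :
    ∃ d₁ d₂, d₁ + d₂ = d ∧ NP H d₁ A ∧ NP H d₂ B := by
  induction d generalizing A B with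
  | zero =>
    have h1 : A ∪ B = ∅ := h
    rw [Finset.union_eq_empty] at h1
    exact ⟨0, 0, rfl, h1.1, h1.2⟩
  | succ d ih =>
    rcases A.eq_empty_or_nonempty with rfl | ⟨a, ha⟩
    · exact ⟨0, d + 1, by omega, rfl, by rwa [Finset.empty_union] at h⟩
    rcases B.eq_empty_or_nonempty with rfl | ⟨b, hb⟩
    · exact ⟨d + 1, 0, by omega, by rwa [Finset.union_empty] at h, rfl⟩
    have h1 := h.lk (Finset.mem_union_left B ha)
    rw [hAB.lk_left ha] at h1
    obtain ⟨d₁, d₂, hd, hd₁, hd₂⟩ := ih (hAB.mono lk_subset (Finset.Subset.refl _)) h1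
    have h2 := h.lk (Finset.mem_union_right A hb)
    rw [hAB.lk_right hb] at h2
    obtain ⟨e₁, e₂, he, he₁, he₂⟩ := ih (hAB.mono (Finset.Subset.refl _) lk_subset) h2
    obtain ⟨e, rfl, he3⟩ := he₁.lk' ha
    have := he3.rank_unique hd₁
    subst this
    exact ⟨e + 1, d₂, by omega, he₁, hd₂⟩

theorem not_NP_singleton {d : ℕ} {v : α} : ¬ NP H d {v} := by
  intro h
  obtain ⟨e, rfl, he⟩ := h.lk' (Finset.mem_singleton_self v)
  have h0 : FS.lk H {v} v = ∅ := by
    apply Finset.eq_empty_of_forall_notMem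
    intro x hx
    rw [mem_lk, Finset.mem_singleton] at hx
    exact hx.2.ne hx.1.symm
  rw [h0] at he
  rcases e with _ | e
  · have h' : ({v} : Finset α).card = 2 ∧ ∀ x ∈ ({v} : Finset α), ∀ y ∈ ({v} : Finset α),
      ¬ H.Adj x y := h
    simp at h'
  · exact absurd he.nonempty Finset.not_nonempty_empty

/-- no vertex is a cone point -/
theorem NP.exists_nonadj {d : ℕ} {W : Finset α} (h : NP H d W) {v : α} (hv : v ∈ W) :
    ∃ u ∈ W, u ≠ v ∧ ¬ H.Adj v u := by
  by_contra hc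
  push Not at hc
  have hf : Full H {v} (W.erase v) := by
    intro a ha b hb
    rw [Finset.mem_singleton] at ha
    rw [ha]
    exact hc b (Finset.mem_of_mem_erase hb) (Finset.ne_of_mem_erase hb)
  have hW : {v} ∪ W.erase v = W := by
    rw [← Finset.insert_eq, Finset.insert_erase hv]
  rw [← hW] at h
  obtain ⟨d₁, d₂, -, h1, -⟩ := h.split hf
  exact not_NP_singleton h1

/-! ### Prime complexes -/

theorem Prm.insert {C : Finset α} (hC : Prm H C) {c x : α} (hc : c ∈ C) (hx : x ∉ C)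
    (hcx : ¬ H.Adj c x) : Prm H (insert x C) := by
  refine ⟨Finset.insert_nonempty x C, fun A hA hne hneq => ?_⟩
  rcases (A ∩ C).eq_empty_or_nonempty with h0 | h0
  · obtain ⟨a, ha⟩ := hne
    have haC : a ∉ C := fun h => by
      have : a ∈ A ∩ C := Finset.mem_inter.2 ⟨ha, h⟩
      rw [h0] at this
      exact absurd this (Finset.notMem_empty a)
    have hax : a = x := by
      rcases Finset.mem_insert.1 (hA ha) with h | h
      · exact h
      · exact absurd h haC
    subst hax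
    refine ⟨a, ha, c, Finset.mem_insert_of_mem hc, fun h => ?_, fun h => hcx h.symm⟩
    have : c ∈ A ∩ C := Finset.mem_inter.2 ⟨h, hc⟩
    rw [h0] at this
    exact absurd this (Finset.notMem_empty c)
  · by_cases h1 : A ∩ C = C
    · have hCA : C ⊆ A := fun z hz => by
        rw [← h1] at hz
        exact (Finset.mem_inter.1 hz).1
      have hxA : x ∉ A := fun h => hneq (by
        apply Finset.Subset.antisymm hA
        intro z hz
        rcases Finset.mem_insert.1 hz with h2 | h2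
        · rwa [h2]
        · exact hCA h2)
      exact ⟨c, hCA hc, x, Finset.mem_insert_self x C, hxA, hcx⟩
    · obtain ⟨a, ha, b, hb, hbn, hab⟩ := hC.2 (A ∩ C) Finset.inter_subset_right h0 h1
      exact ⟨a, (Finset.mem_inter.1 ha).1, b, Finset.mem_insert_of_mem hb,
        fun h => hbn (Finset.mem_inter.2 ⟨h, hb⟩), hab⟩

theorem Prm.singleton (x : α) : Prm H {x} := by
  refine ⟨Finset.singleton_nonempty x, fun A hA hne hneq => ?_⟩
  rcases Finset.subset_singleton_iff.1 hA with h | h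
  · rw [h] at hne; exact absurd hne Finset.not_nonempty_empty
  · exact absurd h hneq

/-- a prime complex of rank at least two has a vertex with a prime link -/
theorem exists_prime_link {d : ℕ} {W : Finset α} (h : NP H (d + 2) W) (hp : Prm H W) :
    ∃ v ∈ W, Prm H (lk H W v) := by
  classical
  by_contra hcon
  push Not at hcon
  let 𝒞 : Finset (Finset α) := W.powerset.filter (fun C => Prm H C ∧ ∃ v ∈ W, C ⊆ lk H W v)
  have h𝒞 : 𝒞.Nonempty := by
    obtain ⟨v, hv⟩ := h.nonempty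
    obtain ⟨x, hx⟩ := (h.lk hv).nonempty
    refine ⟨{x}, Finset.mem_filter.2 ⟨Finset.mem_powerset.2 ?_, Prm.singleton x, v, hv, ?_⟩⟩
    · exact Finset.singleton_subset_iff.2 (lk_subset hx)
    · exact Finset.singleton_subset_iff.2 hx
  obtain ⟨C, hC𝒞, hmax⟩ := Finset.exists_max_image 𝒞 Finset.card h𝒞
  obtain ⟨hCW, hCp, v, hv, hCv⟩ := Finset.mem_filter.1 hC𝒞
  rw [Finset.mem_powerset] at hCW
  let Z : Finset α := W.filter (fun z => C ⊆ lk H W z)
  have hvZ : v ∈ Z := Finset.mem_filter.2 ⟨hv, hCv⟩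
  have hfull : Full H C Z := by
    intro c hc z hz
    exact (mem_lk.1 ((Finset.mem_filter.1 hz).2 hc)).2.symm
  have hclosed : ∀ z ∈ Z, ∀ x ∈ lk H W z, x ∉ C → x ∈ Z := by
    intro z hz x hx hxC
    have hadj : ∀ c ∈ C, H.Adj c x := by
      intro c hc
      by_contra hcx
      have hins := hCp.insert hc hxC hcx
      have hmem : insert x C ∈ 𝒞 := by
        refine Finset.mem_filter.2 ⟨Finset.mem_powerset.2 ?_, hins, z, (Finset.mem_filter.1 hz).1,
          ?_⟩
        · exact Finset.insert_subset (lk_subset hx) hCW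
        · exact Finset.insert_subset hx (Finset.mem_filter.1 hz).2
      have := hmax _ hmem
      rw [Finset.card_insert_of_notMem hxC] at this
      omega
    exact Finset.mem_filter.2 ⟨lk_subset hx, fun c hc => mem_lk.2 ⟨hCW hc, (hadj c hc).symm⟩⟩
  have hlk : ∀ z ∈ Z, lk H W z = C ∪ lk H Z z := by
    intro z hz
    ext x
    rw [Finset.mem_union]
    constructor
    · intro hx
      by_cases hxC : x ∈ C
      · exact Or.inl hxC
      · exact Or.inr (mem_lk.2 ⟨hclosed z hz x hx hxC, (mem_lk.1 hx).2⟩)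
    · rintro (hx | hx)
      · exact (Finset.mem_filter.1 hz).2 hx
      · exact mem_lk.2 ⟨(Finset.mem_filter.1 (mem_lk.1 hx).1).1, (mem_lk.1 hx).2⟩
  have hsp : ∀ z ∈ Z, ∃ d₁ d₂, d₁ + d₂ = d + 1 ∧ NP H d₁ C ∧ NP H d₂ (lk H Z z) := by
    intro z hz
    have h1 := h.lk (Finset.mem_filter.1 hz).1
    rw [hlk z hz] at h1
    exact h1.split (hfull.mono (Finset.Subset.refl _) lk_subset)
  obtain ⟨d₁, d₂, hd, hd₁, hd₂⟩ := hsp v hvZ
  rcases d₂ with _ | e
  · have h0 : lk H Z v = ∅ := hd₂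
    apply hcon v hv
    rw [hlk v hvZ, h0, Finset.union_empty]
    exact hCp
  have hqZ : Q H (e + 2) Z := by
    refine ⟨⟨v, hvZ⟩, fun z hz => ?_⟩
    obtain ⟨d₁', d₂', hd', hd₁', hd₂'⟩ := hsp z hz
    have h1 := hd₁'.rank_unique hd₁
    obtain rfl : d₂' = e + 1 := by omega
    exact hd₂'.q
  have hq := hd₁.q.join hqZ hfull
  have hde : d₁ + (e + 2) = d + 2 := by omega
  rw [hde] at hq
  have hCZ : C ∪ Z = W := closed_eq h (Finset.union_subset hCW (Finset.filter_subset _ _)) hq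
  have hvC : v ∉ C := fun hvC => not_mem_lk_self (hCv hvC)
  obtain ⟨a, ha, b, hb, hbC, hab⟩ := hp.2 C hCW hCp.1 (fun hEq => hvC (hEq ▸ hv))
  rw [← hCZ, Finset.mem_union] at hb
  rcases hb with hb | hb
  · exact hbC hb
  · exact hab (hfull a ha b hb)

/-- non-neighbours of `v` other than `v` -/
noncomputable def nn (H : SimpleGraph α) (W : Finset α) (v : α) : Finset α :=
  (W.erase v) \ lk H W v

theorem mem_nn {W : Finset α} {v x : α} : x ∈ nn H W v ↔ x ∈ W ∧ x ≠ v ∧ ¬ H.Adj v x := by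
  rw [nn, Finset.mem_sdiff, Finset.mem_erase, mem_lk]
  constructor
  · rintro ⟨⟨h1, h2⟩, h3⟩
    exact ⟨h2, h1, fun h4 => h3 ⟨h2, h4⟩⟩
  · rintro ⟨h1, h2, h3⟩
    exact ⟨⟨h2, h1⟩, fun h4 => h3 h4.2⟩

theorem card_eq_lk_nn {W : Finset α} {v : α} (hv : v ∈ W) :
    W.card = (lk H W v).card + (nn H W v).card + 1 := by
  have hsub : lk H W v ⊆ W.erase v := by
    intro x hx
    exact Finset.mem_erase.2 ⟨fun h => not_mem_lk_self (h ▸ hx), lk_subset hx⟩
  have h1 := Finset.card_sdiff_of_subset hsub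
  have h2 := Finset.card_le_card hsub
  have h3 := Finset.card_erase_of_mem hv
  have h4 : 0 < W.card := Finset.card_pos.2 ⟨v, hv⟩
  rw [nn]
  omega

theorem NP.nn_nonempty {d : ℕ} {W : Finset α} (h : NP H d W) {v : α} (hv : v ∈ W) :
    (nn H W v).Nonempty := by
  obtain ⟨u, h1, h2, h3⟩ := h.exists_nonadj hv
  exact ⟨u, mem_nn.2 ⟨h1, h2, h3⟩⟩

/-- in a prime complex of rank at least two every vertex has at least two non-neighbours -/
theorem Prm.two_le_nn {d : ℕ} {W : Finset α} (h : NP H (d + 2) W) (hp : Prm H W) {v : α}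
    (hv : v ∈ W) : 2 ≤ (nn H W v).card := by
  by_contra hcon
  have h1 : (nn H W v).card = 1 := by
    have := Finset.card_pos.2 (h.nn_nonempty hv)
    omega
  obtain ⟨u, hu⟩ := Finset.card_eq_one.1 h1
  have huM : u ∈ nn H W v := by rw [hu]; exact Finset.mem_singleton_self u
  obtain ⟨huW, huv, huadj⟩ := mem_nn.1 huM
  have hux : ∀ x ∈ lk H W v, H.Adj x u := by
    intro x hx
    have hvx : v ∈ lk H W x := mem_lk.2 ⟨hv, (mem_lk.1 hx).2.symm⟩
    obtain ⟨u', h1, h2, h3⟩ := (h.lk (lk_subset hx)).exists_nonadj hvx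
    have : u' ∈ nn H W v := mem_nn.2 ⟨lk_subset h1, h2, h3⟩
    rw [hu, Finset.mem_singleton] at this
    rw [← this]
    exact (mem_lk.1 h1).2
  obtain ⟨z, hz⟩ := (h.lk hv).nonempty
  have hsub : ({u, v} : Finset α) ⊆ W := by
    intro x hx
    rcases Finset.mem_insert.1 hx with h | h
    · rwa [h]
    · rw [Finset.mem_singleton.1 h]; exact hv
  have hzuv : z ∉ ({u, v} : Finset α) := by
    intro hz'
    rcases Finset.mem_insert.1 hz' with h | h
    · rw [h] at hz
      exact huadj (mem_lk.1 hz).2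
    · rw [Finset.mem_singleton.1 h] at hz
      exact not_mem_lk_self hz
  obtain ⟨a, ha, b, hb, hbn, hab⟩ := hp.2 {u, v} hsub ⟨u, Finset.mem_insert_self _ _⟩
    (fun h => hzuv (h ▸ lk_subset hz))
  have hbv : b ∈ lk H W v := by
    by_contra hb'
    have : b ∈ nn H W v := mem_nn.2 ⟨hb, fun h => hbn (by rw [h]; simp), fun h =>
      hb' (mem_lk.2 ⟨hb, h⟩)⟩
    rw [hu, Finset.mem_singleton] at this
    exact hbn (by rw [this]; simp)
  rcases Finset.mem_insert.1 ha with h | h
  · rw [h] at hab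
    exact hab (hux b hbv).symm
  · rw [Finset.mem_singleton.1 h] at hab
    exact hab (mem_lk.1 hbv).2

/-- **a prime flag normal pseudomanifold of rank `r ≥ 1` has at least `3 r - 1` vertices** -/
theorem Prm.three_mul_le {d : ℕ} {W : Finset α} (h : NP H (d + 1) W) (hp : Prm H W) :
    3 * (d + 1) ≤ W.card + 1 := by
  induction d generalizing W with
  | zero =>
    have h' : W.card = 2 ∧ ∀ x ∈ W, ∀ y ∈ W, ¬ H.Adj x y := h
    omega
  | succ d ih =>
    obtain ⟨v, hv, hpv⟩ := exists_prime_link h hp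
    have h1 := ih (h.lk hv) hpv
    have h2 := Prm.two_le_nn h hp hv
    have h3 := card_eq_lk_nn (H := H) hv
    omega

end Pool.Agent.W497.FS
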