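import Pool.Agent.H87.L.W497_FS_Small

set_option autoImplicit false
set_option linter.unusedSectionVars false
set_option linter.unusedVariables false

/-! # Gal's conjecture for `γ₁ ≤ 6`, Charney-Davis for at most `5 n + 3` vertices -/

namespace Pool.Agent.W497.FS

open Polynomial

variable {α : Type} {H : SimpleGraph α} [DecidableEq α]

/-- rank four, at most fourteen vertices, prime or not -/
theorem gal_four' (hF : StmF) (hF2 : StmF2) {d : ℕ} {W : Finset α} (h : NP H d W)
    (hE : Eul H d W) (hd : d ≤ 4) (hN : W.card + 4 * 2 ≤ 14 + 2 * d) : FP H W ∈ GT ⊤ d := by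
  revert hd hN
  refine join_induction' (H := H) (P := fun d W => d ≤ 4 → W.card + 4 * 2 ≤ 14 + 2 * d →
    FP H W ∈ GT ⊤ d) ?_ ?_ ?_ h hE
  · intro _ _
    rw [FP_empty]
    exact one_mem_GT _
  · intro d W h hE hp _ hd hN
    rcases Nat.lt_or_ge (d + 1) 4 with h4 | h4
    · exact GT_of_lt (t := 2) (by omega) ⊤ (FP_mem_two h hE)
    · obtain rfl : d = 3 := by omega
      exact gal_four hF hF2 h hE (by omega) hp
  · intro d₁ d₂ A B hA hB _ _ _ hAB h1 h2 hd hN
    rw [Finset.card_union_of_disjoint hAB.disjoint] at hN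
    have k1 := hA.two_mul_le
    have k2 := hB.two_mul_le
    rw [FP_join hAB]
    exact GT_mul (h1 (by omega) (by omega)) (h2 (by omega) (by omega))

/-- rank five, at most sixteen vertices -/
theorem gal_five (hF : StmF) (hF2 : StmF2) {W : Finset α} (h : NP H 5 W) (hE : Eul H 5 W)
    (hN : W.card ≤ 16) (hp : Prm H W) : FP H W ∈ GT ⊤ 5 := by
  by_cases hex : ∃ v ∈ W, (nn H W v).card ≤ 3
  · obtain ⟨v, hv, hm⟩ := hex
    rw [FP_vertex hE hv]
    have h2 := Prm.two_le_nn h hp hv
    have h3 := card_eq_lk_nn (H := H) hv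
    refine add_mem (GT_y (gal_four' hF hF2 (h.lk hv) (hE.lk_succ hv) le_rfl (by omega))) ?_
    have h4 := GT_w (Bk_mem_two h hE hm)
    have h23 : (2 : ℕ∞) + 1 = ((3 : ℕ) : ℕ∞) := by norm_num
    rw [h23] at h4
    exact GT_of_lt (t := 3) (by norm_num) ⊤ h4
  · push Not at hex
    refine GT_improve_odd (n := 2) (t := 2) le_rfl (FP_mem_two h hE) ?_
    rw [aeval_derivative_FP, Finset.mul_sum]
    refine Finset.sum_nonneg (fun u hu => ?_)
    have h3 := card_eq_lk_nn (H := H) hu
    have h4 := hex u hu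
    exact lam_nonneg_of_GT (n := 2) (gal_four' hF hF2 (h.lk hu) (hE.lk_succ hu) le_rfl (by omega))

/-- **Gal's conjecture for at most `2 d + 6` vertices** -/
theorem gal_few (hF : StmF) (hF2 : StmF2) {d : ℕ} {W : Finset α} (h : NP H d W)
    (hE : Eul H d W) (hN : W.card ≤ 2 * d + 6) : FP H W ∈ GT ⊤ d := by
  revert hN
  refine join_induction' (H := H) (P := fun d W => W.card ≤ 2 * d + 6 →
    FP H W ∈ GT ⊤ d) ?_ ?_ ?_ h hE
  · intro _
    rw [FP_empty]
    exact one_mem_GT _
  · intro d W h hE hp _ hN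
    have h3 := Prm.three_mul_le h hp
    have hd : d + 1 ≤ 7 := by omega
    rcases Nat.lt_or_ge (d + 1) 6 with h6 | h6
    · rcases Nat.lt_or_ge (d + 1) 5 with h5 | h5
      · exact gal_four' hF hF2 h hE (by omega) (by omega)
      · obtain rfl : d = 4 := by omega
        exact gal_five hF hF2 h hE (by omega) hp
    · refine gal_defect_one h hE ?_ hd
      rw [comps_prm hp, Finset.card_singleton]
      omega
  · intro d₁ d₂ A B hA hB _ _ _ hAB h1 h2 hN
    rw [Finset.card_union_of_disjoint hAB.disjoint] at hN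
    have k1 := hA.two_mul_le
    have k2 := hB.two_mul_le
    rw [FP_join hAB]
    exact GT_mul (h1 (by omega)) (h2 (by omega))

/-- **Charney-Davis for at most `5 n + 3` vertices** -/
theorem cd_few (hF : StmF) (hF2 : StmF2) {d : ℕ} {W : Finset α} (h : NP H d W)
    (hE : Eul H d W) (n : ℕ) (hn : d = 2 * n) (hN : W.card ≤ 5 * n + 3) :
    0 ≤ (-1) ^ n * lam H W := by
  refine join_induction' (H := H) (P := fun d W => ∀ (n : ℕ) (_ : d = 2 * n),
    W.card ≤ 5 * n + 3 → 0 ≤ (-1) ^ n * lam H W) ?_ ?_ ?_ h hE n hn hN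
  · intro n hn _
    obtain rfl : n = 0 := by omega
    rw [lam_empty]; norm_num
  · intro d W h hE hp ih n hn hN
    have h3 := Prm.three_mul_le h hp
    have hn4 : n ≤ 4 := by omega
    rcases Nat.lt_or_ge n 3 with h2 | h2
    · have := gal_few hF hF2 h hE (by omega)
      rw [hn] at this
      exact lam_nonneg_of_GT this
    · refine cd_defect_one h hE ?_ n hn
      rw [comps_prm hp, Finset.card_singleton]
      omega
  · intro d₁ d₂ A B hA hB eA eB _ hAB h1 h2 n hn hN
    rw [Finset.card_union_of_disjoint hAB.disjoint] at hN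
    rw [lam_join hAB]
    rcases Nat.even_or_odd (d₁ + 1) with ho | ho
    · obtain ⟨a, ha⟩ := ho
      obtain ⟨b, hb⟩ : ∃ b, d₂ + 1 = 2 * b := ⟨n - a, by omega⟩
      have ha' : d₁ + 1 = 2 * a := by omega
      have hnab : n = a + b := by omega
      rw [ha'] at hA eA
      rw [hb] at hB eB
      rcases Nat.lt_or_ge A.card (5 * a) with hl | hl
      · rw [(lam_few hA eA).1 hl, zero_mul, mul_zero]
      rcases Nat.lt_or_ge B.card (5 * b) with hl' | hl'
      · rw [(lam_few hB eB).1 hl', mul_zero, mul_zero]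
      have p1 := h1 a ha' (by omega)
      have p2 := h2 b hb (by omega)
      rw [hnab, pow_add]
      have := mul_nonneg p1 p2
      calc (0 : ℚ) ≤ _ := this
        _ = _ := by ring
    · rw [lam_odd eA ho, zero_mul, mul_zero]

end Pool.Agent.W497.FS
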