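import Pool.Agent.H87.L.W497_FS_Stms3

set_option autoImplicit false

/-! # FS-DEL: a flag normal pseudomanifold minus a vertex is connected -/

namespace Pool.Agent.W605.FS.Del

open Pool.Agent.W497.FS

/-- the number of ordered adjacent pairs is even -/
theorem even_darts {α : Type} [DecidableEq α] (H : SimpleGraph α) (A : Finset α) :
    Even (∑ z ∈ A, (lk H A z).card) := by
  classical
  rw [← ZMod.natCast_eq_zero_iff_even, Nat.cast_sum]
  have h1 : ∀ z ∈ A, (((lk H A z).card : ℕ) : ZMod 2)
      = ∑ w ∈ A, if H.Adj z w then (1 : ZMod 2) else 0 := by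
    intro z _
    rw [lk, Finset.card_filter, Nat.cast_sum]
    apply Finset.sum_congr rfl
    intro w _
    split_ifs <;> simp
  rw [Finset.sum_congr rfl h1, ← Finset.sum_product']
  apply Finset.sum_involution (fun x _ => (x.2, x.1))
  · rintro ⟨a, b⟩ _
    dsimp only
    by_cases hab : H.Adj a b
    · rw [if_pos hab, if_pos hab.symm]
      decide
    · rw [if_neg hab, if_neg (fun h => hab h.symm)]
      simp
  · rintro ⟨a, b⟩ _ hf heq
    dsimp only at hf heq
    have hab : H.Adj a b := by
      by_contra h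
      rw [if_neg h] at hf
      exact hf rfl
    have : b = a := congrArg Prod.fst heq
    exact hab.ne this.symm
  · rintro ⟨a, b⟩ hm
    rw [Finset.mem_product] at hm ⊢
    exact ⟨hm.2, hm.1⟩
  · rintro ⟨a, b⟩ _
    rfl

theorem main : Pool.Agent.W497.FS.StmDel := by
  intro α _ H r X c hX hc A hA hne hneq
  classical
  by_contra hcon
  have hcon' : ∀ a ∈ A, ∀ b ∈ X.erase c, b ∉ A → ¬ H.Adj a b := by
    intro a ha b hb hbA hab
    exact hcon ⟨a, ha, b, hb, hbA, hab⟩
  have hAX : A ⊆ X := hA.trans (Finset.erase_subset _ _)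
  have hcA : c ∉ A := fun h => Finset.notMem_erase c X (hA h)
  obtain ⟨-, hconn, hlk⟩ := hX
  -- a vertex of `A` adjacent to `c`
  obtain ⟨p, hpA, hpc⟩ : ∃ p ∈ A, H.Adj p c := by
    obtain ⟨a, ha, b, hb, hbA, hab⟩ := hconn A hAX hne (fun h => hcA (h ▸ hc))
    by_cases hbc : b = c
    · exact ⟨a, ha, hbc ▸ hab⟩
    · exact absurd hab (hcon' a ha b (Finset.mem_erase.2 ⟨hbc, hb⟩) hbA)
  -- a vertex outside adjacent to `c`
  obtain ⟨q, hqX, hqA, hqc⟩ : ∃ q ∈ X.erase c, q ∉ A ∧ H.Adj q c := by
    have hBne : (X.erase c \ A).Nonempty := by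
      rw [Finset.sdiff_nonempty]
      exact fun h => hneq (Finset.Subset.antisymm hA h)
    have hBX : X.erase c \ A ⊆ X := Finset.sdiff_subset.trans (Finset.erase_subset _ _)
    have hBneq : X.erase c \ A ≠ X := by
      intro h
      have : c ∈ X.erase c \ A := by rw [h]; exact hc
      exact Finset.notMem_erase c X (Finset.mem_sdiff.1 this).1
    obtain ⟨a, ha, b, hb, hbB, hab⟩ := hconn _ hBX hBne hBneq
    rw [Finset.mem_sdiff] at ha
    by_cases hbc : b = c
    · exact ⟨a, ha.1, ha.2, hbc ▸ hab⟩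
    · have hbA : b ∈ A := by
        by_contra h
        exact hbB (Finset.mem_sdiff.2 ⟨Finset.mem_erase.2 ⟨hbc, hb⟩, h⟩)
      exact absurd hab.symm (hcon' b hbA a ha.1 ha.2)
  have hpX : p ∈ lk H X c := mem_lk.2 ⟨hAX hpA, hpc.symm⟩
  have hqX' : q ∈ lk H X c := mem_lk.2 ⟨Finset.mem_of_mem_erase hqX, hqc.symm⟩
  rcases r with _ | r
  · -- rank two: parity
    have hcard : ∀ v ∈ X, (lk H X v).card = 2 := by
      intro v hv
      have h1 : (lk H X v).card = 2 ∧ ∀ x ∈ lk H X v, ∀ y ∈ lk H X v, ¬ H.Adj x y := hlk v hv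
      exact h1.1
    have hpq : p ≠ q := fun h => hqA (h ▸ hpA)
    have hlkc : lk H X c = {p, q} := by
      symm
      apply Finset.eq_of_subset_of_card_le
      · intro x hx
        rcases Finset.mem_insert.1 hx with h | h
        · rw [h]; exact hpX
        · rw [Finset.mem_singleton.1 h]; exact hqX'
      · rw [hcard c hc, Finset.card_pair hpq]
    have hz : ∀ z ∈ A, z ≠ p → (lk H A z).card = 2 := by
      intro z hzA hzp
      rw [← hcard z (hAX hzA)]
      congr 1
      apply Finset.Subset.antisymm (lk_mono hAX z)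
      intro x hx
      rw [mem_lk] at hx ⊢
      refine ⟨?_, hx.2⟩
      by_contra hxA
      by_cases hxc : x = c
      · have : z ∈ lk H X c := mem_lk.2 ⟨hAX hzA, by rw [← hxc]; exact hx.2.symm⟩
        rw [hlkc, Finset.mem_insert, Finset.mem_singleton] at this
        rcases this with h | h
        · exact hzp h
        · exact hqA (h ▸ hzA)
      · exact hcon' z hzA x (Finset.mem_erase.2 ⟨hxc, hx.1⟩) hxA hx.2
    have hp1 : (lk H A p).card = 1 := by
      have h1 : lk H X p = insert c (lk H A p) := by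
        ext x
        rw [Finset.mem_insert, mem_lk, mem_lk]
        constructor
        · rintro ⟨h1, h2⟩
          by_cases hxc : x = c
          · exact Or.inl hxc
          · right
            refine ⟨?_, h2⟩
            by_contra hxA
            exact hcon' p hpA x (Finset.mem_erase.2 ⟨hxc, h1⟩) hxA h2
        · rintro (h | ⟨h1, h2⟩)
          · rw [h]; exact ⟨hc, hpc⟩
          · exact ⟨hAX h1, h2⟩
      have h2 := hcard p (hAX hpA)
      have h3 : c ∉ lk H A p := fun h => hcA (lk_subset h)
      rw [h1, Finset.card_insert_of_notMem h3] at h2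
      omega
    have hev := even_darts H A
    rw [← Finset.add_sum_erase _ _ hpA, hp1] at hev
    have h4 : ∑ z ∈ A.erase p, (lk H A z).card = (A.erase p).card * 2 := by
      rw [Finset.sum_congr rfl (fun z hz' => hz z (Finset.mem_of_mem_erase hz')
        (Finset.ne_of_mem_erase hz')), Finset.sum_const, smul_eq_mul]
    rw [h4] at hev
    obtain ⟨m, hm⟩ := hev
    omega
  · -- rank at least three: the link of `c` is connected
    have h1 : (lk H X c).Nonempty ∧ SConn H (lk H X c) ∧
        ∀ v ∈ lk H X c, NP H (r + 1) (lk H (lk H X c) v) := hlk c hc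
    obtain ⟨a, ha, b, hb, hbA, hab⟩ := h1.2.1 (A ∩ lk H X c) Finset.inter_subset_right
      ⟨p, Finset.mem_inter.2 ⟨hpA, hpX⟩⟩ (fun h => by
        have : q ∈ A ∩ lk H X c := by rw [h]; exact hqX'
        exact hqA (Finset.mem_inter.1 this).1)
    have hb' := mem_lk.1 hb
    exact hcon' a (Finset.mem_inter.1 ha).1 b (Finset.mem_erase.2 ⟨hb'.2.ne', hb'.1⟩)
      (fun h => hbA (Finset.mem_inter.2 ⟨h, hb⟩)) hab

end Pool.Agent.W605.FS.Del
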