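import Pool.Agent.H87.L.W497_FS_Defs

/-!
# Rank 4 rigidity of flag pseudomanifolds (part FS-F of helper497's project FS)
-/

set_option autoImplicit false

namespace Pool.Agent.W933.FS

open Pool.Agent.W497.FS

variable {α : Type*} {H : SimpleGraph α}

theorem mem_lk {W : Finset α} {v x : α} : x ∈ lk H W v ↔ x ∈ W ∧ H.Adj v x := by
  classical
  simp [lk]

/-- closed sets of rank `d` -/
def Closed (H : SimpleGraph α) : ℕ → Finset α → Prop
  | 0, _ => True
  | 1, T => 2 ≤ T.card
  | (d + 2), T => T.Nonempty ∧ ∀ v ∈ T, Closed H (d + 1) (lk H T v)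

theorem closed_eq : ∀ (d : ℕ) (W T : Finset α), NP H d W → T ⊆ W → Closed H d T → T = W
  | 0, W, T, hW, hT, _ => by
    simp only [NP] at hW
    subst hW
    exact Finset.subset_empty.1 hT
  | 1, W, T, hW, hT, hc => by
    simp only [NP] at hW
    simp only [Closed] at hc
    exact Finset.eq_of_subset_of_card_le hT (by omega)
  | (d + 2), W, T, hW, hT, hc => by
    simp only [NP] at hW
    simp only [Closed] at hc
    by_contra hne
    obtain ⟨a, ha, b, hb, hbT, hab⟩ := hW.2.1 T hT hc.1 hne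
    have h1 : lk H T a ⊆ lk H W a := by
      intro x hx
      rw [mem_lk] at hx ⊢
      exact ⟨hT hx.1, hx.2⟩
    have h2 := closed_eq (d + 1) (lk H W a) (lk H T a) (hW.2.2 a (hT ha)) h1 (hc.2 a ha)
    have h3 : b ∈ lk H W a := mem_lk.2 ⟨hb, hab⟩
    rw [← h2, mem_lk] at h3
    exact hbT h3.1

/-- cross-polytopes: every element has exactly one non-neighbour -/
def CP (H : SimpleGraph α) (T : Finset α) : Prop :=
  ∀ x ∈ T, ∃ y ∈ T, y ≠ x ∧ ¬ H.Adj x y ∧ ∀ z ∈ T, z ≠ x → ¬ H.Adj x z → z = y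

theorem CP.adj {T : Finset α} (h : CP H T) {x y z : α} (hx : x ∈ T) (hy : y ∈ T) (hz : z ∈ T)
    (hyx : y ≠ x) (hn : ¬ H.Adj x y) (hzx : z ≠ x) (hzy : z ≠ y) : H.Adj x z := by
  obtain ⟨w, _, _, _, hw⟩ := h x hx
  by_contra hc
  exact hzy ((hw z hz hzx hc).trans (hw y hy hyx hn).symm)

theorem CP.lk {T : Finset α} (h : CP H T) {v : α} (hv : v ∈ T) : CP H (lk H T v) := by
  intro x hx
  rw [mem_lk] at hx
  obtain ⟨y, hy, hyx, hn, hu⟩ := h x hx.1
  refine ⟨y, ?_, hyx, hn, ?_⟩
  · rw [mem_lk]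
    refine ⟨hy, ?_⟩
    by_contra hc
    have hyv : y ≠ v := by
      rintro rfl
      exact hn hx.2.symm
    -- y has the non-neighbours x and v
    have hxv : v ≠ x := hx.2.ne
    have := h.adj hy hv hx.1 (Ne.symm hyv) (fun h' => hc h'.symm) (Ne.symm hyx) (Ne.symm hxv)
    exact hn this.symm
  · intro z hz
    rw [mem_lk] at hz
    exact hu z hz.1

theorem CP.card_lk {T : Finset α} (h : CP H T) {v : α} (hv : v ∈ T) :
    (Pool.Agent.W497.FS.lk H T v).card + 2 = T.card := by
  classical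
  obtain ⟨y, hy, hyv, hn, hu⟩ := h v hv
  have e : Pool.Agent.W497.FS.lk H T v = (T.erase v).erase y := by
    ext z
    rw [mem_lk, Finset.mem_erase, Finset.mem_erase]
    constructor
    · rintro ⟨h1, h2⟩
      refine ⟨?_, h2.ne', h1⟩
      rintro rfl
      exact hn h2
    · rintro ⟨h1, h2, h3⟩
      refine ⟨h3, ?_⟩
      by_contra hc
      exact h1 (hu z h3 h2 hc)
  rw [e, Finset.card_erase_of_mem (Finset.mem_erase.2 ⟨hyv, hy⟩), Finset.card_erase_of_mem hv]
  have : 2 ≤ T.card := by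
    have h2 : ({v, y} : Finset α) ⊆ T := by
      intro z hz
      simp only [Finset.mem_insert, Finset.mem_singleton] at hz
      rcases hz with rfl | rfl <;> assumption
    have := Finset.card_le_card h2
    rwa [Finset.card_pair (Ne.symm hyv)] at this
  omega

theorem CP.closed : ∀ (d : ℕ) (T : Finset α), CP H T → T.card = 2 * d → Closed H d T
  | 0, _, _, _ => trivial
  | 1, T, _, hc => by
    simp only [Closed]
    omega
  | (d + 2), T, h, hc => by
    refine ⟨Finset.card_pos.1 (by omega), ?_⟩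
    intro v hv
    refine CP.closed (d + 1) _ (h.lk hv) ?_
    have := h.card_lk hv
    omega

theorem CP.eq {d : ℕ} {W T : Finset α} (hW : NP H d W) (hT : T ⊆ W) (h : CP H T)
    (hc : T.card = 2 * d) : T = W :=
  closed_eq d W T hW hT (h.closed d T hc)

theorem cp_two {X : Finset α} (hX : NP H 2 X) (hc : X.card = 4) : CP H X := by
  classical
  intro x hx
  simp only [NP] at hX
  have h1 := (hX.2.2 x hx).1
  have h2 : ((X.erase x).filter (fun z => ¬ H.Adj x z)).card = 1 := by
    have h3 := Finset.card_filter_add_card_filter_not (s := X.erase x) (fun z => H.Adj x z)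
    have h4 : (X.erase x).filter (fun z => H.Adj x z) = lk H X x := by
      ext z
      rw [mem_lk, Finset.mem_filter, Finset.mem_erase]
      constructor
      · rintro ⟨⟨_, h1⟩, h2⟩; exact ⟨h1, h2⟩
      · rintro ⟨h1, h2⟩; exact ⟨⟨h2.ne', h1⟩, h2⟩
    rw [h4, h1, Finset.card_erase_of_mem hx, hc] at h3
    omega
  obtain ⟨y, hy⟩ := Finset.card_eq_one.1 h2
  have hy' : y ∈ (X.erase x).filter (fun z => ¬ H.Adj x z) := by rw [hy]; simp
  rw [Finset.mem_filter, Finset.mem_erase] at hy'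
  refine ⟨y, hy'.1.2, hy'.1.1, hy'.2, ?_⟩
  intro z hz hzx hn
  have : z ∈ (X.erase x).filter (fun z => ¬ H.Adj x z) := by
    rw [Finset.mem_filter, Finset.mem_erase]
    exact ⟨⟨hzx, hz⟩, hn⟩
  rw [hy] at this
  simpa using this

theorem rank3 {X : Finset α} (hX : NP H 3 X) {b c e : α} (hb : b ∈ X) (hc : c ∈ X) (he : e ∈ X)
    (bc : H.Adj b c) (be : H.Adj b e) (ce : H.Adj c e)
    (kb : (lk H X b).card = 4) (kc : (lk H X c).card = 4) (ke : (lk H X e).card = 4) :
    CP H X ∧ X.card = 6 ∧ ∃ b' c' e' : α, b' ≠ b ∧ c' ≠ c ∧ e' ≠ e ∧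
      ¬ H.Adj b b' ∧ ¬ H.Adj c c' ∧ ¬ H.Adj e e' ∧
      ∀ x, x ∈ X ↔ x = b ∨ x = c ∨ x = e ∨ x = b' ∨ x = c' ∨ x = e' := by
  classical
  have hlk : ∀ v ∈ X, NP H 2 (lk H X v) := by
    have := hX
    simp only [NP] at this
    intro v hv
    have h1 := this.2.2 v hv
    simp only [NP]
    exact h1
  have Cc := cp_two (hlk c hc) kc
  have Cb := cp_two (hlk b hb) kb
  have Ce := cp_two (hlk e he) ke
  have hbc : b ∈ lk H X c := mem_lk.2 ⟨hb, bc.symm⟩
  have hec : e ∈ lk H X c := mem_lk.2 ⟨he, ce⟩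
  obtain ⟨b', hb', hb'b, nbb', -⟩ := Cc b hbc
  obtain ⟨e', he', he'e, nee', -⟩ := Cc e hec
  have hb'e : b' ≠ e := by rintro rfl; exact nbb' be
  have he'b : e' ≠ b := by rintro rfl; exact nee' be.symm
  have hbne : b ≠ e := be.ne
  have hb'e' : b' ≠ e' := by
    rintro rfl
    -- b' has non-neighbours b and e
    exact nbb' ((Cc.adj hb' hec hbc (Ne.symm hb'e) (fun h => nee' h.symm) (Ne.symm hb'b) hbne).symm)
  have cb' : H.Adj c b' := (mem_lk.1 hb').2
  have ce' : H.Adj c e' := (mem_lk.1 he').2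
  -- adjacencies in lk c
  have eb' : H.Adj e b' := Cc.adj hec he' hb' he'e nee' hb'e hb'e'
  have be' : H.Adj b e' := Cc.adj hbc hb' he' hb'b nbb' he'b (Ne.symm hb'e')
  have b'e' : H.Adj b' e' := Cc.adj hb' hbc he' (Ne.symm hb'b) (fun h => nbb' h.symm)
    (Ne.symm hb'e') he'b
  -- lk b
  have hcb : c ∈ lk H X b := mem_lk.2 ⟨hc, bc⟩
  have heb : e ∈ lk H X b := mem_lk.2 ⟨he, be⟩
  have he'b' : e' ∈ lk H X b := mem_lk.2 ⟨(mem_lk.1 he').1, be'⟩
  obtain ⟨c', hc', hc'c, ncc', -⟩ := Cb c hcb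
  have bc' : H.Adj b c' := (mem_lk.1 hc').2
  have hc'e : c' ≠ e := by rintro rfl; exact ncc' ce
  have hc'e' : c' ≠ e' := by rintro rfl; exact ncc' ce'
  have ec' : H.Adj e c' := Cb.adj heb he'b' hc' he'e nee' hc'e hc'e'
  have e'c' : H.Adj e' c' := Cb.adj he'b' heb hc' (Ne.symm he'e) (fun h => nee' h.symm) hc'e' hc'e
  -- lk e
  have hbe : b ∈ lk H X e := mem_lk.2 ⟨hb, be.symm⟩
  have hb'e2 : b' ∈ lk H X e := mem_lk.2 ⟨(mem_lk.1 hb').1, eb'⟩
  have hc'e2 : c' ∈ lk H X e := mem_lk.2 ⟨(mem_lk.1 hc').1, ec'⟩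
  have hc'b' : c' ≠ b' := by rintro rfl; exact ncc' cb'
  have hc'b : c' ≠ b := bc'.ne'
  have b'c' : H.Adj b' c' := Ce.adj hb'e2 hbe hc'e2 (Ne.symm hb'b) (fun h => nbb' h.symm) hc'b' hc'b
  -- the cross-polytope
  set T : Finset α := {b, c, e, b', c', e'} with hT
  have hmem : ∀ x, x ∈ T ↔ x = b ∨ x = c ∨ x = e ∨ x = b' ∨ x = c' ∨ x = e' := by
    intro x; simp [hT]
  have hTX : T ⊆ X := by
    intro x hx
    rcases (hmem x).1 hx with rfl | rfl | rfl | rfl | rfl | rfl
    · exact hb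
    · exact hc
    · exact he
    · exact (mem_lk.1 hb').1
    · exact (mem_lk.1 hc').1
    · exact (mem_lk.1 he').1
  have hTc : T.card = 6 := by
    have n1 := bc.ne
    have n2 := be.ne
    have n3 := ce.ne
    have n4 := bc'.ne
    have n5 := be'.ne
    have n6 := cb'.ne
    have n7 := ce'.ne
    have n8 := eb'.ne
    have n9 := ec'.ne
    have n10 := b'c'.ne
    have n11 := b'e'.ne
    have n12 := e'c'.ne'
    rw [hT]
    rw [Finset.card_insert_of_notMem, Finset.card_insert_of_notMem, Finset.card_insert_of_notMem,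
      Finset.card_insert_of_notMem, Finset.card_insert_of_notMem, Finset.card_singleton] <;>
      simp only [Finset.mem_insert, Finset.mem_singleton, not_or] <;>
      first
        | exact ⟨n1, n2, Ne.symm hb'b, n4, n5⟩
        | exact ⟨n3, n6, Ne.symm hc'c, n7⟩
        | exact ⟨n8, n9, Ne.symm he'e⟩
        | exact ⟨n10, n11⟩
        | exact n12
  have hTCP : CP H T := by
    intro x hx
    rcases (hmem x).1 hx with rfl | rfl | rfl | rfl | rfl | rfl
    · refine ⟨b', (hmem _).2 (by tauto), hb'b, nbb', ?_⟩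
      intro z hz hzx hn
      rcases (hmem z).1 hz with rfl | rfl | rfl | rfl | rfl | rfl
      · exact absurd rfl hzx
      · exact absurd bc hn
      · exact absurd be hn
      · rfl
      · exact absurd bc' hn
      · exact absurd be' hn
    · refine ⟨c', (hmem _).2 (by tauto), hc'c, ncc', ?_⟩
      intro z hz hzx hn
      rcases (hmem z).1 hz with rfl | rfl | rfl | rfl | rfl | rfl
      · exact absurd bc.symm hn
      · exact absurd rfl hzx
      · exact absurd ce hn
      · exact absurd cb' hn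
      · rfl
      · exact absurd ce' hn
    · refine ⟨e', (hmem _).2 (by tauto), he'e, nee', ?_⟩
      intro z hz hzx hn
      rcases (hmem z).1 hz with rfl | rfl | rfl | rfl | rfl | rfl
      · exact absurd be.symm hn
      · exact absurd ce.symm hn
      · exact absurd rfl hzx
      · exact absurd eb' hn
      · exact absurd ec' hn
      · rfl
    · refine ⟨b, (hmem _).2 (by tauto), Ne.symm hb'b, fun h => nbb' h.symm, ?_⟩
      intro z hz hzx hn
      rcases (hmem z).1 hz with rfl | rfl | rfl | rfl | rfl | rfl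
      · rfl
      · exact absurd cb'.symm hn
      · exact absurd eb'.symm hn
      · exact absurd rfl hzx
      · exact absurd b'c' hn
      · exact absurd b'e' hn
    · refine ⟨c, (hmem _).2 (by tauto), Ne.symm hc'c, fun h => ncc' h.symm, ?_⟩
      intro z hz hzx hn
      rcases (hmem z).1 hz with rfl | rfl | rfl | rfl | rfl | rfl
      · exact absurd bc'.symm hn
      · rfl
      · exact absurd ec'.symm hn
      · exact absurd b'c'.symm hn
      · exact absurd rfl hzx
      · exact absurd e'c'.symm hn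
    · refine ⟨e, (hmem _).2 (by tauto), Ne.symm he'e, fun h => nee' h.symm, ?_⟩
      intro z hz hzx hn
      rcases (hmem z).1 hz with rfl | rfl | rfl | rfl | rfl | rfl
      · exact absurd be'.symm hn
      · exact absurd ce'.symm hn
      · rfl
      · exact absurd b'e'.symm hn
      · exact absurd e'c' hn
      · exact absurd rfl hzx
  have hTe : T = X := hTCP.eq hX hTX hTc
  refine ⟨hTe ▸ hTCP, hTe ▸ hTc, b', c', e', hb'b, hc'c, he'e, nbb', ncc', nee', ?_⟩
  rw [← hTe]
  exact hmem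

theorem rank4 {W : Finset α} (hW : NP H 4 W) {a b c e : α} (ha : a ∈ W) (hb : b ∈ W) (hc : c ∈ W)
    (he : e ∈ W) (ab : H.Adj a b) (ac : H.Adj a c) (ae : H.Adj a e)
    (bc : H.Adj b c) (be : H.Adj b e) (ce : H.Adj c e)
    (hk : ∀ x ∈ ({a, b, c, e} : Set α), ∀ y ∈ ({a, b, c, e} : Set α), x ≠ y →
      (lk H (lk H W x) y).card = 4) : W.card = 8 := by
  classical
  have hlk : ∀ v ∈ W, NP H 3 (lk H W v) := by
    have := hW
    simp only [NP] at this
    intro v hv
    have h1 := this.2.2 v hv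
    simp only [NP]
    exact h1
  have m : ∀ {x y : α}, y ∈ W → H.Adj x y → y ∈ lk H W x := fun hy h => mem_lk.2 ⟨hy, h⟩
  obtain ⟨Ca, ka, b', c', e', hb'b, hc'c, he'e, nbb', ncc', nee', hXa⟩ :=
    rank3 (hlk a ha) (m hb ab) (m hc ac) (m he ae) bc be ce
      (hk a (by simp) b (by simp) ab.ne) (hk a (by simp) c (by simp) ac.ne)
      (hk a (by simp) e (by simp) ae.ne)
  obtain ⟨Cb, -, -⟩ := rank3 (hlk b hb) (m ha ab.symm) (m hc bc) (m he be) ac ae ce
      (hk b (by simp) a (by simp) ab.ne') (hk b (by simp) c (by simp) bc.ne)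
      (hk b (by simp) e (by simp) be.ne)
  obtain ⟨Cc, -, -⟩ := rank3 (hlk c hc) (m ha ac.symm) (m hb bc.symm) (m he ce) ab ae be
      (hk c (by simp) a (by simp) ac.ne') (hk c (by simp) b (by simp) bc.ne')
      (hk c (by simp) e (by simp) ce.ne)
  have mb' : b' ∈ lk H W a := (hXa b').2 (by tauto)
  have mc' : c' ∈ lk H W a := (hXa c').2 (by tauto)
  have me' : e' ∈ lk H W a := (hXa e').2 (by tauto)
  have mb : b ∈ lk H W a := m hb ab
  have mc : c ∈ lk H W a := m hc ac
  have me : e ∈ lk H W a := m he ae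
  have ab' : H.Adj a b' := (mem_lk.1 mb').2
  have ac' : H.Adj a c' := (mem_lk.1 mc').2
  have ae' : H.Adj a e' := (mem_lk.1 me').2
  have cb' : H.Adj c b' := (Ca.adj mb' mb mc (Ne.symm hb'b) (fun h => nbb' h.symm)
    (by rintro rfl; exact nbb' bc) bc.ne').symm
  have bc' : H.Adj b c' := (Ca.adj mc' mc mb (Ne.symm hc'c) (fun h => ncc' h.symm)
    (by rintro rfl; exact ncc' bc.symm) bc.ne).symm
  have be' : H.Adj b e' := (Ca.adj me' me mb (Ne.symm he'e) (fun h => nee' h.symm)
    (by rintro rfl; exact nee' be.symm) be.ne).symm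
  -- the antipode of a
  obtain ⟨a', ha', ha'a, naa', -⟩ := Cb a (m ha ab.symm)
  have wa' : a' ∈ W := (mem_lk.1 ha').1
  have ba' : H.Adj b a' := (mem_lk.1 ha').2
  have ca' : H.Adj c a' := (Cb.adj ha' (m ha ab.symm) (m hc bc) (Ne.symm ha'a)
    (fun h => naa' h.symm) (by rintro rfl; exact naa' ac) ac.ne').symm
  have ea' : H.Adj e a' := (Cb.adj ha' (m ha ab.symm) (m he be) (Ne.symm ha'a)
    (fun h => naa' h.symm) (by rintro rfl; exact naa' ae) ae.ne').symm
  have c'a' : H.Adj c' a' := (Cb.adj ha' (m ha ab.symm) (m (mem_lk.1 mc').1 bc') (Ne.symm ha'a)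
    (fun h => naa' h.symm) (by rintro rfl; exact naa' ac') ac'.ne').symm
  have e'a' : H.Adj e' a' := (Cb.adj ha' (m ha ab.symm) (m (mem_lk.1 me').1 be') (Ne.symm ha'a)
    (fun h => naa' h.symm) (by rintro rfl; exact naa' ae') ae'.ne').symm
  have b'a' : H.Adj b' a' := (Cc.adj (m wa' ca') (m ha ac.symm) (m (mem_lk.1 mb').1 cb')
    (Ne.symm ha'a) (fun h => naa' h.symm) (by rintro rfl; exact naa' ab') ab'.ne').symm
  have hall : ∀ z ∈ lk H W a, H.Adj z a' := by
    intro z hz
    rcases (hXa z).1 hz with rfl | rfl | rfl | rfl | rfl | rfl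
    · exact ba'
    · exact ca'
    · exact ea'
    · exact b'a'
    · exact c'a'
    · exact e'a'
  set T : Finset α := insert a (insert a' (lk H W a)) with hT
  have hmem : ∀ x, x ∈ T ↔ x = a ∨ x = a' ∨ x ∈ lk H W a := by
    intro x; simp [hT]
  have hTW : T ⊆ W := by
    intro x hx
    rcases (hmem x).1 hx with rfl | rfl | h
    · exact ha
    · exact wa'
    · exact (mem_lk.1 h).1
  have hTc : T.card = 8 := by
    rw [hT, Finset.card_insert_of_notMem, Finset.card_insert_of_notMem, ka]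
    · intro h
      exact naa' (mem_lk.1 h).2
    · simp only [Finset.mem_insert, not_or]
      exact ⟨Ne.symm ha'a, fun h => (mem_lk.1 h).2.ne rfl⟩
  have hTCP : CP H T := by
    intro x hx
    rcases (hmem x).1 hx with rfl | rfl | h
    · refine ⟨a', (hmem _).2 (by tauto), ha'a, naa', ?_⟩
      intro z hz hzx hn
      rcases (hmem z).1 hz with rfl | rfl | h
      · exact absurd rfl hzx
      · rfl
      · exact absurd (mem_lk.1 h).2 hn
    · refine ⟨a, (hmem _).2 (by tauto), Ne.symm ha'a, fun h => naa' h.symm, ?_⟩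
      intro z hz hzx hn
      rcases (hmem z).1 hz with rfl | rfl | h
      · rfl
      · exact absurd rfl hzx
      · exact absurd (hall z h).symm hn
    · obtain ⟨y, hy, hyx, hn, hu⟩ := Ca x h
      refine ⟨y, (hmem _).2 (Or.inr (Or.inr hy)), hyx, hn, ?_⟩
      intro z hz hzx hnz
      rcases (hmem z).1 hz with rfl | rfl | hz
      · exact absurd (mem_lk.1 h).2.symm hnz
      · exact absurd (hall x h) hnz
      · exact hu z hz hzx hnz
  have hTe : T = W := hTCP.eq hW hTW hTc
  rw [← hTe]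
  exact hTc

theorem main : StmF := by
  classical
  intro α H W κ hW hκ h4 hk
  obtain ⟨a, b, c, e, hab, hac, hae, hbc, hbe, hce, rfl⟩ := Finset.card_eq_four.1 h4
  simp only [cl, Finset.mem_filter, Finset.mem_powerset] at hκ
  obtain ⟨hsub, hcl⟩ := hκ
  have M : ∀ x ∈ ({a, b, c, e} : Finset α), x ∈ W := fun x hx => hsub hx
  refine rank4 hW (M a (by simp)) (M b (by simp)) (M c (by simp)) (M e (by simp))
    (hcl a (by simp) b (by simp) hab) (hcl a (by simp) c (by simp) hac)
    (hcl a (by simp) e (by simp) hae) (hcl b (by simp) c (by simp) hbc)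
    (hcl b (by simp) e (by simp) hbe) (hcl c (by simp) e (by simp) hce) ?_
  intro x hx y hy hxy
  exact hk x (by simpa using hx) y (by simpa using hy) hxy

end Pool.Agent.W933.FS


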