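import Pool.Agent.H87.L.W497_FS_Stms2
import Pool.Agent.H87.L.W497_FS_Basic
import Pool.Agent.H87.L.W933_FS_F

set_option autoImplicit false

/-! # FS-F2: rank-4 rigidity with one edge of degree 5 -/

namespace Pool.Agent.W628.FS

open Pool.Agent.W497.FS
open Pool.Agent.W933.FS (CP cp_two)

variable {α : Type*} {H : SimpleGraph α}

theorem lk_comm' (W : Finset α) (x y : α) : lk H (lk H W x) y = lk H (lk H W y) x := by
  ext z
  simp only [Pool.Agent.W497.FS.mem_lk]
  tauto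

theorem mem2 {W : Finset α} {x y z : α} :
    z ∈ lk H (lk H W x) y ↔ z ∈ W ∧ H.Adj x z ∧ H.Adj y z := by
  simp only [Pool.Agent.W497.FS.mem_lk]
  tauto

variable [DecidableEq α]

theorem q_one {a b : α} (h : a ≠ b) (hn : ¬ H.Adj a b) : Q H 1 {a, b} := by
  refine ⟨by rw [Finset.card_pair h], ?_⟩
  intro x hx y hy
  simp only [Finset.mem_insert, Finset.mem_singleton] at hx hy
  rcases hx with rfl | rfl <;> rcases hy with rfl | rfl
  · exact fun h => h.ne rfl
  · exact hn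
  · exact fun h => hn h.symm
  · exact fun h => h.ne rfl

theorem full_pair {a b c d : α} (h1 : H.Adj a c) (h2 : H.Adj a d) (h3 : H.Adj b c)
    (h4 : H.Adj b d) : Full H {a, b} {c, d} := by
  intro x hx y hy
  simp only [Finset.mem_insert, Finset.mem_singleton] at hx hy
  rcases hx with rfl | rfl <;> rcases hy with rfl | rfl <;> assumption

theorem step {W : Finset α} {p q r s t : α} (hW : NP H 4 W)
    (hp : p ∈ W) (hq : q ∈ W) (hr : r ∈ W) (hs : s ∈ W) (ht : t ∈ W)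
    (pq : H.Adj p q) (pr : H.Adj p r) (qr : H.Adj q r) (ps : H.Adj p s) (qs : H.Adj q s)
    (rs : H.Adj r s) (pt : H.Adj p t) (qt : H.Adj q t) (rt : H.Adj r t) (st : s ≠ t)
    (nst : ¬ H.Adj s t)
    (k12 : (lk H (lk H W p) q).card = 5) (k13 : (lk H (lk H W p) r).card = 4)
    (k14 : (lk H (lk H W p) s).card = 4) (k15 : (lk H (lk H W p) t).card = 4) :
    ∃ z ∈ W, z ≠ q ∧ ¬ H.Adj q z ∧ H.Adj p z ∧ ∀ x ∈ lk H (lk H W p) q, H.Adj z x := by
  have hlk : ∀ x ∈ W, ∀ y ∈ W, H.Adj x y → NP H 2 (lk H (lk H W x) y) := by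
    intro x hx y hy hxy
    exact (hW.lk hx).lk (Pool.Agent.W497.FS.mem_lk.2 ⟨hy, hxy⟩)
  have C13 := cp_two (hlk p hp r hr pr) k13
  have C14 := cp_two (hlk p hp s hs ps) k14
  have C15 := cp_two (hlk p hp t ht pt) k15
  have q13 : q ∈ lk H (lk H W p) r := mem2.2 ⟨hq, pq, qr.symm⟩
  have s13 : s ∈ lk H (lk H W p) r := mem2.2 ⟨hs, ps, rs⟩
  have t13 : t ∈ lk H (lk H W p) r := mem2.2 ⟨ht, pt, rt⟩
  obtain ⟨z, hz, zq, nqz, -⟩ := C13 q q13
  have zs' : z ≠ s := by rintro rfl; exact nqz qs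
  have zt' : z ≠ t := by rintro rfl; exact nqz qt
  have zs : H.Adj z s := C13.adj hz q13 s13 (Ne.symm zq) (fun h => nqz h.symm) (Ne.symm zs') qs.ne'
  have zt : H.Adj z t := C13.adj hz q13 t13 (Ne.symm zq) (fun h => nqz h.symm) (Ne.symm zt') qt.ne'
  obtain ⟨zW, pz, rz⟩ := mem2.1 hz
  have q14 : q ∈ lk H (lk H W p) s := mem2.2 ⟨hq, pq, qs.symm⟩
  have r14 : r ∈ lk H (lk H W p) s := mem2.2 ⟨hr, pr, rs.symm⟩
  have z14 : z ∈ lk H (lk H W p) s := mem2.2 ⟨zW, pz, zs.symm⟩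
  obtain ⟨y, hy, yr, nry, -⟩ := C14 r r14
  have yq' : y ≠ q := by rintro rfl; exact nry qr.symm
  have yz' : y ≠ z := by rintro rfl; exact nry rz
  have yq : H.Adj y q := C14.adj hy r14 q14 (Ne.symm yr) (fun h => nry h.symm) (Ne.symm yq') qr.ne
  have yz : H.Adj y z := C14.adj hy r14 z14 (Ne.symm yr) (fun h => nry h.symm) (Ne.symm yz') rz.ne'
  obtain ⟨yW, py, sy⟩ := mem2.1 hy
  have q15 : q ∈ lk H (lk H W p) t := mem2.2 ⟨hq, pq, qt.symm⟩
  have r15 : r ∈ lk H (lk H W p) t := mem2.2 ⟨hr, pr, rt.symm⟩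
  have z15 : z ∈ lk H (lk H W p) t := mem2.2 ⟨zW, pz, zt.symm⟩
  obtain ⟨y', hy', y'r, nry', -⟩ := C15 r r15
  have y'q' : y' ≠ q := by rintro rfl; exact nry' qr.symm
  have y'z' : y' ≠ z := by rintro rfl; exact nry' rz
  have y'q : H.Adj y' q :=
    C15.adj hy' r15 q15 (Ne.symm y'r) (fun h => nry' h.symm) (Ne.symm y'q') qr.ne
  have y'z : H.Adj y' z :=
    C15.adj hy' r15 z15 (Ne.symm y'r) (fun h => nry' h.symm) (Ne.symm y'z') rz.ne'
  obtain ⟨y'W, py', ty'⟩ := mem2.1 hy'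
  -- the pentagon
  have r12 : r ∈ lk H (lk H W p) q := mem2.2 ⟨hr, pr, qr⟩
  have s12 : s ∈ lk H (lk H W p) q := mem2.2 ⟨hs, ps, qs⟩
  have t12 : t ∈ lk H (lk H W p) q := mem2.2 ⟨ht, pt, qt⟩
  have y12 : y ∈ lk H (lk H W p) q := mem2.2 ⟨yW, py, yq.symm⟩
  have y'12 : y' ∈ lk H (lk H W p) q := mem2.2 ⟨y'W, py', y'q.symm⟩
  have hyy' : y ≠ y' := by
    rintro rfl
    have hQ : Q H (1 + 1) ({r, y} ∪ {s, t}) :=
      (q_one (Ne.symm yr) nry).join (q_one st nst) (full_pair rs rt sy.symm ty'.symm)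
    have hsub : ({r, y} ∪ {s, t} : Finset α) ⊆ lk H (lk H W p) q := by
      intro x hx
      simp only [Finset.mem_union, Finset.mem_insert, Finset.mem_singleton] at hx
      rcases hx with (rfl | rfl) | (rfl | rfl) <;> assumption
    have hE := closed_eq (hlk p hp q hq pq) hsub hQ
    have hc : ({r, y} ∪ {s, t} : Finset α).card ≤ 4 :=
      (Finset.card_union_le _ _).trans
        (Nat.add_le_add (Finset.card_le_two) (Finset.card_le_two))
    rw [hE] at hc
    omega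
  have sy'n : s ≠ y' := by rintro rfl; exact nst ty'.symm
  have tyn : t ≠ y := by rintro rfl; exact nst sy
  have hP : ({r, s, t, y, y'} : Finset α) = lk H (lk H W p) q := by
    apply Finset.eq_of_subset_of_card_le
    · intro x hx
      simp only [Finset.mem_insert, Finset.mem_singleton] at hx
      rcases hx with rfl | rfl | rfl | rfl | rfl <;> assumption
    · rw [k12]
      rw [Finset.card_insert_of_notMem, Finset.card_insert_of_notMem,
        Finset.card_insert_of_notMem, Finset.card_pair hyy'] <;>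
        simp only [Finset.mem_insert, Finset.mem_singleton, not_or]
      · exact ⟨tyn, ty'.ne⟩
      · exact ⟨st, sy.ne, sy'n⟩
      · exact ⟨rs.ne, rt.ne, Ne.symm yr, Ne.symm y'r⟩
  refine ⟨z, zW, zq, nqz, pz, ?_⟩
  intro x hx
  rw [← hP] at hx
  simp only [Finset.mem_insert, Finset.mem_singleton] at hx
  rcases hx with rfl | rfl | rfl | rfl | rfl
  · exact rz.symm
  · exact zs
  · exact zt
  · exact yz.symm
  · exact y'z.symm

theorem main : StmF2 := by
  classical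
  intro α H W p q r s t hW hp hq hr hs ht pq pr qr ps qs rs pt qt rt st nst k12 k13 k23 k14 k24
    k34 k15 k25 k35
  have hlk : ∀ x ∈ W, ∀ y ∈ W, H.Adj x y → NP H 2 (lk H (lk H W x) y) := by
    intro x hx y hy hxy
    exact (hW.lk hx).lk (Pool.Agent.W497.FS.mem_lk.2 ⟨hy, hxy⟩)
  obtain ⟨z, zW, zq, nqz, pz, hzP⟩ := step hW hp hq hr hs ht pq pr qr ps qs rs pt qt rt st nst
    k12 k13 k14 k15
  have k21 : (lk H (lk H W q) p).card = 5 := by rw [lk_comm']; exact k12
  obtain ⟨z', z'W, z'p, npz', qz', hz'P⟩ := step hW hq hp hr hs ht pq.symm qr pr qs ps rs qt pt rt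
    st nst k21 k23 k24 k25
  rw [lk_comm'] at hz'P
  have r12 : r ∈ lk H (lk H W p) q := mem2.2 ⟨hr, pr, qr⟩
  have s12 : s ∈ lk H (lk H W p) q := mem2.2 ⟨hs, ps, qs⟩
  have zz' : z ≠ z' := by rintro rfl; exact npz' pz
  have C34 := cp_two (hlk r hr s hs rs) k34
  have q34 : q ∈ lk H (lk H W r) s := mem2.2 ⟨hq, qr.symm, qs.symm⟩
  have z34 : z ∈ lk H (lk H W r) s := mem2.2 ⟨zW, (hzP r r12).symm, (hzP s s12).symm⟩
  have z'34 : z' ∈ lk H (lk H W r) s := mem2.2 ⟨z'W, (hz'P r r12).symm, (hz'P s s12).symm⟩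
  have azz' : H.Adj z z' := C34.adj z34 q34 z'34 (Ne.symm zq) (fun h => nqz h.symm) (Ne.symm zz')
    qz'.ne'
  -- the join
  have hB : Q H (1 + 1) ({p, z'} ∪ {q, z}) :=
    (q_one (Ne.symm z'p) npz').join (q_one (Ne.symm zq) nqz)
      (full_pair pq pz qz'.symm azz'.symm)
  have hF : Full H (lk H (lk H W p) q) ({p, z'} ∪ {q, z}) := by
    intro x hx w hw
    have hx' := mem2.1 hx
    simp only [Finset.mem_union, Finset.mem_insert, Finset.mem_singleton] at hw
    rcases hw with (rfl | rfl) | (rfl | rfl)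
    · exact hx'.2.1.symm
    · exact (hz'P x hx).symm
    · exact hx'.2.2.symm
    · exact (hzP x hx).symm
  have hT := (hlk p hp q hq pq).q.join hB hF
  have hsub : (lk H (lk H W p) q) ∪ ({p, z'} ∪ {q, z}) ⊆ W := by
    intro x hx
    rcases Finset.mem_union.1 hx with hx | hx
    · exact (mem2.1 hx).1
    · simp only [Finset.mem_union, Finset.mem_insert, Finset.mem_singleton] at hx
      rcases hx with (rfl | rfl) | (rfl | rfl) <;> assumption
  have hE := closed_eq hW hsub hT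
  rw [← hE, Finset.card_union_of_disjoint hF.disjoint, k12, Finset.card_union_of_disjoint,
    Finset.card_pair (Ne.symm z'p), Finset.card_pair (Ne.symm zq)]
  exact (full_pair pq pz qz'.symm azz'.symm).disjoint

end Pool.Agent.W628.FS
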