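import Pool.Agent.H87.L.W497_FS_Defs

set_option autoImplicit false

/-! FS-A2: a flag homology sphere is a flag normal pseudomanifold -/

namespace Pool.Agent.W959.FS.A2

open Pool.Agent.W497.FS

open scoped Classical in
lemma mem_lkF {α : Type*} (H : SimpleGraph α) (W κ : Finset α) (x : α) :
    x ∈ lkF H W κ ↔ x ∈ W ∧ ∀ y ∈ κ, H.Adj y x := by
  unfold lkF
  exact Finset.mem_filter

open scoped Classical in
lemma mem_lk {α : Type*} (H : SimpleGraph α) (W : Finset α) (v x : α) :
    x ∈ lk H W v ↔ x ∈ W ∧ H.Adj v x := by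
  unfold lk
  exact Finset.mem_filter

open scoped Classical in
lemma mem_cl {α : Type*} (H : SimpleGraph α) (W σ : Finset α) :
    σ ∈ cl H W ↔ σ ⊆ W ∧ ∀ x ∈ σ, ∀ y ∈ σ, x ≠ y → H.Adj x y := by
  unfold cl
  rw [← Finset.mem_powerset]
  exact Finset.mem_filter

/-- the rows of the matrix -/
abbrev Rw {n : ℕ} (L : Finset (Finset (Fin n))) : Type :=
  {A : Finset (Fin n) // A ∈ L.filter (fun A => A.card = 2 - 1)}

/-- the matrix of the frozen statement -/
noncomputable def MM (k : Type) [Field k] {n : ℕ} (L : Finset (Finset (Fin n))) (j : ℕ) :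
    Matrix {A : Finset (Fin n) // A ∈ L.filter (fun A => A.card = j - 1)}
      {B : Finset (Fin n) // B ∈ L.filter (fun B => B.card = j)} k :=
  Matrix.of (fun (A : {A : Finset (Fin n) // A ∈ L.filter (fun A => A.card = j - 1)})
             (B : {B : Finset (Fin n) // B ∈ L.filter (fun B => B.card = j)}) =>
          ∑ v ∈ B.1, if B.1.erase v = A.1
            then (-1 : k) ^ (B.1.filter (fun w => w < v)).card else 0)

lemma sign_sum (k : Type) [Field k] {n : ℕ} (B : Finset (Fin n)) (hB : B.card = 2) :
    ∑ v ∈ B, (-1 : k) ^ (B.filter (fun w => w < v)).card = 0 := by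
  have key : ∀ a b : Fin n, a < b → B = {a, b} →
      ∑ v ∈ B, (-1 : k) ^ (B.filter (fun w => w < v)).card = 0 := by
    rintro a b hab rfl
    rw [Finset.sum_pair hab.ne]
    have h1 : ({a, b} : Finset (Fin n)).filter (fun w => w < a) = ∅ := by
      ext x
      simp only [Finset.mem_filter, Finset.mem_insert, Finset.mem_singleton, Finset.notMem_empty,
        iff_false, not_and, not_lt]
      rintro (rfl | rfl)
      · exact le_rfl
      · exact hab.le
    have h2 : ({a, b} : Finset (Fin n)).filter (fun w => w < b) = {a} := by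
      ext x
      simp only [Finset.mem_filter, Finset.mem_insert, Finset.mem_singleton]
      constructor
      · rintro ⟨rfl | rfl, h⟩
        · rfl
        · exact absurd h (lt_irrefl _)
      · rintro rfl
        exact ⟨Or.inl rfl, hab⟩
    rw [h1, h2]
    simp
  obtain ⟨a, b, hab, hB'⟩ := Finset.card_eq_two.1 hB
  rcases lt_or_gt_of_ne hab with h | h
  · exact key a b h hB'
  · exact key b a h (by rw [hB', Finset.pair_comm])

open scoped Classical in
lemma rank_le (k : Type) [Field k] {n : ℕ} (L : Finset (Finset (Fin n))) (A : Finset (Fin n))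
    (hdown : ∀ B ∈ L, ∀ v ∈ B, B.erase v ∈ L)
    (hL2 : ∀ B ∈ L, B.card = 2 → B ⊆ A ∨ Disjoint B A) (a0 b0 : Fin n) (ha0 : {a0} ∈ L)
    (hb0 : {b0} ∈ L) (haA : a0 ∈ A) (hbA : b0 ∉ A) :
    (MM k L 2).rank + 2 ≤ (L.filter (fun G => G.card = 1)).card := by
  obtain ⟨ψ, hψ⟩ : ∃ ψ : (Finset (Fin n) → Prop) → ((Rw L → k) →ₗ[k] k),
      ∀ (P : Finset (Fin n) → Prop) (x : Rw L → k),
        ψ P x = ∑ R : Rw L, if P R.1 then x R else 0 := by
    refine ⟨fun P => ∑ R, if P R.1 then LinearMap.proj R else 0, fun P x => ?_⟩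
    rw [LinearMap.sum_apply]
    refine Finset.sum_congr rfl fun R _ => ?_
    split_ifs <;> rfl
  -- the functionals vanish on the columns
  have hcol : ∀ (P : Finset (Fin n) → Prop) (B : {B : Finset (Fin n) //
      B ∈ L.filter (fun B => B.card = 2)}), ((∀ v ∈ B.1, P (B.1.erase v)) ∨
        ∀ v ∈ B.1, ¬ P (B.1.erase v)) →
      ∑ R : {A : Finset (Fin n) // A ∈ L.filter (fun A => A.card = 2 - 1)},
        (if P R.1 then MM k L 2 R B else 0) = 0 := by
    intro P B hB
    have hBL := (Finset.mem_filter.1 B.2).1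
    have hB2 := (Finset.mem_filter.1 B.2).2
    have h1 : ∑ R : {A : Finset (Fin n) // A ∈ L.filter (fun A => A.card = 2 - 1)},
        (if P R.1 then MM k L 2 R B else 0) =
        ∑ v ∈ B.1, if P (B.1.erase v) then (-1 : k) ^ (B.1.filter (fun w => w < v)).card else 0 := by
      simp only [MM, Matrix.of_apply]
      have h2 : ∀ R : {A : Finset (Fin n) // A ∈ L.filter (fun A => A.card = 2 - 1)},
          (if P R.1 then ∑ v ∈ B.1, (if B.1.erase v = R.1
            then (-1 : k) ^ (B.1.filter (fun w => w < v)).card else 0) else 0) =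
          ∑ v ∈ B.1, (if B.1.erase v = R.1 then
            (if P (B.1.erase v) then (-1 : k) ^ (B.1.filter (fun w => w < v)).card else 0) else 0) := by
        intro R
        split_ifs with hP
        · refine Finset.sum_congr rfl fun v _ => ?_
          by_cases he : B.1.erase v = R.1
          · rw [if_pos he, if_pos he, if_pos (by rw [he]; exact hP)]
          · rw [if_neg he, if_neg he]
        · symm
          apply Finset.sum_eq_zero
          intro v _
          by_cases he : B.1.erase v = R.1
          · rw [if_pos he, if_neg (by rw [he]; exact hP)]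
          · rw [if_neg he]
      rw [Finset.sum_congr rfl fun R _ => h2 R, Finset.sum_comm]
      refine Finset.sum_congr rfl fun v hv => ?_
      have hmem : B.1.erase v ∈ L.filter (fun A => A.card = 2 - 1) := by
        rw [Finset.mem_filter]
        refine ⟨hdown _ hBL v hv, ?_⟩
        rw [Finset.card_erase_of_mem hv, hB2]
      rw [Finset.sum_eq_single ⟨B.1.erase v, hmem⟩]
      · rw [if_pos rfl]
      · intro R _ hR
        rw [if_neg]
        intro he
        exact hR (Subtype.ext he.symm)
      · intro h
        exact absurd (Finset.mem_univ _) h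
    rw [h1]
    rcases hB with hB | hB
    · rw [← sign_sum k B.1 hB2]
      exact Finset.sum_congr rfl fun v hv => if_pos (hB v hv)
    · exact Finset.sum_eq_zero fun v hv => if_neg (hB v hv)
  have hne : ∀ B ∈ L, B.card = 2 → ∀ v ∈ B, (B.erase v).Nonempty := by
    intro B _ hB2 v hv
    rw [← Finset.card_pos, Finset.card_erase_of_mem hv, hB2]
    norm_num
  have hzero : ∀ P : Finset (Fin n) → Prop, (∀ B ∈ L, B.card = 2 →
      ((∀ v ∈ B, P (B.erase v)) ∨ ∀ v ∈ B, ¬ P (B.erase v))) →
      ψ P ∘ₗ (MM k L 2).mulVecLin = 0 := by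
    intro P hP
    apply LinearMap.ext
    intro x
    rw [LinearMap.comp_apply, Matrix.mulVecLin_apply, hψ]
    have h1 : ∀ R, (if P R.1 then (MM k L 2).mulVec x R else 0) =
        ∑ B, x B * (if P R.1 then MM k L 2 R B else 0) := by
      intro R
      split_ifs
      · rw [Matrix.mulVec, dotProduct]
        exact Finset.sum_congr rfl fun B _ => mul_comm _ _
      · simp
    rw [Finset.sum_congr rfl fun R _ => h1 R, Finset.sum_comm]
    apply Finset.sum_eq_zero
    intro B _
    rw [← Finset.mul_sum, hcol P B (hP B.1 (Finset.mem_filter.1 B.2).1 (Finset.mem_filter.1 B.2).2),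
      mul_zero]
  have hz1 : ψ (fun R => R ⊆ A) ∘ₗ (MM k L 2).mulVecLin = 0 := by
    apply hzero
    intro B hB hB2
    rcases hL2 B hB hB2 with h | h
    · exact Or.inl fun v _ => (Finset.erase_subset _ _).trans h
    · refine Or.inr fun v hv hsub => ?_
      obtain ⟨x, hx⟩ := hne B hB hB2 v hv
      exact Finset.disjoint_left.1 h (Finset.mem_of_mem_erase hx) (hsub hx)
  have hz2 : ψ (fun R => ¬ R ⊆ A) ∘ₗ (MM k L 2).mulVecLin = 0 := by
    apply hzero
    intro B hB hB2
    rcases hL2 B hB hB2 with h | h
    · exact Or.inr fun v _ h' => h' ((Finset.erase_subset _ _).trans h)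
    · refine Or.inl fun v hv hsub => ?_
      obtain ⟨x, hx⟩ := hne B hB hB2 v hv
      exact Finset.disjoint_left.1 h (Finset.mem_of_mem_erase hx) (hsub hx)
  obtain ⟨φ, hφ⟩ : ∃ φ : (Rw L → k) →ₗ[k] k × k, φ = (ψ (fun R => R ⊆ A)).prod (ψ (fun R => ¬ R ⊆ A)) := ⟨_, rfl⟩
  have hcomp : LinearMap.range (MM k L 2).mulVecLin ≤ LinearMap.ker φ := by
    rintro _ ⟨x, rfl⟩
    rw [LinearMap.mem_ker, hφ]
    have e1 := LinearMap.congr_fun hz1 x
    have e2 := LinearMap.congr_fun hz2 x
    exact Prod.ext e1 e2
  have ha0' : ({a0} : Finset (Fin n)) ∈ L.filter (fun A => A.card = 2 - 1) :=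
    Finset.mem_filter.2 ⟨ha0, by simp⟩
  have hb0' : ({b0} : Finset (Fin n)) ∈ L.filter (fun A => A.card = 2 - 1) :=
    Finset.mem_filter.2 ⟨hb0, by simp⟩
  have hsing : ∀ (P : Finset (Fin n) → Prop)
      (R : {A : Finset (Fin n) // A ∈ L.filter (fun A => A.card = 2 - 1)}) (s : k),
      ψ P (Pi.single R s) = if P R.1 then s else 0 := by
    intro P R s
    rw [hψ, Finset.sum_eq_single R]
    · simp
    · intro R' _ hR'
      rw [Pi.single_eq_of_ne hR']
      simp
    · intro h
      exact absurd (Finset.mem_univ _) h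
  have hsurj : Function.Surjective φ := by
    rintro ⟨s, t⟩
    refine ⟨Pi.single ⟨{a0}, ha0'⟩ s + Pi.single ⟨{b0}, hb0'⟩ t, ?_⟩
    rw [hφ]
    refine Prod.ext ?_ ?_
    · change ψ (fun R => R ⊆ A) (Pi.single ⟨{a0}, ha0'⟩ s + Pi.single ⟨{b0}, hb0'⟩ t) = s
      rw [map_add, hsing, hsing]
      simp [haA, hbA]
    · change ψ (fun R => ¬ R ⊆ A) (Pi.single ⟨{a0}, ha0'⟩ s + Pi.single ⟨{b0}, hb0'⟩ t) = t
      rw [map_add, hsing, hsing]
      simp [haA, hbA]
  have hrn := LinearMap.finrank_range_add_finrank_ker φ
  rw [LinearMap.range_eq_top.2 hsurj, finrank_top] at hrn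
  have h2 : Module.finrank k (k × k) = 2 := by simp
  have h3 : Module.finrank k (Rw L → k) = (L.filter (fun G => G.card = 1)).card := by
    rw [Module.finrank_fintype_fun_eq_card, Fintype.card_coe]
  have h4 : (MM k L 2).rank ≤ Module.finrank k (LinearMap.ker φ) := Submodule.finrank_mono hcomp
  omega

lemma rank_zero (k : Type) [Field k] {n : ℕ} (L : Finset (Finset (Fin n))) :
    (MM k L 0).rank = 0 := by
  have : MM k L 0 = 0 := by
    ext A B
    simp only [MM, Matrix.of_apply, Matrix.zero_apply]
    have hB := (Finset.mem_filter.1 B.2).2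
    rw [Finset.card_eq_zero] at hB
    rw [hB]
    simp
  rw [this, Matrix.rank_zero]

lemma rank_empty (k : Type) [Field k] {n : ℕ} (L : Finset (Finset (Fin n))) (j : ℕ)
    (h : ∀ B ∈ L, B.card ≠ j) : (MM k L j).rank = 0 := by
  have hE : IsEmpty {B : Finset (Fin n) // B ∈ L.filter (fun B => B.card = j)} :=
    ⟨fun B => h B.1 (Finset.mem_filter.1 B.2).1 (Finset.mem_filter.1 B.2).2⟩
  have : MM k L j = 0 := by
    ext A B
    exact hE.elim B
  rw [this, Matrix.rank_zero]

theorem main (hA1 : StmA1) : StmA2 := by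
  classical
  intro k _ n d S r hS
  obtain ⟨hcl, -, hcard⟩ := hA1 k n d S r hS
  obtain ⟨hdn, hflag, hr, hhom⟩ := hS
  have hr' : ∀ L j, r L j = (MM k L j).rank := fun L j => hr L j
  obtain ⟨H, hH⟩ : ∃ H, H = skel S := ⟨_, rfl⟩
  obtain ⟨V, hV⟩ : ∃ V, V = vert S := ⟨_, rfl⟩
  rw [← hH, ← hV] at hcl ⊢
  have hmemS : ∀ G : Finset (Fin n), G ∈ S ↔ G ⊆ V ∧ ∀ x ∈ G, ∀ y ∈ G, x ≠ y → H.Adj x y := by
    intro G
    rw [← hcl, mem_cl]
  -- links
  have hlk : ∀ F ∈ S, ∀ G : Finset (Fin n),
      G ∈ S.filter (fun G => Disjoint G F ∧ G ∪ F ∈ S) ↔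
        G ⊆ lkF H V F ∧ ∀ x ∈ G, ∀ y ∈ G, x ≠ y → H.Adj x y := by
    intro F hF G
    rw [Finset.mem_filter]
    have hF' := (hmemS F).1 hF
    constructor
    · rintro ⟨hG, hdis, hGF⟩
      have hG' := (hmemS G).1 hG
      have hGF' := (hmemS _).1 hGF
      refine ⟨fun x hx => ?_, hG'.2⟩
      rw [mem_lkF]
      refine ⟨hG'.1 hx, fun y hy => ?_⟩
      apply hGF'.2 y (Finset.mem_union_right _ hy) x (Finset.mem_union_left _ hx)
      rintro rfl
      exact Finset.disjoint_left.1 hdis hx hy
    · rintro ⟨hsub, hcq⟩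
      have hx' : ∀ x ∈ G, x ∈ V ∧ ∀ y ∈ F, H.Adj y x := by
        intro x hx
        have := hsub hx
        rwa [mem_lkF] at this
      refine ⟨(hmemS G).2 ⟨fun x hx => (hx' x hx).1, hcq⟩, ?_, ?_⟩
      · rw [Finset.disjoint_left]
        intro x hx hxF
        exact H.loopless.irrefl x ((hx' x hx).2 x hxF)
      · rw [hmemS]
        refine ⟨Finset.union_subset (fun x hx => (hx' x hx).1) hF'.1, ?_⟩
        intro x hx y hy hxy
        rw [Finset.mem_union] at hx hy
        rcases hx with hx | hx <;> rcases hy with hy | hy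
        · exact hcq x hx y hy hxy
        · exact ((hx' x hx).2 y hy).symm
        · exact (hx' y hy).2 x hx
        · exact hF'.2 x hx y hy hxy
  have hins : ∀ F ∈ S, ∀ x ∈ lkF H V F, insert x F ∈ S ∧ (insert x F).card = F.card + 1 ∧
      lk H (lkF H V F) x = lkF H V (insert x F) := by
    intro F hF x hx
    have hx' := hx
    rw [mem_lkF] at hx'
    have hF' := (hmemS F).1 hF
    have hxF : x ∉ F := fun h => H.loopless.irrefl x (hx'.2 x h)
    refine ⟨?_, Finset.card_insert_of_notMem hxF, ?_⟩
    · rw [hmemS]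
      refine ⟨Finset.insert_subset hx'.1 hF'.1, ?_⟩
      intro a ha b hb hab
      rw [Finset.mem_insert] at ha hb
      rcases ha with rfl | ha <;> rcases hb with rfl | hb
      · exact absurd rfl hab
      · exact (hx'.2 b hb).symm
      · exact hx'.2 a ha
      · exact hF'.2 a ha b hb hab
    · ext z
      simp only [mem_lk, mem_lkF, Finset.mem_insert, forall_eq_or_imp]
      tauto
  -- the numbers of faces of the link with 0 and 1 elements
  have hf0 : ∀ F ∈ S, ((S.filter (fun G => Disjoint G F ∧ G ∪ F ∈ S)).filter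
      (fun G => G.card = 0)).card = 1 := by
    intro F hF
    rw [Finset.card_eq_one]
    refine ⟨∅, ?_⟩
    ext G
    rw [Finset.mem_filter, hlk F hF, Finset.mem_singleton, Finset.card_eq_zero]
    constructor
    · exact fun h => h.2
    · rintro rfl
      exact ⟨⟨Finset.empty_subset _, by simp⟩, rfl⟩
  have hf1 : ∀ F ∈ S, ((S.filter (fun G => Disjoint G F ∧ G ∪ F ∈ S)).filter
      (fun G => G.card = 1)).card = (lkF H V F).card := by
    intro F hF
    symm
    apply Finset.card_bij (fun x _ => ({x} : Finset (Fin n)))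
    · intro x hx
      rw [Finset.mem_filter, hlk F hF]
      refine ⟨⟨Finset.singleton_subset_iff.2 hx, ?_⟩, Finset.card_singleton x⟩
      intro a ha b hb hab
      rw [Finset.mem_singleton] at ha hb
      exact absurd (ha.trans hb.symm) hab
    · intro x _ y _ h
      exact Finset.singleton_injective h
    · intro G hG
      rw [Finset.mem_filter, hlk F hF] at hG
      obtain ⟨x, rfl⟩ := Finset.card_eq_one.1 hG.2
      exact ⟨x, Finset.singleton_subset_iff.1 hG.1.1, rfl⟩
  have hr1 : ∀ F ∈ S, F.card < d →
      r (S.filter (fun G => Disjoint G F ∧ G ∪ F ∈ S)) 1 = 1 := by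
    intro F hF hlt
    have h1 := hhom F hF 0
    rw [hf0 F hF, hr' _ 0, rank_zero, if_neg (by omega)] at h1
    push_cast at h1
    omega
  have hmain : ∀ e : ℕ, ∀ F ∈ S, F.card + e = d → NP H e (lkF H V F) := by
    intro e
    induction e with
    | zero =>
      intro F hF hFd
      change lkF H V F = ∅
      rw [Finset.eq_empty_iff_forall_notMem]
      intro x hx
      obtain ⟨h1, h2, -⟩ := hins F hF x hx
      have := hcard _ h1
      omega
    | succ e ih =>
      intro F hF hFd
      obtain ⟨L, hL⟩ : ∃ L, L = S.filter (fun G => Disjoint G F ∧ G ∪ F ∈ S) := ⟨_, rfl⟩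
      have hL' : ∀ G, G ∈ L ↔ G ⊆ lkF H V F ∧ ∀ x ∈ G, ∀ y ∈ G, x ≠ y → H.Adj x y := by
        intro G; rw [hL]; exact hlk F hF G
      have h1 := hhom F hF 1
      have h2 := hr1 F hF (by omega)
      rw [hf1 F hF] at h1
      rw [← hL] at h1 h2
      rw [h2] at h1
      rcases Nat.eq_zero_or_pos e with rfl | he
      · -- rank one
        have hno : ∀ x ∈ lkF H V F, ∀ y ∈ lkF H V F, ¬ H.Adj x y := by
          intro x hx y hy hxy
          obtain ⟨k1, k2, k3⟩ := hins F hF x hx
          have hy' : y ∈ lkF H V (insert x F) := by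
            rw [← k3, mem_lk]
            exact ⟨hy, hxy⟩
          obtain ⟨k4, k5, -⟩ := hins _ k1 y hy'
          have := hcard _ k4
          omega
        refine ⟨?_, hno⟩
        have h3 : r L (1 + 1) = 0 := by
          rw [hr']
          apply rank_empty
          intro B hB hB2
          rw [hL'] at hB
          obtain ⟨a, b, hab, rfl⟩ := Finset.card_eq_two.1 hB2
          exact hno a (hB.1 (by simp)) b (hB.1 (by simp)) (hB.2 a (by simp) b (by simp) hab)
        rw [h3, if_pos (by omega)] at h1
        push_cast at h1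
        omega
      · obtain ⟨e', rfl⟩ : ∃ e', e = e' + 1 := ⟨e - 1, by omega⟩
        rw [if_neg (by omega)] at h1
        refine ⟨?_, ?_, ?_⟩
        · rw [Finset.nonempty_iff_ne_empty]
          intro hemp
          have h3 : r L 1 = 0 := by
            rw [hr']
            apply rank_empty
            intro B hB hB1
            rw [hL', hemp] at hB
            have := Finset.card_le_card hB.1
            rw [Finset.card_empty] at this
            omega
          omega
        · intro A hAU hAne hAneq
          by_contra hcon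
          push Not at hcon
          obtain ⟨a0, ha0⟩ := hAne
          obtain ⟨b0, hb0, hb0A⟩ : ∃ b ∈ lkF H V F, b ∉ A := by
            by_contra h
            push Not at h
            exact hAneq (Finset.Subset.antisymm hAU h)
          have hsg : ∀ x ∈ lkF H V F, ({x} : Finset (Fin n)) ∈ L := by
            intro x hx
            rw [hL']
            refine ⟨Finset.singleton_subset_iff.2 hx, ?_⟩
            intro a ha b hb hab
            rw [Finset.mem_singleton] at ha hb
            exact absurd (ha.trans hb.symm) hab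
          have h3 := rank_le k L A (by
            intro B hB v hv
            rw [hL'] at hB ⊢
            exact ⟨(Finset.erase_subset _ _).trans hB.1, fun x hx y hy hxy =>
              hB.2 x (Finset.mem_of_mem_erase hx) y (Finset.mem_of_mem_erase hy) hxy⟩) (by
            intro B hB hB2
            rw [hL'] at hB
            obtain ⟨a, b, hab, rfl⟩ := Finset.card_eq_two.1 hB2
            have hadj := hB.2 a (by simp) b (by simp) hab
            have haU := hB.1 (show a ∈ ({a, b} : Finset (Fin n)) by simp)
            have hbU := hB.1 (show b ∈ ({a, b} : Finset (Fin n)) by simp)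
            by_cases haA : a ∈ A
            · left
              have hbA : b ∈ A := by
                by_contra hbA
                exact hcon a haA b hbU hbA hadj
              intro z hz
              rw [Finset.mem_insert, Finset.mem_singleton] at hz
              rcases hz with rfl | rfl
              · exact haA
              · exact hbA
            · right
              have hbA : b ∉ A := fun hbA => hcon b hbA a haU haA hadj.symm
              rw [Finset.disjoint_left]
              intro z hz
              rw [Finset.mem_insert, Finset.mem_singleton] at hz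
              rcases hz with rfl | rfl
              · exact haA
              · exact hbA) a0 b0 (hsg a0 (hAU ha0)) (hsg b0 hb0) ha0 hb0A
          have h4 : (L.filter (fun G => G.card = 1)).card = (lkF H V F).card := by
            rw [hL]; exact hf1 F hF
          rw [h4, ← hr'] at h3
          have h5 : r L (1 + 1) = r L 2 := rfl
          omega
        · intro v hv
          obtain ⟨k1, k2, k3⟩ := hins F hF v hv
          rw [k3]
          exact ih _ k1 (by omega)
  have hempty : (∅ : Finset (Fin n)) ∈ S := by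
    rw [hmemS]
    simp
  have h := hmain d ∅ hempty (by simp)
  have e : lkF H V ∅ = V := by
    ext x
    simp [mem_lkF]
  rwa [e] at h

end Pool.Agent.W959.FS.A2
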