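import Pool.Agent.H87.L.W497_FS_Defs

set_option autoImplicit false

/-! FS-B: from the expansion in `x` to the gamma-expansion -/

namespace Pool.Agent.W959.FS.B

open Polynomial Pool.Agent.W497.FS

lemma unique_aux (m d : ℕ) (c : ℕ → ℚ)
    (h : ∑ i ∈ Finset.range (m + 1), (C (c i) * (X * (1 + X)) ^ i * (1 + 2 * X) ^ (d - 2 * i) : ℚ[X])
      = 0) : ∀ i ≤ m, c i = 0 := by
  intro i
  induction i using Nat.strong_induction_on with
  | _ i ih =>
    intro hi
    have hmem : i ∈ Finset.range (m + 1) := Finset.mem_range.2 (Nat.lt_succ_of_le hi)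
    have h1 : ((X * (1 + X)) ^ (i + 1) : ℚ[X]) ∣ ∑ j ∈ (Finset.range (m + 1)).erase i,
        (C (c j) * (X * (1 + X)) ^ j * (1 + 2 * X) ^ (d - 2 * j) : ℚ[X]) := by
      refine Finset.dvd_sum fun j hj => ?_
      rw [Finset.mem_erase, Finset.mem_range] at hj
      rcases lt_or_gt_of_ne hj.1 with hlt | hgt
      · rw [ih j hlt (by omega)]
        simp
      · exact Dvd.dvd.mul_right (Dvd.dvd.mul_left (pow_dvd_pow _ hgt) _) _
    rw [← Finset.add_sum_erase _ _ hmem] at h
    have h2 : ((X * (1 + X)) ^ (i + 1) : ℚ[X]) ∣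
        (C (c i) * (X * (1 + X)) ^ i * (1 + 2 * X) ^ (d - 2 * i) : ℚ[X]) := by
      rw [eq_neg_of_add_eq_zero_left h]
      exact (dvd_neg.2 h1)
    have h3 : (X * (1 + X) : ℚ[X]) ∣ C (c i) * (1 + 2 * X) ^ (d - 2 * i) := by
      have h4 : (X * (1 + X) : ℚ[X]) ^ i ≠ 0 := by
        apply pow_ne_zero
        apply mul_ne_zero X_ne_zero
        intro h0
        have := congrArg (Polynomial.eval 0) h0
        simp at this
      rw [pow_succ] at h2
      have e : (C (c i) * (X * (1 + X)) ^ i * (1 + 2 * X) ^ (d - 2 * i) : ℚ[X]) =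
        (X * (1 + X)) ^ i * (C (c i) * (1 + 2 * X) ^ (d - 2 * i)) := by ring
      rw [e] at h2
      exact (mul_dvd_mul_iff_left h4).1 h2
    obtain ⟨q, hq⟩ := h3
    have := congrArg (Polynomial.eval 0) hq
    simpa using this

theorem main : StmB := by
  intro d f γ a h1 h2
  have hx : ∀ x : ℚ, x ≠ -1 → ∑ i ∈ Finset.range (d / 2 + 1),
      ((γ i : ℚ) - a i) * (x * (1 + x)) ^ i * (1 + 2 * x) ^ (d - 2 * i) = 0 := by
    intro x hx
    have hx1 : (1 + x) ≠ 0 := fun h => hx (by linarith)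
    have e1 := congrArg (fun p => Polynomial.eval₂ (Int.castRingHom ℚ) (x / (1 + x)) p) h1
    have e2 := congrArg (fun p => Polynomial.eval₂ (Int.castRingHom ℚ) x p) h2
    simp only [Polynomial.eval₂_finsetSum, Polynomial.eval₂_mul, Polynomial.eval₂_pow,
      Polynomial.eval₂_C, Polynomial.eval₂_X, Polynomial.eval₂_sub, Polynomial.eval₂_add,
      Polynomial.eval₂_one, w, y, Polynomial.eval₂_ofNat] at e1 e2
    simp only [eq_intCast, Int.cast_natCast] at e1 e2
    have e3 : ∑ j ∈ Finset.range (d + 1), (f j : ℚ) * x ^ j =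
        ∑ i ∈ Finset.range (d / 2 + 1), (γ i : ℚ) * (x * (1 + x)) ^ i * (1 + 2 * x) ^ (d - 2 * i) := by
      have e4 : ∑ j ∈ Finset.range (d + 1), (f j : ℚ) * x ^ j = (1 + x) ^ d *
          ∑ j ∈ Finset.range (d + 1), (f j : ℚ) * (x / (1 + x)) ^ j * (1 - x / (1 + x)) ^ (d - j) := by
        rw [Finset.mul_sum]
        refine Finset.sum_congr rfl fun j hj => ?_
        rw [Finset.mem_range] at hj
        have hd : (1 + x) ^ d = (1 + x) ^ j * (1 + x) ^ (d - j) := by
          rw [← pow_add]; congr 1; omega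
        have e5 : 1 - x / (1 + x) = 1 / (1 + x) := by field_simp; ring
        rw [e5, hd, div_pow, div_pow]
        field_simp
        rw [one_pow, mul_one]
      have e6 : ∑ i ∈ Finset.range (d / 2 + 1),
          (γ i : ℚ) * (x * (1 + x)) ^ i * (1 + 2 * x) ^ (d - 2 * i) = (1 + x) ^ d *
          ∑ i ∈ Finset.range (d / 2 + 1), (γ i : ℚ) * (x / (1 + x)) ^ i *
            (1 + x / (1 + x)) ^ (d - 2 * i) := by
        rw [Finset.mul_sum]
        refine Finset.sum_congr rfl fun i hi => ?_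
        rw [Finset.mem_range] at hi
        have hd : (1 + x) ^ d = (1 + x) ^ i * (1 + x) ^ i * (1 + x) ^ (d - 2 * i) := by
          rw [← pow_add, ← pow_add]; congr 1; omega
        have e5 : 1 + x / (1 + x) = (1 + 2 * x) / (1 + x) := by field_simp; ring
        rw [e5, hd, div_pow, div_pow, mul_pow]
        field_simp
      rw [e4, e6, e1]
    rw [e3] at e2
    rw [← sub_eq_zero, ← Finset.sum_sub_distrib] at e2
    rw [← e2]
    refine Finset.sum_congr rfl fun i _ => ?_
    ring
  have hP : ∑ i ∈ Finset.range (d / 2 + 1),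
      (C ((γ i : ℚ) - a i) * (X * (1 + X)) ^ i * (1 + 2 * X) ^ (d - 2 * i) : ℚ[X]) = 0 := by
    apply Polynomial.eq_zero_of_infinite_isRoot
    refine Set.Infinite.mono (s := {x : ℚ | x ≠ -1}) ?_ ?_
    · intro x hx1
      have h3 := hx x hx1
      simp only [Set.mem_ofPred_eq, Polynomial.IsRoot.def, Polynomial.eval_finsetSum,
        Polynomial.eval_mul, Polynomial.eval_pow, Polynomial.eval_C, Polynomial.eval_X,
        Polynomial.eval_add, Polynomial.eval_one, Polynomial.eval_ofNat]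
      exact h3
    · exact (Set.finite_singleton (-1 : ℚ)).infinite_compl
  intro i hi
  have h4 := unique_aux (d / 2) d (fun i => (γ i : ℚ) - a i) hP i hi
  have h5 : (γ i : ℚ) = a i := by linarith
  exact_mod_cast h5

end Pool.Agent.W959.FS.B
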