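import Pool.Agent.H87.L.W497_FS_Sphere
import Pool.Agent.H87.L.W497_FS_Defect
import Pool.Agent.H87.L.W253_FS_A1
import Pool.Agent.H87.L.W959_FS_A2
import Pool.Agent.H87.L.W959_FS_B
import Pool.Agent.H87.L.W933_FS_F
import Pool.Agent.H87.L.W628_FS_F2
import Pool.Agent.H87.L.W605_FS_Del

set_option autoImplicit false
set_option linter.unusedVariables false

/-! # From the sphere definitions to the combinatorial theorems -/

namespace Pool.Agent.W497.FS

open Polynomial

theorem stmA1 : StmA1 := Pool.Agent.W253.FS.main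
theorem stmA2 : StmA2 := Pool.Agent.W959.FS.A2.main stmA1
theorem stmB : StmB := Pool.Agent.W959.FS.B.main
theorem stmF : StmF := Pool.Agent.W933.FS.main
theorem stmF2 : StmF2 := Pool.Agent.W628.FS.main
theorem stmDel : StmDel := Pool.Agent.W605.FS.Del.main

variable {k : Type} [Field k] {n d : ℕ} {S : Finset (Finset (Fin n))}

theorem IsFlagSphere.cl_eq (h : IsFlagSphere k d S) : cl (skel S) (vert S) = S := by
  obtain ⟨r, hr⟩ := h
  exact (stmA1 k n d S r hr).1

theorem IsFlagSphere.eul (h : IsFlagSphere k d S) : Eul (skel S) d (vert S) := by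
  obtain ⟨r, hr⟩ := h
  exact (stmA1 k n d S r hr).2.1

theorem IsFlagSphere.card_le (h : IsFlagSphere k d S) : ∀ F ∈ S, F.card ≤ d := by
  obtain ⟨r, hr⟩ := h
  exact (stmA1 k n d S r hr).2.2

theorem IsFlagSphere.np (h : IsFlagSphere k d S) : NP (skel S) d (vert S) := by
  obtain ⟨r, hr⟩ := h
  exact stmA2 k n d S r hr

theorem mem_vert {v : Fin n} : v ∈ vert S ↔ ({v} : Finset (Fin n)) ∈ S := by
  rw [vert, Finset.mem_filter]
  exact ⟨fun h => h.2, fun h => ⟨Finset.mem_univ _, h⟩⟩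

theorem numVert_eq : numVert S = (vert S).card := by
  symm
  rw [numVert]
  refine Finset.card_bij (fun a _ => {a}) ?_ ?_ ?_
  · intro a ha
    exact Finset.mem_filter.2 ⟨mem_vert.1 ha, Finset.card_singleton a⟩
  · intro a _ b _ hab
    exact Finset.singleton_injective hab
  · intro G hG
    obtain ⟨h1, h2⟩ := Finset.mem_filter.1 hG
    obtain ⟨a, rfl⟩ := Finset.card_eq_one.1 h2
    exact ⟨a, mem_vert.2 h1, rfl⟩

theorem numFactors_eq : numFactors S = (comps (skel S) (vert S)).card := by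
  classical
  rw [numFactors]
  congr 1
  ext C
  rw [mem_comps, Finset.mem_filter]
  constructor
  · rintro ⟨-, h1, h2, h3, h4⟩
    refine ⟨fun v hv => mem_vert.2 (h2 v hv), ⟨h1, fun A hA hne hneq => ?_⟩, fun c hc x hx hxC => ?_⟩
    · by_contra hcon
      apply hneq
      refine h4 A hA hne (fun v hv u hu huA => ?_)
      by_contra huv
      exact hcon ⟨v, hv, u, hu, huA, fun h => huv h.2⟩
    · exact ⟨fun h => hxC (h ▸ hc), h3 c hc x hxC (mem_vert.1 hx)⟩
  · rintro ⟨h1, h2, h3⟩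
    refine ⟨Finset.mem_univ _, h2.1, fun v hv => mem_vert.1 (h1 hv), fun v hv u hu huS =>
      (h3 v hv u (mem_vert.2 huS) hu).2, fun A hA hne hadj => ?_⟩
    by_contra hneq
    obtain ⟨a, ha, b, hb, hbA, hab⟩ := h2.2 A hA hne hneq
    exact hab ⟨fun h => hbA (h ▸ ha), hadj a ha b hb hbA⟩

theorem IsFlagSphere.FP_eq (h : IsFlagSphere k d S) :
    FP (skel S) (vert S) = ∑ j ∈ Finset.range (d + 1),
      C (((S.filter (fun G => G.card = j)).card : ℕ) : ℤ) * X ^ j := by
  rw [FP, h.cl_eq]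
  have h1 : ∀ σ ∈ S, σ.card ∈ Finset.range (d + 1) := fun σ hσ => by
    rw [Finset.mem_range]
    have := h.card_le σ hσ
    omega
  rw [← Finset.sum_fiberwise_of_maps_to h1]
  refine Finset.sum_congr rfl (fun j _ => ?_)
  have h2 : ∀ σ ∈ S.filter (fun G => G.card = j), (X : ℤ[X]) ^ σ.card = X ^ j := fun σ hσ => by
    rw [(Finset.mem_filter.1 hσ).2]
  rw [Finset.sum_congr rfl h2, Finset.sum_const, nsmul_eq_mul]
  simp

theorem IsFlagSphere.gamma_eq (h : IsFlagSphere k d S) {γ a : ℕ → ℤ} (hγ : IsGamma d S γ)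
    (ha : FP (skel S) (vert S) =
      ∑ i ∈ Finset.range (d / 2 + 1), C (a i) * w ^ i * y ^ (d - 2 * i)) :
    ∀ i ≤ d / 2, γ i = a i :=
  stmB d _ γ a hγ (by rw [← h.FP_eq, ha])

theorem IsFlagSphere.gamma_nonneg (h : IsFlagSphere k d S)
    (hG : FP (skel S) (vert S) ∈ GT ⊤ d) {γ : ℕ → ℤ} (hγ : IsGamma d S γ) :
    ∀ i ≤ d / 2, 0 ≤ γ i := by
  obtain ⟨a, ha, hpos⟩ := GT_coeffs hG
  intro i hi
  rw [h.gamma_eq hγ ha i hi]
  exact hpos i (WithTop.coe_lt_top i)

/-- Gal, defect at most one -/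
theorem gal_one (h : IsFlagSphere k d S) (hN : numVert S + numFactors S ≤ 3 * d + 1)
    {γ : ℕ → ℤ} (hγ : IsGamma d S γ) : ∀ i ≤ d / 2, 0 ≤ γ i := by
  rw [numVert_eq, numFactors_eq] at hN
  exact h.gamma_nonneg (gal_defect_le_one stmDel h.np h.eul hN) hγ

/-- Gal, few vertices -/
theorem gal_two (h : IsFlagSphere k d S) (hN : numVert S ≤ 2 * d + 6)
    {γ : ℕ → ℤ} (hγ : IsGamma d S γ) : ∀ i ≤ d / 2, 0 ≤ γ i := by
  rw [numVert_eq] at hN
  exact h.gamma_nonneg (gal_few stmF stmF2 h.np h.eul hN) hγ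

/-- vanishing -/
theorem gal_vanish (h : IsFlagSphere k d S) {γ : ℕ → ℤ} (hγ : IsGamma d S γ) :
    ∀ i ≤ d / 2, (numVert S < 2 * d + i → γ i = 0) ∧
      (numVert S = 2 * d + i → γ i = 0 ∨ γ i = 1) := by
  obtain ⟨a, ha, h1, h2⟩ := VV_coeffs (vanish h.np h.eul)
  have h3 := h.np.two_mul_le
  intro i hi
  rw [numVert_eq, h.gamma_eq hγ ha i hi]
  refine ⟨fun h4 => h1 i (by omega), fun h4 => ?_⟩
  have : (vert S).card - 2 * d = i := by omega
  rwa [this] at h2

theorem IsFlagSphere.omega_eq (h : IsFlagSphere k d S) :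
    omega S = lam (skel S) (vert S) := by
  rw [omega, lam, fe, h.cl_eq]
  refine Finset.sum_congr rfl (fun σ _ => ?_)
  rw [← div_pow]

/-- Charney-Davis, defect at most one -/
theorem cd_one {m : ℕ} (h : IsFlagSphere k (2 * m) S)
    (hN : numVert S + numFactors S ≤ 6 * m + 1) : 0 ≤ (-1) ^ m * omega S := by
  rw [numVert_eq, numFactors_eq] at hN
  rw [h.omega_eq]
  exact cd_defect_one h.np h.eul (by omega) m rfl

/-- Charney-Davis, few vertices -/
theorem cd_two {m : ℕ} (h : IsFlagSphere k (2 * m) S)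
    (hN : numVert S ≤ 5 * m + 3) : 0 ≤ (-1) ^ m * omega S := by
  rw [numVert_eq] at hN
  rw [h.omega_eq]
  exact cd_few stmF stmF2 h.np h.eul m rfl hN

/-- Charney-Davis quantity, very few vertices -/
theorem cd_three {m : ℕ} (h : IsFlagSphere k (2 * m) S) :
    (numVert S < 5 * m → omega S = 0) ∧
    (numVert S = 5 * m → omega S = 0 ∨ (-1) ^ m * omega S = 1 / 4 ^ m) := by
  rw [numVert_eq, h.omega_eq]
  obtain ⟨h1, h2⟩ := lam_few h.np h.eul
  refine ⟨h1, fun h3 => ?_⟩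
  rcases h2 h3 with h4 | h4
  · exact Or.inl h4
  · right
    rw [h4, neg_pow_quarter, one_div, one_div, inv_pow]

end Pool.Agent.W497.FS
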