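import Pool.Agent.H87.L.W497_FS_Tough

set_option autoImplicit false
set_option linter.unusedSectionVars false

/-! # Face polynomials, Dehn-Sommerville equations and the vertex formulas -/

namespace Pool.Agent.W497.FS

open Polynomial

variable {α : Type*} {H : SimpleGraph α} [DecidableEq α] {R : Type*} [CommRing R]

/-- the face polynomial evaluated at `x` -/
noncomputable def fe (H : SimpleGraph α) (W : Finset α) (x : R) : R := ∑ σ ∈ cl H W, x ^ σ.card

theorem FP_eq (W : Finset α) : FP H W = fe H W (X : ℤ[X]) := rfl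

theorem cl_of_subset {W σ τ : Finset α} (h : σ ∈ cl H W) (hτ : τ ⊆ σ) : τ ∈ cl H W := by
  rw [mem_cl] at h ⊢
  exact ⟨hτ.trans h.1, fun x hx y hy hxy => h.2 x (hτ hx) y (hτ hy) hxy⟩

theorem empty_mem_cl {W : Finset α} : (∅ : Finset α) ∈ cl H W := by
  rw [mem_cl]
  exact ⟨Finset.empty_subset _, fun x hx => absurd hx (Finset.notMem_empty x)⟩

theorem cl_mono {V W : Finset α} (h : V ⊆ W) : cl H V ⊆ cl H W := by
  intro σ hσ
  rw [mem_cl] at hσ ⊢
  exact ⟨hσ.1.trans h, hσ.2⟩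

theorem cl_empty : cl H (∅ : Finset α) = {∅} := by
  ext σ
  rw [mem_cl, Finset.mem_singleton, Finset.subset_empty]
  constructor
  · exact fun h => h.1
  · rintro rfl
    exact ⟨rfl, fun x hx => absurd hx (Finset.notMem_empty x)⟩

theorem fe_empty (x : R) : fe H (∅ : Finset α) x = 1 := by
  rw [fe, cl_empty, Finset.sum_singleton, Finset.card_empty, pow_zero]

/-- faces containing `κ` correspond to faces of the link of `κ` -/
theorem sum_sup {M : Type*} [AddCommMonoid M] {W κ : Finset α} (hκ : κ ∈ cl H W) (g : ℕ → M) :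
    ∑ σ ∈ (cl H W).filter (fun σ => κ ⊆ σ), g σ.card =
      ∑ ρ ∈ cl H (lkF H W κ), g (ρ.card + κ.card) := by
  have hκ' := mem_cl.1 hκ
  have hdisj : ∀ ρ ∈ cl H (lkF H W κ), Disjoint ρ κ := by
    intro ρ hρ
    rw [Finset.disjoint_left]
    intro x hx hxκ
    exact ((mem_lkF.1 ((mem_cl.1 hρ).1 hx)).2 x hxκ).ne rfl
  refine Finset.sum_bij' (fun σ _ => σ \ κ) (fun ρ _ => ρ ∪ κ) ?_ ?_ ?_ ?_ ?_
  · intro σ hσ
    obtain ⟨h1, h2⟩ := Finset.mem_filter.1 hσ
    rw [mem_cl] at h1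
    rw [mem_cl]
    refine ⟨fun x hx => ?_, fun x hx y hy hxy => ?_⟩
    · obtain ⟨hx1, hx2⟩ := Finset.mem_sdiff.1 hx
      exact mem_lkF.2 ⟨h1.1 hx1, fun y hy => h1.2 y (h2 hy) x hx1 (fun h => hx2 (h ▸ hy))⟩
    · exact h1.2 x (Finset.mem_sdiff.1 hx).1 y (Finset.mem_sdiff.1 hy).1 hxy
  · intro ρ hρ
    have hd := hdisj ρ hρ
    rw [mem_cl] at hρ
    refine Finset.mem_filter.2 ⟨?_, Finset.subset_union_right⟩
    rw [mem_cl]
    refine ⟨Finset.union_subset (fun x hx => (mem_lkF.1 (hρ.1 hx)).1) hκ'.1,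
      fun x hx y hy hxy => ?_⟩
    rcases Finset.mem_union.1 hx with hx | hx <;> rcases Finset.mem_union.1 hy with hy | hy
    · exact hρ.2 x hx y hy hxy
    · exact ((mem_lkF.1 (hρ.1 hx)).2 y hy).symm
    · exact (mem_lkF.1 (hρ.1 hy)).2 x hx
    · exact hκ'.2 x hx y hy hxy
  · intro σ hσ
    exact Finset.sdiff_union_of_subset (Finset.mem_filter.1 hσ).2
  · intro ρ hρ
    rw [Finset.union_sdiff_right]
    exact Finset.sdiff_eq_self_of_disjoint (hdisj ρ hρ)
  · intro σ hσ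
    congr 1
    have := Finset.card_sdiff_add_card_eq_card (Finset.mem_filter.1 hσ).2
    exact this.symm

theorem fe_join {A B : Finset α} (hAB : Full H A B) (x : R) :
    fe H (A ∪ B) x = fe H A x * fe H B x := by
  rw [fe, fe, fe, Finset.sum_mul_sum, ← Finset.sum_product']
  refine Finset.sum_bij' (fun σ _ => (σ ∩ A, σ ∩ B)) (fun p _ => p.1 ∪ p.2) ?_ ?_ ?_ ?_ ?_
  · intro σ hσ
    rw [mem_cl] at hσ
    rw [Finset.mem_product, mem_cl, mem_cl]
    exact ⟨⟨Finset.inter_subset_right, fun a ha b hb hab =>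
      hσ.2 a (Finset.mem_inter.1 ha).1 b (Finset.mem_inter.1 hb).1 hab⟩,
      ⟨Finset.inter_subset_right, fun a ha b hb hab =>
      hσ.2 a (Finset.mem_inter.1 ha).1 b (Finset.mem_inter.1 hb).1 hab⟩⟩
  · rintro ⟨p, q⟩ hpq
    rw [Finset.mem_product, mem_cl, mem_cl] at hpq
    obtain ⟨⟨h1, h2⟩, h3, h4⟩ := hpq
    simp only at h1 h2 h3 h4 ⊢
    rw [mem_cl]
    refine ⟨Finset.union_subset_union h1 h3, fun a ha b hb hab => ?_⟩
    rcases Finset.mem_union.1 ha with ha | ha <;> rcases Finset.mem_union.1 hb with hb | hb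
    · exact h2 a ha b hb hab
    · exact hAB a (h1 ha) b (h3 hb)
    · exact (hAB b (h1 hb) a (h3 ha)).symm
    · exact h4 a ha b hb hab
  · intro σ hσ
    rw [mem_cl] at hσ
    change (σ ∩ A) ∪ (σ ∩ B) = σ
    rw [← Finset.inter_union_distrib_left]
    exact Finset.inter_eq_left.2 hσ.1
  · rintro ⟨p, q⟩ hpq
    rw [Finset.mem_product, mem_cl, mem_cl] at hpq
    obtain ⟨⟨h1, h2⟩, h3, h4⟩ := hpq
    simp only at h1 h2 h3 h4 ⊢
    have hd := hAB.disjoint
    rw [Finset.disjoint_left] at hd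
    ext z
    · simp only [Finset.mem_inter, Finset.mem_union]
      constructor
      · rintro ⟨hz | hz, hzA⟩
        · exact hz
        · exact absurd (h3 hz) (hd hzA)
      · exact fun hz => ⟨Or.inl hz, h1 hz⟩
    · simp only [Finset.mem_inter, Finset.mem_union]
      constructor
      · rintro ⟨hz | hz, hzB⟩
        · exact absurd hzB (hd (h1 hz))
        · exact hz
      · exact fun hz => ⟨Or.inr hz, h3 hz⟩
  · intro σ hσ
    rw [mem_cl] at hσ
    change x ^ σ.card = x ^ (σ ∩ A).card * x ^ (σ ∩ B).card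
    rw [← pow_add, ← Finset.card_union_of_disjoint, ← Finset.inter_union_distrib_left,
      Finset.inter_eq_left.2 hσ.1]
    exact hAB.disjoint.mono Finset.inter_subset_right Finset.inter_subset_right

theorem fe_singleton (v : α) (x : R) : fe H {v} x = 1 + x := by
  have h : cl H ({v} : Finset α) = {∅, {v}} := by
    ext σ
    rw [mem_cl, Finset.mem_insert, Finset.mem_singleton, Finset.subset_singleton_iff]
    constructor
    · exact fun h => h.1
    · intro h
      refine ⟨h, fun a ha b hb hab => ?_⟩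
      rcases h with rfl | rfl
      · exact absurd ha (Finset.notMem_empty a)
      · rw [Finset.mem_singleton] at ha hb
        exact absurd (ha.trans hb.symm) hab
  have hne : (∅ : Finset α) ≠ {v} := (Finset.singleton_ne_empty v).symm
  rw [fe, h, Finset.sum_pair hne, Finset.card_empty, Finset.card_singleton, pow_zero, pow_one]

/-! ### Eulerian complexes -/

theorem eul_def {d : ℕ} {W : Finset α} : Eul H d W ↔ ∀ σ ∈ cl H W,
    ∑ τ ∈ (cl H W).filter (fun τ => σ ⊆ τ), (-1 : ℤ) ^ τ.card = (-1) ^ d := by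
  unfold Eul
  constructor
  · intro h σ hσ
    rw [← h σ hσ]
    congr
  · intro h σ hσ
    rw [← h σ hσ]
    congr

theorem Eul.of_parity {d e : ℕ} {W : Finset α} (h : Eul H d W) (hde : (-1 : ℤ) ^ d = (-1) ^ e) :
    Eul H e W := fun σ hσ => (h σ hσ).trans hde

theorem lkF_lkF {W κ σ : Finset α} : lkF H (lkF H W κ) σ = lkF H W (κ ∪ σ) := by
  ext x
  simp only [mem_lkF, Finset.mem_union]
  constructor
  · rintro ⟨⟨h1, h2⟩, h3⟩
    refine ⟨h1, fun y hy => ?_⟩
    rcases hy with hy | hy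
    · exact h2 y hy
    · exact h3 y hy
  · rintro ⟨h1, h2⟩
    exact ⟨⟨h1, fun y hy => h2 y (Or.inl hy)⟩, fun y hy => h2 y (Or.inr hy)⟩

theorem union_mem_cl {W κ σ : Finset α} (hκ : κ ∈ cl H W) (hσ : σ ∈ cl H (lkF H W κ)) :
    κ ∪ σ ∈ cl H W := by
  rw [mem_cl] at hκ hσ ⊢
  refine ⟨Finset.union_subset hκ.1 (fun x hx => (mem_lkF.1 (hσ.1 hx)).1), fun x hx y hy hxy => ?_⟩
  rcases Finset.mem_union.1 hx with hx | hx <;> rcases Finset.mem_union.1 hy with hy | hy
  · exact hκ.2 x hx y hy hxy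
  · exact (mem_lkF.1 (hσ.1 hy)).2 x hx
  · exact ((mem_lkF.1 (hσ.1 hx)).2 y hy).symm
  · exact hσ.2 x hx y hy hxy

theorem disjoint_of_mem_cl_lkF {W κ σ : Finset α} (hσ : σ ∈ cl H (lkF H W κ)) :
    Disjoint κ σ := by
  rw [Finset.disjoint_left]
  intro x hx hxσ
  exact ((mem_lkF.1 ((mem_cl.1 hσ).1 hxσ)).2 x hx).ne rfl

/-- reformulation: `Eul` says the reduced Euler characteristics of all links are spherical -/
theorem eul_iff {d : ℕ} {W : Finset α} :
    Eul H d W ↔ ∀ κ ∈ cl H W, fe H (lkF H W κ) (-1 : ℤ) = (-1) ^ (d + κ.card) := by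
  have key : ∀ κ ∈ cl H W, ∑ τ ∈ (cl H W).filter (fun τ => κ ⊆ τ), (-1 : ℤ) ^ τ.card =
      fe H (lkF H W κ) (-1 : ℤ) * (-1) ^ κ.card := by
    intro κ hκ
    rw [sum_sup hκ (fun n => (-1 : ℤ) ^ n), fe, Finset.sum_mul]
    exact Finset.sum_congr rfl (fun ρ _ => pow_add _ _ _)
  rw [eul_def]
  have hsq : ∀ n : ℕ, (-1 : ℤ) ^ n * (-1) ^ n = 1 := fun n => by
    rw [← mul_pow]; norm_num
  constructor
  · intro h κ hκ
    have h1 := h κ hκ
    rw [key κ hκ] at h1
    rw [pow_add, ← h1, mul_assoc, hsq, mul_one]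
  · intro h κ hκ
    rw [key κ hκ, h κ hκ, pow_add, mul_assoc, hsq, mul_one]

theorem Eul.lkF {d : ℕ} {W κ : Finset α} (h : Eul H d W) (hκ : κ ∈ cl H W) :
    Eul H (d + κ.card) (FS.lkF H W κ) := by
  rw [eul_iff] at h ⊢
  intro σ hσ
  rw [lkF_lkF, h _ (union_mem_cl hκ hσ), Finset.card_union_of_disjoint
    (disjoint_of_mem_cl_lkF hσ), add_assoc]

theorem lkF_singleton {W : Finset α} {v : α} : FS.lkF H W {v} = FS.lk H W v := by
  ext x
  rw [mem_lkF, mem_lk]
  simp

theorem singleton_mem_cl {W : Finset α} {v : α} (hv : v ∈ W) : ({v} : Finset α) ∈ cl H W := by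
  rw [mem_cl]
  refine ⟨Finset.singleton_subset_iff.2 hv, fun x hx y hy hxy => ?_⟩
  rw [Finset.mem_singleton] at hx hy
  exact absurd (hx.trans hy.symm) hxy

theorem Eul.lk {d : ℕ} {W : Finset α} (h : Eul H d W) {v : α} (hv : v ∈ W) :
    Eul H (d + 1) (FS.lk H W v) := by
  have := h.lkF (singleton_mem_cl hv)
  rwa [lkF_singleton, Finset.card_singleton] at this

theorem Eul.lk_succ {d : ℕ} {W : Finset α} (h : Eul H (d + 1) W) {v : α} (hv : v ∈ W) :
    Eul H d (FS.lk H W v) :=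
  (h.lk hv).of_parity (by rw [pow_succ, pow_succ]; ring)

/-- **Dehn-Sommerville** -/
theorem Eul.ds {d : ℕ} {W : Finset α} (h : Eul H d W) (x : R) :
    fe H W (-1 - x) = (-1) ^ d * fe H W x := by
  have h1 : ∀ σ ∈ cl H W, (-1 - x) ^ σ.card =
      ∑ ρ ∈ cl H W, if ρ ⊆ σ then (-1) ^ σ.card * x ^ ρ.card else 0 := by
    intro σ hσ
    have h2 : (-1 - x) ^ σ.card = (-1) ^ σ.card * (x + 1) ^ σ.card := by
      rw [← mul_pow]; congr 1; ring
    rw [h2, ← Finset.sum_pow_mul_eq_add_pow, Finset.mul_sum, ← Finset.sum_filter]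
    have h3 : (cl H W).filter (fun ρ => ρ ⊆ σ) = σ.powerset := by
      ext ρ
      rw [Finset.mem_filter, Finset.mem_powerset]
      exact ⟨fun h => h.2, fun h => ⟨cl_of_subset hσ h, h⟩⟩
    rw [h3]
    refine Finset.sum_congr rfl (fun ρ _ => ?_)
    rw [one_pow, mul_one]
  rw [fe, Finset.sum_congr rfl h1, Finset.sum_comm, fe, Finset.mul_sum]
  refine Finset.sum_congr rfl (fun ρ hρ => ?_)
  rw [← Finset.sum_filter, ← Finset.sum_mul]
  congr 1
  have h4 := eul_def.1 h ρ hρ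
  have h5 := congrArg (Int.cast : ℤ → R) h4
  push_cast at h5
  exact h5

/-- the faces meeting the set `M` of non-neighbours of `v`, by inclusion-exclusion -/
theorem fe_vertex1 {W : Finset α} {v : α} (hv : v ∈ W) (x : R) :
    fe H W x = (1 + x) * fe H (FS.lk H W v) x +
      ∑ κ ∈ (cl H (nn H W v)).erase ∅, (-1) ^ (κ.card + 1) * x ^ κ.card * fe H (FS.lkF H W κ) x := by
  set M := nn H W v with hM
  have hMW : M ⊆ W := fun z hz => (mem_nn.1 hz).1
  -- faces avoiding M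
  have hfull : Full H {v} (FS.lk H W v) := by
    intro a ha b hb
    rw [Finset.mem_singleton.1 ha]
    exact (mem_lk.1 hb).2
  have h1 : (1 + x) * fe H (FS.lk H W v) x = ∑ σ ∈ (cl H W).filter (fun σ => σ ∩ M = ∅),
      x ^ σ.card := by
    rw [← fe_singleton (H := H) v x, ← fe_join hfull, fe]
    refine Finset.sum_congr ?_ (fun _ _ => rfl)
    ext σ
    rw [Finset.mem_filter, mem_cl, mem_cl]
    constructor
    · rintro ⟨h1, h2⟩
      refine ⟨⟨fun z hz => ?_, h2⟩, ?_⟩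
      · rcases Finset.mem_union.1 (h1 hz) with h | h
        · rw [Finset.mem_singleton.1 h]; exact hv
        · exact lk_subset h
      · apply Finset.eq_empty_of_forall_notMem
        intro z hz
        obtain ⟨hz1, hz2⟩ := Finset.mem_inter.1 hz
        rw [hM, mem_nn] at hz2
        rcases Finset.mem_union.1 (h1 hz1) with h | h
        · exact hz2.2.1 (Finset.mem_singleton.1 h)
        · exact hz2.2.2 (mem_lk.1 h).2
    · rintro ⟨⟨h1, h2⟩, h3⟩
      refine ⟨fun z hz => ?_, h2⟩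
      by_contra hzn
      rw [Finset.mem_union, Finset.mem_singleton, not_or, mem_lk] at hzn
      have : z ∈ σ ∩ M := Finset.mem_inter.2 ⟨hz, mem_nn.2 ⟨h1 hz, hzn.1, fun h =>
        hzn.2 ⟨h1 hz, h⟩⟩⟩
      rw [h3] at this
      exact absurd this (Finset.notMem_empty z)
  have h2 : fe H W x = ∑ σ ∈ (cl H W).filter (fun σ => σ ∩ M = ∅), x ^ σ.card +
      ∑ σ ∈ (cl H W).filter (fun σ => ¬ σ ∩ M = ∅), x ^ σ.card := by
    rw [fe, Finset.sum_filter_add_sum_filter_not]
  rw [h2, h1]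
  congr 1
  -- each term of the right side
  have h3 : ∀ κ ∈ (cl H M).erase ∅, (-1) ^ (κ.card + 1) * x ^ κ.card * fe H (FS.lkF H W κ) x =
      ∑ σ ∈ cl H W, if κ ⊆ σ then (-1) ^ (κ.card + 1) * x ^ σ.card else 0 := by
    intro κ hκ
    have hκW : κ ∈ cl H W := cl_mono hMW (Finset.mem_erase.1 hκ).2
    have := sum_sup (H := H) hκW (fun n => (-1 : R) ^ (κ.card + 1) * x ^ n)
    rw [← Finset.sum_filter, this, fe, Finset.mul_sum]
    refine Finset.sum_congr rfl (fun ρ _ => ?_)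
    ring
  rw [Finset.sum_congr rfl h3, Finset.sum_comm, Finset.sum_filter]
  refine Finset.sum_congr rfl (fun σ hσ => ?_)
  rw [← Finset.sum_filter]
  have h4 : ((cl H M).erase ∅).filter (fun κ => κ ⊆ σ) = (σ ∩ M).powerset.erase ∅ := by
    ext κ
    rw [Finset.mem_filter, Finset.mem_erase, Finset.mem_erase, Finset.mem_powerset]
    constructor
    · rintro ⟨⟨ha, hb⟩, hc⟩
      exact ⟨ha, Finset.subset_inter hc (mem_cl.1 hb).1⟩
    · rintro ⟨ha, hb⟩
      refine ⟨⟨ha, ?_⟩, hb.trans Finset.inter_subset_left⟩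
      rw [mem_cl] at hσ ⊢
      exact ⟨hb.trans Finset.inter_subset_right, fun p hp q hq hpq =>
        hσ.2 p (Finset.inter_subset_left (hb hp)) q (Finset.inter_subset_left (hb hq)) hpq⟩
  rw [h4, ← Finset.sum_mul]
  have h5 : ∑ κ ∈ (σ ∩ M).powerset.erase ∅, (-1 : R) ^ (κ.card + 1) =
      if ¬ σ ∩ M = ∅ then 1 else 0 := by
    have h6 : ∑ κ ∈ (σ ∩ M).powerset, (-1 : R) ^ κ.card = if σ ∩ M = ∅ then 1 else 0 := by
      have := Finset.sum_pow_mul_eq_add_pow (-1 : R) 1 (σ ∩ M)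
      simp only [one_pow, mul_one, neg_add_cancel] at this
      rw [this]
      by_cases hc : σ ∩ M = ∅
      · rw [hc]; simp
      · rw [if_neg hc, zero_pow]
        exact fun h => hc (Finset.card_eq_zero.1 h)
    have h7 : ∑ κ ∈ (σ ∩ M).powerset.erase ∅, (-1 : R) ^ (κ.card + 1) =
        -(∑ κ ∈ (σ ∩ M).powerset.erase ∅, (-1 : R) ^ κ.card) := by
      rw [← Finset.sum_neg_distrib]
      refine Finset.sum_congr rfl (fun κ _ => ?_)
      ring
    have h8 := Finset.add_sum_erase (σ ∩ M).powerset (fun κ => (-1 : R) ^ κ.card)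
      (Finset.empty_mem_powerset _)
    simp only [Finset.card_empty, pow_zero] at h8
    rw [h7]
    rw [h6] at h8
    by_cases hc : σ ∩ M = ∅
    · rw [if_pos hc] at h8
      rw [if_neg (not_not.2 hc)]
      linear_combination -h8
    · rw [if_neg hc] at h8
      rw [if_pos hc]
      linear_combination -h8
  rw [h5]
  by_cases hc : σ ∩ M = ∅
  · simp [hc]
  · simp [hc]

end Pool.Agent.W497.FS
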