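import Pool.Agent.H87.L.W497_FS_Formula

set_option autoImplicit false
set_option linter.unusedSectionVars false

/-! # The vertex formulas -/

namespace Pool.Agent.W497.FS

open Polynomial

variable {α : Type*} {H : SimpleGraph α} [DecidableEq α] {R : Type*} [CommRing R]

theorem nn_subset {W : Finset α} {v : α} : nn H W v ⊆ W := fun _ hz => (mem_nn.1 hz).1

theorem neg_one_pow_sq (n : ℕ) : (-1 : R) ^ n * (-1) ^ n = 1 := by
  rw [← mul_pow]; norm_num

theorem fe_vertex2 {d : ℕ} {W : Finset α} (h : Eul H d W) {v : α} (hv : v ∈ W) (x : R) :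
    fe H W x = x * fe H (FS.lk H W v) x +
      ∑ κ ∈ (cl H (nn H W v)).erase ∅,
        (-1) ^ (κ.card + 1) * (1 + x) ^ κ.card * fe H (FS.lkF H W κ) x := by
  have h1 := fe_vertex1 (H := H) hv (-1 - x)
  rw [h.ds, (h.lk hv).ds] at h1
  have h2 : ∀ κ ∈ (cl H (nn H W v)).erase ∅,
      (-1) ^ (κ.card + 1) * (-1 - x) ^ κ.card * fe H (FS.lkF H W κ) (-1 - x) =
      (-1) ^ d * ((-1) ^ (κ.card + 1) * (1 + x) ^ κ.card * fe H (FS.lkF H W κ) x) := by
    intro κ hκ
    have hκW : κ ∈ cl H W := cl_mono nn_subset (Finset.mem_erase.1 hκ).2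
    rw [(h.lkF hκW).ds]
    have h3 : (-1 - x) ^ κ.card = (-1) ^ κ.card * (1 + x) ^ κ.card := by
      rw [← mul_pow]; congr 1; ring
    rw [h3, pow_add (-1 : R) d]
    have h4 := neg_one_pow_sq (R := R) κ.card
    linear_combination (-1) ^ (κ.card + 1) * (1 + x) ^ κ.card * (-1) ^ d *
      fe H (FS.lkF H W κ) x * h4
  rw [Finset.sum_congr rfl h2, ← Finset.mul_sum] at h1
  have h5 := neg_one_pow_sq (R := R) d
  have h6 : (-1 : R) ^ (d + 1) = - (-1) ^ d := by rw [pow_succ]; ring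
  rw [h6] at h1
  linear_combination (-1) ^ d * h1 - (fe H W x - x * fe H (FS.lk H W v) x -
    ∑ κ ∈ (cl H (nn H W v)).erase ∅,
      (-1) ^ (κ.card + 1) * (1 + x) ^ κ.card * fe H (FS.lkF H W κ) x) * h5

/-- `s_j = (1+x)^j - x^j` -/
def sj (x : R) (j : ℕ) : R := (1 + x) ^ j - x ^ j

theorem sj_zero (x : R) : sj x 0 = 0 := by simp [sj]
theorem sj_one (x : R) : sj x 1 = 1 := by simp [sj]
theorem sj_two (x : R) : sj x 2 = 1 + 2 * x := by simp only [sj]; ring
theorem sj_three (x : R) : sj x 3 = 1 + 3 * (x * (1 + x)) := by simp only [sj]; ring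
theorem sj_succ (x : R) (j : ℕ) : sj x (j + 2) = (1 + 2 * x) * sj x (j + 1) -
    x * (1 + x) * sj x j := by simp only [sj]; ring

/-- **main formula**: the face polynomial through a vertex link and faces among the
non-neighbours -/
theorem fe_vertex {d : ℕ} {W : Finset α} (h : Eul H d W) {v : α} (hv : v ∈ W) (x : R) :
    fe H W x = (1 + 2 * x) * fe H (FS.lk H W v) x + x * (1 + x) *
      ∑ κ ∈ cl H (nn H W v), (-1) ^ κ.card * sj x (κ.card - 1) * fe H (FS.lkF H W κ) x := by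
  have h1 := fe_vertex1 (H := H) hv x
  have h2 := fe_vertex2 h hv x
  rw [← Finset.add_sum_erase _ _ (empty_mem_cl (H := H) (W := nn H W v))]
  simp only [Finset.card_empty, pow_zero, one_mul, Nat.zero_sub, sj_zero, zero_mul, zero_add]
  have h3 : (1 + x) * ∑ κ ∈ (cl H (nn H W v)).erase ∅,
        (-1) ^ (κ.card + 1) * x ^ κ.card * fe H (FS.lkF H W κ) x -
      x * ∑ κ ∈ (cl H (nn H W v)).erase ∅,
        (-1) ^ (κ.card + 1) * (1 + x) ^ κ.card * fe H (FS.lkF H W κ) x =
      x * (1 + x) * ∑ κ ∈ (cl H (nn H W v)).erase ∅,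
        (-1) ^ κ.card * sj x (κ.card - 1) * fe H (FS.lkF H W κ) x := by
    rw [Finset.mul_sum, Finset.mul_sum, Finset.mul_sum, ← Finset.sum_sub_distrib]
    refine Finset.sum_congr rfl (fun κ hκ => ?_)
    have hpos : 0 < κ.card := Finset.card_pos.2
      (Finset.nonempty_iff_ne_empty.2 (Finset.mem_erase.1 hκ).1)
    obtain ⟨n, hn⟩ : ∃ n, κ.card = n + 1 := ⟨κ.card - 1, by omega⟩
    rw [hn, Nat.add_sub_cancel, sj]
    ring
  linear_combination (1 + x) * h1 - x * h2 + h3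

/-- the link of a vertex through the faces among its non-neighbours -/
theorem fe_link {d : ℕ} {W : Finset α} (h : Eul H d W) {v : α} (hv : v ∈ W) (x : R) :
    fe H (FS.lk H W v) x =
      ∑ κ ∈ cl H (nn H W v), (-1) ^ (κ.card + 1) * sj x κ.card * fe H (FS.lkF H W κ) x := by
  have h1 := fe_vertex1 (H := H) hv x
  have h2 := fe_vertex2 h hv x
  rw [← Finset.add_sum_erase _ _ (empty_mem_cl (H := H) (W := nn H W v))]
  simp only [Finset.card_empty, sj_zero, mul_zero, zero_mul, zero_add]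
  have h3 : ∑ κ ∈ (cl H (nn H W v)).erase ∅,
        (-1) ^ (κ.card + 1) * (1 + x) ^ κ.card * fe H (FS.lkF H W κ) x -
      ∑ κ ∈ (cl H (nn H W v)).erase ∅,
        (-1) ^ (κ.card + 1) * x ^ κ.card * fe H (FS.lkF H W κ) x =
      ∑ κ ∈ (cl H (nn H W v)).erase ∅,
        (-1) ^ (κ.card + 1) * sj x κ.card * fe H (FS.lkF H W κ) x := by
    rw [← Finset.sum_sub_distrib]
    refine Finset.sum_congr rfl (fun κ _ => ?_)
    rw [sj]; ring
  linear_combination h2 - h1 + h3

/-- the complex on the non-neighbours of `v` has reduced Euler characteristic zero -/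
theorem euler_nn {d : ℕ} {W : Finset α} (h : Eul H d W) {v : α} (hv : v ∈ W) :
    ∑ κ ∈ cl H (nn H W v), (-1 : ℤ) ^ κ.card = 0 := by
  have h1 := fe_vertex1 (H := H) hv (-1 : ℤ)
  rw [eul_iff] at h
  have h0 := h ∅ empty_mem_cl
  have hlk0 : FS.lkF H W ∅ = W := by
    ext x; rw [mem_lkF]; simp
  rw [hlk0, Finset.card_empty, add_zero] at h0
  rw [h0] at h1
  have h2 : ∀ κ ∈ (cl H (nn H W v)).erase ∅,
      (-1 : ℤ) ^ (κ.card + 1) * (-1) ^ κ.card * fe H (FS.lkF H W κ) (-1 : ℤ) =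
      -((-1) ^ d * (-1) ^ κ.card) := by
    intro κ hκ
    rw [h κ (cl_mono nn_subset (Finset.mem_erase.1 hκ).2), pow_add (-1 : ℤ) d]
    have h4 := neg_one_pow_sq (R := ℤ) κ.card
    rw [pow_succ]
    linear_combination (-(-1) ^ d * (-1) ^ κ.card) * h4
  rw [Finset.sum_congr rfl h2, Finset.sum_neg_distrib, ← Finset.mul_sum] at h1
  rw [← Finset.add_sum_erase _ _ (empty_mem_cl (H := H) (W := nn H W v)), Finset.card_empty,
    pow_zero]
  have h5 := neg_one_pow_sq (R := ℤ) d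
  have h6 : (-1 : ℤ) ^ d * (1 + ∑ κ ∈ (cl H (nn H W v)).erase ∅, (-1 : ℤ) ^ κ.card) = 0 := by
    linear_combination h1
  rcases mul_eq_zero.1 h6 with h7 | h7
  · exact absurd h7 (pow_ne_zero d (by norm_num))
  · exact h7

/-- links of faces -/
theorem NP.lkF {d : ℕ} {W κ : Finset α} (h : NP H d W) (hκ : κ ∈ cl H W) :
    ∃ e, e + κ.card = d ∧ NP H e (FS.lkF H W κ) ∧
      (FS.lkF H W κ).card + (comps H (FS.lkF H W κ)).card + 3 * κ.card ≤
        W.card + (comps H W).card ∧ (FS.lkF H W κ).card + 2 * κ.card ≤ W.card := by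
  induction κ using Finset.induction_on with
  | empty =>
    have hlk0 : FS.lkF H W ∅ = W := by
      ext x; rw [mem_lkF]; simp
    exact ⟨d, by simp, by rw [hlk0]; exact h, by rw [hlk0]; simp, by rw [hlk0]; simp⟩
  | insert v κ hv ih =>
    have hκ' : κ ∈ cl H W := cl_of_subset hκ (Finset.subset_insert v κ)
    obtain ⟨e, he, hNP, hdef, hcard⟩ := ih hκ'
    have hvl : v ∈ FS.lkF H W κ := by
      rw [mem_cl] at hκ
      exact mem_lkF.2 ⟨hκ.1 (Finset.mem_insert_self v κ), fun y hy => hκ.2 y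
        (Finset.mem_insert_of_mem hy) v (Finset.mem_insert_self v κ) (fun h => hv (h ▸ hy))⟩
    have hlk : FS.lkF H W (insert v κ) = FS.lk H (FS.lkF H W κ) v := by
      rw [← lkF_singleton, lkF_lkF, Finset.union_comm, ← Finset.insert_eq]
    obtain ⟨e', rfl, hNP'⟩ := hNP.lk' hvl
    have h1 := hNP.defect_lk v hvl
    have h2 := card_eq_lk_nn (H := H) hvl
    have h3 := Finset.card_pos.2 (hNP.nn_nonempty hvl)
    rw [Finset.card_insert_of_notMem hv]
    refine ⟨e', by omega, by rw [hlk]; exact hNP', ?_, ?_⟩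
    · rw [hlk]; omega
    · rw [hlk]; omega

theorem NP.card_le {d : ℕ} {W κ : Finset α} (h : NP H d W) (hκ : κ ∈ cl H W) : κ.card ≤ d := by
  obtain ⟨e, he, -⟩ := h.lkF hκ
  omega

theorem NP.two_mul_le {d : ℕ} {W : Finset α} (h : NP H d W) : 2 * d ≤ W.card := by
  induction d generalizing W with
  | zero => simp
  | succ d ih =>
    obtain ⟨v, hv⟩ := h.nonempty
    have h1 := ih (h.lk hv)
    have h2 := card_eq_lk_nn (H := H) hv
    have h3 := Finset.card_pos.2 (h.nn_nonempty hv)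
    omega

/-- facets exist -/
theorem NP.exists_facet {d : ℕ} {W : Finset α} (h : NP H d W) :
    ∃ β ∈ cl H W, β.card = d ∧ FS.lkF H W β = ∅ := by
  induction d generalizing W with
  | zero =>
    have h0 : W = ∅ := h
    refine ⟨∅, empty_mem_cl, rfl, ?_⟩
    ext x; rw [mem_lkF, h0]; simp
  | succ d ih =>
    obtain ⟨v, hv⟩ := h.nonempty
    obtain ⟨β, hβ, hc, he⟩ := ih (h.lk hv)
    have hv' := singleton_mem_cl (H := H) hv
    have hβ' : β ∈ cl H (FS.lkF H W {v}) := by rw [lkF_singleton]; exact hβ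
    have hu := union_mem_cl hv' hβ'
    have hd := disjoint_of_mem_cl_lkF hβ'
    refine ⟨{v} ∪ β, hu, ?_, ?_⟩
    · rw [Finset.card_union_of_disjoint hd, Finset.card_singleton, hc]; omega
    · rw [← lkF_lkF, lkF_singleton]; exact he

theorem Full.lkF_right {A B β : Finset α} (hAB : Full H A B) (hβ : β ⊆ B) :
    FS.lkF H (A ∪ B) β = A ∪ FS.lkF H B β := by
  ext x
  simp only [mem_lkF, Finset.mem_union]
  constructor
  · rintro ⟨h1 | h1, h2⟩
    · exact Or.inl h1
    · exact Or.inr ⟨h1, h2⟩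
  · rintro (h1 | ⟨h1, h2⟩)
    · exact ⟨Or.inl h1, fun y hy => (hAB x h1 y (hβ hy)).symm⟩
    · exact ⟨Or.inr h1, h2⟩

/-- join factors of Eulerian complexes are Eulerian -/
theorem Eul.left {d₁ d₂ : ℕ} {A B : Finset α} (hAB : Full H A B) (hB : NP H d₂ B)
    (h : Eul H (d₁ + d₂) (A ∪ B)) : Eul H d₁ A := by
  obtain ⟨β, hβ, hc, he⟩ := hB.exists_facet
  have h1 := h.lkF (cl_mono Finset.subset_union_right hβ)
  rw [hAB.lkF_right (mem_cl.1 hβ).1, he, Finset.union_empty, hc] at h1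
  exact h1.of_parity (by
    have := neg_one_pow_sq (R := ℤ) d₂
    rw [add_assoc, pow_add, pow_add (-1 : ℤ) d₂ d₂, this, mul_one])

theorem Eul.right {d₁ d₂ : ℕ} {A B : Finset α} (hAB : Full H A B) (hA : NP H d₁ A)
    (h : Eul H (d₁ + d₂) (A ∪ B)) : Eul H d₂ B := by
  rw [Finset.union_comm, add_comm] at h
  exact Eul.left hAB.symm hA h

/-- induction over join decompositions for Eulerian normal pseudomanifolds -/
theorem join_induction' {P : ℕ → Finset α → Prop} (h0 : P 0 ∅)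
    (hprm : ∀ d W, NP H (d + 1) W → Eul H (d + 1) W → Prm H W →
      (∀ e V, NP H e V → Eul H e V → V.card < W.card → P e V) → P (d + 1) W)
    (hjoin : ∀ d₁ d₂ A B, NP H (d₁ + 1) A → NP H (d₂ + 1) B → Eul H (d₁ + 1) A →
      Eul H (d₂ + 1) B → NP H (d₁ + 1 + (d₂ + 1)) (A ∪ B) →
      Full H A B → P (d₁ + 1) A → P (d₂ + 1) B → P (d₁ + 1 + (d₂ + 1)) (A ∪ B))
    {d : ℕ} {W : Finset α} (h : NP H d W) (hE : Eul H d W) : P d W := by
  induction hn : W.card using Nat.strong_induction_on generalizing d W with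
  | _ n ih =>
    subst hn
    rcases W.eq_empty_or_nonempty with rfl | hne
    · have : d = 0 := h.rank_unique (d' := 0) rfl
      rw [this]; exact h0
    by_cases hp : Prm H W
    · obtain ⟨v, hv⟩ := hne
      obtain ⟨e, rfl⟩ := h.rank_pos hv
      exact hprm e W h hE hp (fun e V hV hEV hc => ih V.card hc hV hEV rfl)
    · obtain ⟨A, B, hA, hB, hAB, rfl⟩ := split_of_not_prm hne hp
      obtain ⟨d₁, d₂, rfl, h1, h2⟩ := h.split hAB
      have e1 := hE.left hAB h2
      have e2 := hE.right hAB h1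
      have hc := Finset.card_union_of_disjoint hAB.disjoint
      have hA' := Finset.card_pos.2 hA
      have hB' := Finset.card_pos.2 hB
      obtain ⟨a, ha⟩ := hA
      obtain ⟨b, hb⟩ := hB
      obtain ⟨e₁, rfl⟩ := h1.rank_pos ha
      obtain ⟨e₂, rfl⟩ := h2.rank_pos hb
      exact hjoin e₁ e₂ A B h1 h2 e1 e2 h hAB (ih A.card (by omega) h1 e1 rfl)
        (ih B.card (by omega) h2 e2 rfl)

end Pool.Agent.W497.FS
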