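import Pool.Agent.H87.L.W497_FS_Basic

set_option autoImplicit false

/-! # Further part statements: connectedness after deleting a vertex -/

namespace Pool.Agent.W497.FS

/-- FS-DEL: a normal pseudomanifold of rank at least two stays connected when one vertex is
deleted. -/
def StmDel : Prop :=
  ∀ (α : Type) (_ : DecidableEq α) (H : SimpleGraph α) (r : ℕ) (X : Finset α) (c : α),
    NP H (r + 2) X → c ∈ X → SConn H (X.erase c)

end Pool.Agent.W497.FS
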