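import Pool.Agent.H87.L.W497_FS_Glue

set_option autoImplicit false
set_option linter.unusedSectionVars false
set_option linter.unusedVariables false

/-! # A good root for a triangle of non-neighbours -/

namespace Pool.Agent.W497.FS

open Polynomial

variable {α : Type} [DecidableEq α]

theorem Prm_congr {H H' : SimpleGraph α} {W : Finset α}
    (hc : ∀ x ∈ W, ∀ z ∈ W, H.Adj x z ↔ H'.Adj x z) (h : Prm H W) : Prm H' W := by
  refine ⟨h.1, fun A hA hne hneq => ?_⟩
  obtain ⟨a, ha, b, hb, hbA, hab⟩ := h.2 A hA hne hneq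
  exact ⟨a, ha, b, hb, hbA, fun h => hab ((hc a (hA ha) b hb).2 h)⟩

open scoped Classical in
/-- common neighbours of `a` and `b` in `L` -/
noncomputable def KK (H : SimpleGraph α) (L : Finset α) (a b : α) : Finset α :=
  L.filter (fun u => H.Adj a u ∧ H.Adj b u)

theorem mem_KK {H : SimpleGraph α} {L : Finset α} {a b u : α} :
    u ∈ KK H L a b ↔ u ∈ L ∧ H.Adj a u ∧ H.Adj b u := by
  classical
  simp [KK]

/-- the vertices of `Σ_a` -/
noncomputable def SS (H : SimpleGraph α) (L : Finset α) (a b c : α) : Finset α :=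
  KK H L a b ∪ KK H L a c

/-- the factors of `Σ_a` inside the common link -/
noncomputable def PP (H : SimpleGraph α) (L : Finset α) (a b c : α) : Finset (Finset α) :=
  (comps (glueG H (KK H L a b) (KK H L a c)) (SS H L a b c)).filter
    (fun P => P ⊆ KK H L a b ∩ KK H L a c)

theorem PP_card {H : SimpleGraph α} {L : Finset α} {a b c : α}
    (h1 : ∃ u ∈ KK H L a b, u ∉ KK H L a c) (h2 : ∃ u ∈ KK H L a c, u ∉ KK H L a b) :
    (comps (glueG H (KK H L a b) (KK H L a c)) (SS H L a b c)).card ≤ (PP H L a b c).card + 1 := by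
  classical
  set H' := glueG H (KK H L a b) (KK H L a c) with hH'
  set S := SS H L a b c with hS
  obtain ⟨p, hp1, hp2⟩ := h1
  obtain ⟨q, hq1, hq2⟩ := h2
  have hnadj : ∀ p q, p ∈ KK H L a b → p ∉ KK H L a c → q ∉ KK H L a b → ¬ H'.Adj p q := by
    intro p q hp hp' hq hadj
    rcases hadj.2 with h | h
    · exact hq h.2
    · exact hp' h.1
  have hpS : p ∈ S := Finset.mem_union_left _ hp1
  obtain ⟨P₀, hP₀, hpP₀⟩ := exists_comp (H := H') hpS
  have key : ∀ P ∈ comps H' S, P ∉ PP H L a b c → P = P₀ := by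
    intro P hP hPP
    have hns : ¬ P ⊆ KK H L a b ∩ KK H L a c := fun h => hPP (Finset.mem_filter.2 ⟨hP, h⟩)
    obtain ⟨u, huP, hu⟩ := Finset.not_subset.1 hns
    have huS := (mem_comps.1 hP).1 huP
    -- comp of q
    have hqS : q ∈ S := Finset.mem_union_right _ hq1
    obtain ⟨Q, hQ, hqQ⟩ := exists_comp (H := H') hqS
    have hsame : ∀ A ∈ comps H' S, ∀ B ∈ comps H' S, ∀ x ∈ A, ∀ z ∈ B, ¬ H'.Adj x z → A = B := by
      intro A hA B hB x hx z hz hxz
      by_contra hne
      have hzA : z ∉ A := fun h => hne (comps_eq_of_inter hA hB h hz)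
      exact hxz ((mem_comps.1 hA).2.2 x hx z ((mem_comps.1 hB).1 hz) hzA)
    have hPQ0 : P₀ = Q := hsame P₀ hP₀ Q hQ p hpP₀ q hqQ (hnadj p q hp1 hp2 hq2)
    by_cases hu1 : u ∈ KK H L a b
    · have hu2 : u ∉ KK H L a c := fun h => hu (Finset.mem_inter.2 ⟨hu1, h⟩)
      rw [hPQ0]
      exact hsame P hP Q hQ u huP q hqQ (hnadj u q hu1 hu2 hq2)
    · refine hsame P hP P₀ hP₀ u huP p hpP₀ (fun h => hnadj p u hp1 hp2 hu1 h.symm)
  have hsub : comps H' S ⊆ insert P₀ (PP H L a b c) := by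
    intro P hP
    by_cases hPP : P ∈ PP H L a b c
    · exact Finset.mem_insert_of_mem hPP
    · rw [key P hP hPP]; exact Finset.mem_insert_self _ _
  exact (Finset.card_le_card hsub).trans (Finset.card_insert_le _ _)

theorem PP_comps {H : SimpleGraph α} {L : Finset α} {a b c : α} {P : Finset α}
    (hP : P ∈ PP H L a b c) : P ∈ comps H (KK H L a b ∩ KK H L a c) ∧
      ∀ p ∈ P, ∀ u ∈ SS H L a b c, u ∉ P → H.Adj p u := by
  obtain ⟨h1, h2⟩ := Finset.mem_filter.1 hP
  obtain ⟨k1, k2, k3⟩ := mem_comps.1 h1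
  have hfull : ∀ p ∈ P, ∀ u ∈ SS H L a b c, u ∉ P → H.Adj p u :=
    fun p hp u hu huP => (k3 p hp u hu huP).1
  refine ⟨mem_comps.2 ⟨h2, ?_, fun p hp u hu huP => hfull p hp u ?_ huP⟩, hfull⟩
  · refine Prm_congr (fun x hx z hz => ?_) k2
    have hx' := Finset.mem_inter.1 (h2 hx)
    have hz' := Finset.mem_inter.1 (h2 hz)
    rw [glueG_adj]
    tauto
  · exact Finset.mem_union_left _ (Finset.mem_inter.1 hu).1

theorem card_three {ι : Type} [DecidableEq ι] (U A B C : Finset ι) (hA : A ⊆ U) (hB : B ⊆ U)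
    (hC : C ⊆ U) : A.card + B.card + C.card ≤
      U.card + 2 * ((A ∩ B) ∪ (A ∩ C) ∪ (B ∩ C)).card := by
  have e : ∀ X ⊆ U, X.card = ∑ i ∈ U, if i ∈ X then 1 else 0 := by
    intro X hX
    rw [← Finset.sum_filter, Finset.filter_mem_eq_inter, Finset.inter_eq_right.2 hX]
    simp
  have hsub : (A ∩ B) ∪ (A ∩ C) ∪ (B ∩ C) ⊆ U := by
    intro x hx
    simp only [Finset.mem_union, Finset.mem_inter] at hx
    rcases hx with (h | h) | h
    · exact hA h.1
    · exact hA h.1
    · exact hB h.1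
  rw [e A hA, e B hB, e C hC, e _ hsub, Finset.card_eq_sum_ones, Finset.mul_sum,
    ← Finset.sum_add_distrib, ← Finset.sum_add_distrib, ← Finset.sum_add_distrib]
  refine Finset.sum_le_sum (fun i _ => ?_)
  simp only [Finset.mem_union, Finset.mem_inter]
  by_cases h1 : i ∈ A <;> by_cases h2 : i ∈ B <;> by_cases h3 : i ∈ C <;> simp [h1, h2, h3]

/-- one of the three roots of a triangle of non-neighbours has small defect -/
theorem exists_root {H : SimpleGraph α} {d : ℕ} {W : Finset α} (h : NP H d W) (hp : Prm H W)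
    (hW : W.card ≤ 3 * d) {v a b c : α} (hv : v ∈ W) (hM : nn H W v = {a, b, c})
    (hab : H.Adj a b) (hac : H.Adj a c) (hbc : H.Adj b c) :
    (SS H (lk H W v) a b c).card + (comps (glueG H (KK H (lk H W v) a b) (KK H (lk H W v) a c))
      (SS H (lk H W v) a b c)).card + 5 ≤ 3 * d ∨
    (SS H (lk H W v) b a c).card + (comps (glueG H (KK H (lk H W v) b a) (KK H (lk H W v) b c))
      (SS H (lk H W v) b a c)).card + 5 ≤ 3 * d ∨
    (SS H (lk H W v) c a b).card + (comps (glueG H (KK H (lk H W v) c a) (KK H (lk H W v) c b))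
      (SS H (lk H W v) c a b)).card + 5 ≤ 3 * d := by
  classical
  by_contra hcon
  push Not at hcon
  obtain ⟨ha5, hb5, hc5⟩ := hcon
  set L := lk H W v with hL
  have haM : a ∈ nn H W v := by rw [hM]; simp
  have hbM : b ∈ nn H W v := by rw [hM]; simp
  have hcM : c ∈ nn H W v := by rw [hM]; simp
  obtain ⟨haW, hav, hva⟩ := mem_nn.1 haM
  obtain ⟨hbW, hbv, hvb⟩ := mem_nn.1 hbM
  obtain ⟨hcW, hcv, hvc⟩ := mem_nn.1 hcM
  have hcardM : (nn H W v).card = 3 := by
    rw [hM, Finset.card_eq_three]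
    exact ⟨a, b, c, hab.ne, hac.ne, hbc.ne, rfl⟩
  have hLcard := card_eq_lk_nn (H := H) hv
  rw [← hL] at hLcard
  -- vertices of the face {a,b,c}
  have habc : ({a, b, c} : Finset α) ∈ cl H W := by
    rw [mem_cl]
    refine ⟨by rw [← hM]; exact nn_subset, fun x hx z hz hxz => ?_⟩
    simp only [Finset.mem_insert, Finset.mem_singleton] at hx hz
    rcases hx with rfl | rfl | rfl <;> rcases hz with rfl | rfl | rfl
    · exact absurd rfl hxz
    · exact hab
    · exact hac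
    · exact hab.symm
    · exact absurd rfl hxz
    · exact hbc
    · exact hac.symm
    · exact hbc.symm
    · exact absurd rfl hxz
  have hc3 : ({a, b, c} : Finset α).card = 3 := by rw [← hM]; exact hcardM
  -- a vertex adjacent to one of a, b, c and not in {a,b,c} lies in L
  have inL : ∀ u ∈ W, u ≠ v → u ≠ a → u ≠ b → u ≠ c → u ∈ L := by
    intro u hu huv h1 h2 h3
    by_contra hn
    have : u ∈ nn H W v := mem_nn.2 ⟨hu, huv, fun h => hn (mem_lk.2 ⟨hu, h⟩)⟩
    rw [hM] at this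
    simp only [Finset.mem_insert, Finset.mem_singleton] at this
    tauto
  set D := lkF H W {a, b, c} with hD
  have memD : ∀ u, u ∈ D ↔ u ∈ L ∧ H.Adj a u ∧ H.Adj b u ∧ H.Adj c u := by
    intro u
    rw [hD, mem_lkF]
    simp only [Finset.mem_insert, Finset.mem_singleton, forall_eq_or_imp, forall_eq]
    constructor
    · rintro ⟨h1, h2, h3, h4⟩
      exact ⟨inL u h1 (fun h => hva (h ▸ h2).symm) h2.ne.symm h3.ne.symm h4.ne.symm, h2, h3, h4⟩
    · rintro ⟨h1, h2⟩
      exact ⟨lk_subset h1, h2⟩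
  -- the types
  set Ta := L.filter (fun u => ¬ H.Adj a u ∧ H.Adj b u ∧ H.Adj c u) with hTa
  set Tb := L.filter (fun u => ¬ H.Adj b u ∧ H.Adj a u ∧ H.Adj c u) with hTb
  set Tc := L.filter (fun u => ¬ H.Adj c u ∧ H.Adj a u ∧ H.Adj b u) with hTc
  set I := L.filter (fun u => ¬ (H.Adj a u ∧ H.Adj b u) ∧ ¬ (H.Adj a u ∧ H.Adj c u) ∧
    ¬ (H.Adj b u ∧ H.Adj c u)) with hI
  have hpart : L.card = D.card + Ta.card + Tb.card + Tc.card + I.card := by
    have e : ∀ X ⊆ L, X.card = ∑ u ∈ L, if u ∈ X then 1 else 0 := by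
      intro X hX
      rw [← Finset.sum_filter, Finset.filter_mem_eq_inter, Finset.inter_eq_right.2 hX]
      simp
    rw [e D (fun u hu => ((memD u).1 hu).1), e Ta (Finset.filter_subset _ _),
      e Tb (Finset.filter_subset _ _), e Tc (Finset.filter_subset _ _),
      e I (Finset.filter_subset _ _), Finset.card_eq_sum_ones, ← Finset.sum_add_distrib,
      ← Finset.sum_add_distrib, ← Finset.sum_add_distrib, ← Finset.sum_add_distrib]
    refine Finset.sum_congr rfl (fun u hu => ?_)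
    simp only [memD, hTa, hTb, hTc, hI, Finset.mem_filter, hu, true_and]
    by_cases h1 : H.Adj a u <;> by_cases h2 : H.Adj b u <;> by_cases h3 : H.Adj c u <;>
      simp [h1, h2, h3]
  have hcardS : ∀ x z t : α, ∀ Tx Tz : Finset α,
      (∀ u, u ∈ Tx ↔ u ∈ L ∧ ¬ H.Adj z u ∧ H.Adj x u ∧ H.Adj t u) →
      (∀ u, u ∈ Tz ↔ u ∈ L ∧ ¬ H.Adj t u ∧ H.Adj x u ∧ H.Adj z u) →
      (∀ u, u ∈ D ↔ u ∈ L ∧ H.Adj x u ∧ H.Adj z u ∧ H.Adj t u) →
      (SS H L x z t).card = Tx.card + Tz.card + D.card := by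
    intro x z t Tx Tz h1 h2 h3
    have e : ∀ X ⊆ L, X.card = ∑ u ∈ L, if u ∈ X then 1 else 0 := by
      intro X hX
      rw [← Finset.sum_filter, Finset.filter_mem_eq_inter, Finset.inter_eq_right.2 hX]
      simp
    rw [e (SS H L x z t) (fun u hu => by
        rcases Finset.mem_union.1 hu with h | h <;> exact (mem_KK.1 h).1),
      e Tx (fun u hu => ((h1 u).1 hu).1), e Tz (fun u hu => ((h2 u).1 hu).1),
      e D (fun u hu => ((h3 u).1 hu).1), ← Finset.sum_add_distrib, ← Finset.sum_add_distrib]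
    refine Finset.sum_congr rfl (fun u hu => ?_)
    simp only [h1, h2, h3, SS, Finset.mem_union, mem_KK, hu, true_and]
    by_cases k1 : H.Adj x u <;> by_cases k2 : H.Adj z u <;> by_cases k3 : H.Adj t u <;>
      simp [k1, k2, k3]
  have mTa : ∀ u, u ∈ Ta ↔ u ∈ L ∧ ¬ H.Adj a u ∧ H.Adj b u ∧ H.Adj c u := fun u => by
    rw [hTa, Finset.mem_filter]
  have mTb : ∀ u, u ∈ Tb ↔ u ∈ L ∧ ¬ H.Adj b u ∧ H.Adj a u ∧ H.Adj c u := fun u => by
    rw [hTb, Finset.mem_filter]
  have mTc : ∀ u, u ∈ Tc ↔ u ∈ L ∧ ¬ H.Adj c u ∧ H.Adj a u ∧ H.Adj b u := fun u => by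
    rw [hTc, Finset.mem_filter]
  have sa := hcardS a b c Tb Tc mTb mTc memD
  have sb := hcardS b a c Ta Tc mTa (fun u => by rw [mTc]; tauto) (fun u => by rw [memD]; tauto)
  have sc := hcardS c a b Ta Tb (fun u => by rw [mTa]; tauto) (fun u => by rw [mTb]; tauto)
    (fun u => by rw [memD]; tauto)
  -- nonemptiness of the types
  have hTne : ∀ x z t : α, ({x, z} : Finset α) ⊆ {a, b, c} → H.Adj x z → H.Adj x t → H.Adj z t →
      t ∈ W → (∀ u, u ∈ W → u ≠ v → u ≠ x → u ≠ z → u ≠ t → u ∈ L) → ¬ H.Adj v x →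
      ∃ u ∈ L, H.Adj x u ∧ H.Adj z u ∧ ¬ H.Adj t u := by
    intro x z t hsub hxz hxt hzt htW hin hvx
    obtain ⟨e, he, hNP, -, -⟩ := h.lkF (cl_of_subset habc hsub)
    have ht : t ∈ lkF H W {x, z} := by
      rw [mem_lkF]
      refine ⟨htW, fun y hy => ?_⟩
      simp only [Finset.mem_insert, Finset.mem_singleton] at hy
      rcases hy with rfl | rfl
      · exact hxt
      · exact hzt
    obtain ⟨u, hu1, hu2, hu3⟩ := hNP.exists_nonadj ht
    rw [mem_lkF] at hu1
    simp only [Finset.mem_insert, Finset.mem_singleton, forall_eq_or_imp, forall_eq] at hu1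
    obtain ⟨huW, hux, huz⟩ := hu1
    exact ⟨u, hin u huW (fun h => hvx (h ▸ hux).symm) hux.ne.symm huz.ne.symm hu2, hux, huz, hu3⟩
  obtain ⟨ta, hta1, hta2, hta3, hta4⟩ := hTne b c a (by
    intro z hz; simp only [Finset.mem_insert, Finset.mem_singleton] at hz ⊢; tauto)
    hbc hab.symm hac.symm haW (fun u h1 h2 h3 h4 h5 => inL u h1 h2 h5 h3 h4) hvb
  obtain ⟨tb, htb1, htb2, htb3, htb4⟩ := hTne a c b (by
    intro z hz; simp only [Finset.mem_insert, Finset.mem_singleton] at hz ⊢; tauto)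
    hac hab hbc.symm hbW (fun u h1 h2 h3 h4 h5 => inL u h1 h2 h3 h5 h4) hva
  obtain ⟨tc, htc1, htc2, htc3, htc4⟩ := hTne a b c (by
    intro z hz; simp only [Finset.mem_insert, Finset.mem_singleton] at hz ⊢; tauto)
    hab hac hbc hcW (fun u h1 h2 h3 h4 h5 => inL u h1 h2 h3 h4 h5) hva
  have pa := PP_card (H := H) (L := L) (a := a) (b := b) (c := c)
    ⟨tc, mem_KK.2 ⟨htc1, htc2, htc3⟩, fun h => htc4 (mem_KK.1 h).2.2⟩
    ⟨tb, mem_KK.2 ⟨htb1, htb2, htb3⟩, fun h => htb4 (mem_KK.1 h).2.2⟩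
  have pb := PP_card (H := H) (L := L) (a := b) (b := a) (c := c)
    ⟨tc, mem_KK.2 ⟨htc1, htc3, htc2⟩, fun h => htc4 (mem_KK.1 h).2.2⟩
    ⟨ta, mem_KK.2 ⟨hta1, hta2, hta3⟩, fun h => hta4 (mem_KK.1 h).2.2⟩
  have pc := PP_card (H := H) (L := L) (a := c) (b := a) (c := b)
    ⟨tb, mem_KK.2 ⟨htb1, htb3, htb2⟩, fun h => htb4 (mem_KK.1 h).2.2⟩
    ⟨ta, mem_KK.2 ⟨hta1, hta3, hta2⟩, fun h => hta4 (mem_KK.1 h).2.2⟩
  -- they are factors of D
  have hDa : KK H L a b ∩ KK H L a c = D := by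
    ext u; rw [Finset.mem_inter, mem_KK, mem_KK, memD]; tauto
  have hDb : KK H L b a ∩ KK H L b c = D := by
    ext u; rw [Finset.mem_inter, mem_KK, mem_KK, memD]; tauto
  have hDc : KK H L c a ∩ KK H L c b = D := by
    ext u; rw [Finset.mem_inter, mem_KK, mem_KK, memD]; tauto
  have qa : PP H L a b c ⊆ comps H D := fun P hP => by
    have := (PP_comps hP).1; rwa [hDa] at this
  have qb : PP H L b a c ⊆ comps H D := fun P hP => by
    have := (PP_comps hP).1; rwa [hDb] at this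
  have qc : PP H L c a b ⊆ comps H D := fun P hP => by
    have := (PP_comps hP).1; rwa [hDc] at this
  have h3 := card_three _ _ _ _ qa qb qc
  set B := (PP H L a b c ∩ PP H L b a c) ∪ (PP H L a b c ∩ PP H L c a b) ∪
    (PP H L b a c ∩ PP H L c a b) with hB
  -- defect of D
  obtain ⟨e, he, hNPD, hdefD, -⟩ := h.lkF habc
  rw [comps_prm hp, Finset.card_singleton, hc3, ← hD] at hdefD
  -- B consists of components of W \ I
  have hIW : I ⊆ W := fun u hu => lk_subset (Finset.mem_filter.1 hu).1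
  have hBcomp : B ⊆ comps H (W \ I) := by
    intro P hP
    have hPD : P ∈ comps H D := by
      simp only [hB, Finset.mem_union, Finset.mem_inter] at hP
      rcases hP with (h | h) | h
      · exact qa h.1
      · exact qa h.1
      · exact qb h.1
    obtain ⟨k1, k2, k3⟩ := mem_comps.1 hPD
    have hS : ∀ p ∈ P, ∀ u ∈ L, u ∉ I → u ∉ P → H.Adj p u := by
      intro p hpP u hu huI huP
      have huI' : (H.Adj a u ∧ H.Adj b u) ∨ (H.Adj a u ∧ H.Adj c u) ∨ (H.Adj b u ∧ H.Adj c u) := by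
        by_contra hno
        push Not at hno
        exact huI (Finset.mem_filter.2 ⟨hu, by tauto⟩)
      simp only [hB, Finset.mem_union, Finset.mem_inter] at hP
      rcases hP with (⟨ha1, hb1⟩ | ⟨ha1, hc1⟩) | ⟨hb1, hc1⟩
      · rcases huI' with h | h | h
        · exact (PP_comps ha1).2 p hpP u (Finset.mem_union_left _ (mem_KK.2 ⟨hu, h.1, h.2⟩)) huP
        · exact (PP_comps ha1).2 p hpP u (Finset.mem_union_right _ (mem_KK.2 ⟨hu, h.1, h.2⟩)) huP
        · exact (PP_comps hb1).2 p hpP u (Finset.mem_union_right _ (mem_KK.2 ⟨hu, h.1, h.2⟩)) huP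
      · rcases huI' with h | h | h
        · exact (PP_comps ha1).2 p hpP u (Finset.mem_union_left _ (mem_KK.2 ⟨hu, h.1, h.2⟩)) huP
        · exact (PP_comps ha1).2 p hpP u (Finset.mem_union_right _ (mem_KK.2 ⟨hu, h.1, h.2⟩)) huP
        · exact (PP_comps hc1).2 p hpP u (Finset.mem_union_right _ (mem_KK.2 ⟨hu, h.2, h.1⟩)) huP
      · rcases huI' with h | h | h
        · exact (PP_comps hb1).2 p hpP u (Finset.mem_union_left _ (mem_KK.2 ⟨hu, h.2, h.1⟩)) huP
        · exact (PP_comps hc1).2 p hpP u (Finset.mem_union_left _ (mem_KK.2 ⟨hu, h.2, h.1⟩)) huP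
        · exact (PP_comps hb1).2 p hpP u (Finset.mem_union_right _ (mem_KK.2 ⟨hu, h.1, h.2⟩)) huP
    refine mem_comps.2 ⟨fun p hpP => ?_, k2, fun p hpP u hu huP => ?_⟩
    · have hpD := (memD p).1 (k1 hpP)
      refine Finset.mem_sdiff.2 ⟨lk_subset hpD.1, fun hpI => ?_⟩
      exact (Finset.mem_filter.1 hpI).2.1 ⟨hpD.2.1, hpD.2.2.1⟩
    · have hpD := (memD p).1 (k1 hpP)
      obtain ⟨huW, huI⟩ := Finset.mem_sdiff.1 hu
      by_cases h1 : u = v
      · rw [h1]; exact (mem_lk.1 hpD.1).2.symm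
      by_cases h2 : u = a
      · rw [h2]; exact hpD.2.1.symm
      by_cases h4 : u = b
      · rw [h4]; exact hpD.2.2.1.symm
      by_cases h5 : u = c
      · rw [h5]; exact hpD.2.2.2.symm
      exact hS p hpP u (inL u huW h1 h2 h4 h5) huI huP
  -- the component of v
  have hvWI : v ∈ W \ I := Finset.mem_sdiff.2 ⟨hv, fun h => not_mem_lk_self
    (Finset.mem_filter.1 h).1⟩
  obtain ⟨C, hC, hvC⟩ := exists_comp (H := H) hvWI
  have hCB : C ∉ B := by
    intro hCB
    have hCD : C ∈ comps H D := by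
      simp only [hB, Finset.mem_union, Finset.mem_inter] at hCB
      rcases hCB with (h | h) | h
      · exact qa h.1
      · exact qa h.1
      · exact qb h.1
    have := (memD v).1 ((mem_comps.1 hCD).1 hvC)
    exact not_mem_lk_self this.1
  have hBC : B.card + 1 ≤ (comps H (W \ I)).card := by
    rw [← Finset.card_insert_of_notMem hCB]
    exact Finset.card_le_card (Finset.insert_subset hC hBcomp)
  have hfin : B.card ≤ I.card := by
    rcases I.eq_empty_or_nonempty with h0 | hne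
    · rw [h0, Finset.sdiff_empty, comps_prm hp, Finset.card_singleton] at hBC
      omega
    · have ht := tough h hIW
      have hall : tcomps H W I = comps H (W \ I) := by
        ext E
        rw [mem_tcomps]
        refine ⟨fun h => h.1, fun hE => ⟨hE, ?_⟩⟩
        obtain ⟨g1, g2, g3⟩ := mem_comps.1 hE
        obtain ⟨u, hu⟩ := hne
        obtain ⟨r, hr, s, hs, hsn, hrs⟩ := hp.2 E (g1.trans Finset.sdiff_subset) g2.1
          (fun hEW => (Finset.mem_sdiff.1 (g1 (hEW ▸ hIW hu))).2 hu)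
        refine ⟨r, hr, s, ?_, hrs⟩
        by_contra hsI
        exact hrs (g3 r hr s (Finset.mem_sdiff.2 ⟨hs, hsI⟩) hsn)
      rw [hall] at ht
      omega
  omega

end Pool.Agent.W497.FS
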