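import Pool.Agent.H87.L.W497_FS_Defs

set_option autoImplicit false

/-! # Further part statements -/

namespace Pool.Agent.W497.FS

/-- FS-F2: second rigidity statement in rank 4.  `p,q,r,s` and `p,q,r,t` are faces, `s,t` are not
adjacent, the edge `pq` has a link with exactly five vertices, the eight other edges have links with
exactly four vertices: then the complex is the join of a pentagon and a 4-cycle. -/
def StmF2 : Prop :=
  ∀ (α : Type) (H : SimpleGraph α) (W : Finset α) (p q r s t : α), NP H 4 W →
    p ∈ W → q ∈ W → r ∈ W → s ∈ W → t ∈ W →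
    H.Adj p q → H.Adj p r → H.Adj q r → H.Adj p s → H.Adj q s → H.Adj r s →
    H.Adj p t → H.Adj q t → H.Adj r t → s ≠ t → ¬ H.Adj s t →
    (lk H (lk H W p) q).card = 5 →
    (lk H (lk H W p) r).card = 4 → (lk H (lk H W q) r).card = 4 →
    (lk H (lk H W p) s).card = 4 → (lk H (lk H W q) s).card = 4 → (lk H (lk H W r) s).card = 4 →
    (lk H (lk H W p) t).card = 4 → (lk H (lk H W q) t).card = 4 → (lk H (lk H W r) t).card = 4 →
    W.card = 9

end Pool.Agent.W497.FS
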