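import Mathlib
import Pool.Agent.H87.L.W497_FS_Defs

set_option autoImplicit false

/-!
# Flag homology spheres: the definitions used in the results
-/

namespace Pool.Agent.W497.FS

open Polynomial

/-- `S` is a flag homology `(d-1)`-sphere over the field `k` (exactly the hypotheses of the frozen
statement `S07409`, see `IsFHS`: closed under subsets, flag, and for every face `F` and every `j`
the reduced homology of the link of `F` in degree `j - 1`, computed with the ranks `r` of the
boundary matrices, has dimension `1` if `j + |F| = d` and `0` otherwise) -/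
def IsFlagSphere (k : Type) [Field k] {n : ℕ} (d : ℕ) (S : Finset (Finset (Fin n))) : Prop :=
  ∃ r : Finset (Finset (Fin n)) → ℕ → ℕ, IsFHS k n d S r

/-- the number of vertices -/
def numVert {n : ℕ} (S : Finset (Finset (Fin n))) : ℕ := (S.filter (fun G => G.card = 1)).card

/-- `C` is a join factor: a nonempty set of vertices, each joined by an edge to every vertex outside
`C`, which has no proper nonempty part `A` with all edges between `A` and `C \ A`; that is, `C` is a
connected component of the graph of non-edges -/
def IsFactor {n : ℕ} (S : Finset (Finset (Fin n))) (C : Finset (Fin n)) : Prop :=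
  C.Nonempty ∧ (∀ v ∈ C, ({v} : Finset (Fin n)) ∈ S) ∧
  (∀ v ∈ C, ∀ u, u ∉ C → ({u} : Finset (Fin n)) ∈ S → ({v, u} : Finset (Fin n)) ∈ S) ∧
  ∀ A ⊆ C, A.Nonempty → (∀ v ∈ A, ∀ u ∈ C, u ∉ A → ({v, u} : Finset (Fin n)) ∈ S) → A = C

open scoped Classical in
/-- the number of join factors (`1` if and only if `S` is not a join of two complexes with
vertices) -/
noncomputable def numFactors {n : ℕ} (S : Finset (Finset (Fin n))) : ℕ :=
  ((Finset.univ : Finset (Finset (Fin n))).filter (IsFactor S)).card

/-- `γ` is the gamma-vector of the `(d-1)`-dimensional complex `S` -/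
def IsGamma {n : ℕ} (d : ℕ) (S : Finset (Finset (Fin n))) (γ : ℕ → ℤ) : Prop :=
  ∑ j ∈ Finset.range (d + 1), Polynomial.C (((S.filter (fun G => G.card = j)).card : ℕ) : ℤ)
      * Polynomial.X ^ j * (1 - Polynomial.X) ^ (d - j)
    = ∑ i ∈ Finset.range (d / 2 + 1),
      Polynomial.C (γ i) * Polynomial.X ^ i * (1 + Polynomial.X) ^ (d - 2 * i)

/-- the Charney-Davis quantity `ω(S)`, all edge weights being `2` -/
def omega {n : ℕ} (S : Finset (Finset (Fin n))) : ℚ := ∑ σ ∈ S, (-1 : ℚ) ^ σ.card / 2 ^ σ.card

end Pool.Agent.W497.FS
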