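import Pool.Agent.H87.L.W5h83_FS_Comb
import Pool.Agent.H7.L.R781_VS_Main
import Pool.Agent.H7.L.R781_VS_VDel
import Pool.Agent.H7.L.TH652_Dual7

/-!
# Flag spheres with few vertices: `ℓ²`-vanishing
-/

set_option autoImplicit false

namespace Pool.Agent.W5h83.FS

open Finset Classical
open Pool.Agent.W907.SG Pool.Agent.W907.SM
open Pool.Agent.TH652.Above (lv_img lv_set lv_sub lv_univ lv_add lv_cone)
open Pool.Agent.R781.VS (con NoSq l2split l2vdel)

variable {V : Type} [Finite V] {G : SimpleGraph V}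

theorem lv_none (i : ℕ) (hi : 1 ≤ i) : LV (G.induce ((∅ : Finset V) : Set V)) i := by
  have : IsEmpty ↥(((∅ : Finset V) : Set V)) := by
    rw [coe_empty]
    infer_instance
  exact lempty _ _ i hi

theorem lv_addF {A : Finset V} {v : V} (hv : v ∈ A) (i : ℕ)
    (h1 : LV (G.induce ((A.erase v : Finset V) : Set V)) i)
    (h2 : ∀ j, i = j + 1 → LV (G.induce ((nb G A v : Finset V) : Set V)) j) :
    LV (G.induce (A : Set V)) i := by
  refine lv_add G (A : Set V) v (mem_coe.2 hv) i ?_ fun j hj => ?_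
  · refine lv_set ?_ h1
    rw [coe_erase]
  · refine lv_set ?_ (h2 j hj)
    ext x
    simp only [Set.mem_inter_iff, mem_coe, SimpleGraph.mem_neighborSet, mem_nb]

theorem lv_delF {A : Finset V} {v : V} (hv : v ∈ A) (i : ℕ) (h1 : LV (G.induce (A : Set V)) i)
    (h2 : LV (G.induce ((nb G A v : Finset V) : Set V)) i) :
    LV (G.induce ((A.erase v : Finset V) : Set V)) i := by
  have e1 : LV ((G.induce (A : Set V)).induce ((G.induce (A : Set V)).neighborSet ⟨v, hv⟩)) i := by
    rw [lv_sub]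
    refine lv_set ?_ h2
    ext x
    simp only [Set.mem_image, SimpleGraph.mem_neighborSet, Subtype.exists, exists_and_right,
      exists_eq_right, mem_coe, mem_nb]
    constructor
    · rintro ⟨h, h3⟩
      exact ⟨h, h3⟩
    · rintro ⟨h, h3⟩
      exact ⟨h, h3⟩
  have e2 : LV ((G.induce (A : Set V)).induce {(⟨v, hv⟩ : ↥(A : Set V))}ᶜ) i := by
    intro _ _
    have : Fintype ↥(A : Set V) := Fintype.ofFinite _
    have e0 : LinearOrder ↥(A : Set V) := IsWellOrder.linearOrder WellOrderingRel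
    have h5 := l2vdel _ (G.induce (A : Set V)) ⟨v, hv⟩ i (h1 _ _) (e1 _ _)
    exact ord _ _ _ _ _ _ _ _ i ⟨SimpleGraph.Iso.refl⟩ h5
  rw [lv_sub] at e2
  refine lv_set ?_ e2
  ext x
  simp only [coe_erase, Set.mem_sdiff, Set.mem_singleton_iff, Set.mem_image, Set.mem_compl_iff,
    Subtype.exists, exists_and_right, exists_eq_right, mem_coe, Subtype.mk.injEq]
  constructor
  · rintro ⟨h, h3⟩
    exact ⟨h, h3⟩
  · rintro ⟨h, h3⟩
    exact ⟨h, h3⟩

theorem lv_suspF {A : Finset V} {v w : V} (hv : v ∈ A) (hw : w ∈ A) (hvw : v ≠ w)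
    (hn : ¬ G.Adj v w) (h : ∀ u ∈ A, u ≠ v → u ≠ w → G.Adj u v ∧ G.Adj u w) (i : ℕ) :
    LV (G.induce (A : Set V)) i := by
  refine lsusp ↥(A : Set V) (G.induce (A : Set V)) ⟨v, hv⟩ ⟨w, hw⟩ i ?_ hn ?_
  · intro h1
    exact hvw (congrArg Subtype.val h1)
  · rintro ⟨u, hu⟩ h1 h2
    exact h u hu (fun h3 => h1 (Subtype.ext h3)) (fun h3 => h2 (Subtype.ext h3))

theorem lv_coneF {A : Finset V} {v : V} (hv : v ∈ A) (h : ∀ u ∈ A, u ≠ v → G.Adj v u) (i : ℕ)
    (h1 : LV (G.induce ((A.erase v : Finset V) : Set V)) i) : LV (G.induce (A : Set V)) i := by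
  have h2 := lv_cone G ((A.erase v : Finset V) : Set V) v (by simp) (by
    intro a ha
    rw [mem_coe, mem_erase] at ha
    exact h a ha.2 ha.1) i h1
  refine lv_set ?_ h2
  rw [← coe_insert, insert_erase hv]

/-- vertex splitting, when the contraction is a suspension -/
theorem lv_splitF {S : Finset V} {v s t : V} (hv : v ∈ S) (hs : s ∈ S) (ht : t ∈ S)
    (hvs : v ≠ s) (hvt : v ≠ t) (hst : G.Adj s t)
    (hsq : ∀ x ∈ S, ∀ y ∈ S, G.Adj s x → ¬ G.Adj t x → x ≠ t → G.Adj t y → ¬ G.Adj s y → y ≠ s →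
      ¬ G.Adj x y)
    (hns : ¬ G.Adj v s) (hnt : ¬ G.Adj v t)
    (hv2 : ∀ x ∈ S, x ≠ v → x ≠ s → x ≠ t → G.Adj v x)
    (hx : ∀ x ∈ S, G.Adj v x → G.Adj s x ∨ G.Adj t x) (i : ℕ)
    (h2 : ∀ j, i = j + 1 → LV (G.induce ((nb G (nb G S s) t : Finset V) : Set V)) j) :
    LV (G.induce (S : Set V)) i := by
  set H := G.induce (S : Set V) with hH
  let s' : ↥(S : Set V) := ⟨s, hs⟩
  let t' : ↥(S : Set V) := ⟨t, ht⟩
  let v' : ↥(S : Set V) := ⟨v, hv⟩
  have hst' : s ≠ t := hst.ne
  have hvt' : v' ∈ ({t'}ᶜ : Set ↥(S : Set V)) := fun h => hvt (congrArg Subtype.val h)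
  have hst2 : s' ∈ ({t'}ᶜ : Set ↥(S : Set V)) := fun h => hst' (congrArg Subtype.val h)
  have e1 : LV ((con H s' t').induce ({t'}ᶜ : Set ↥(S : Set V))) i := by
    refine lsusp _ _ ⟨v', hvt'⟩ ⟨s', hst2⟩ i ?_ ?_ ?_
    · intro h
      exact hvs (congrArg (fun z => z.1.1) h)
    · rintro ⟨-, -, -, h4⟩
      rcases h4 with h | ⟨h, -⟩ | ⟨-, h⟩
      · exact hns h
      · exact hvs (congrArg Subtype.val h)
      · exact hnt (SimpleGraph.Adj.symm h)
    · rintro ⟨⟨u, hu⟩, hu'⟩ h3 h4
      have hut : u ≠ t := fun h => hu' (Subtype.ext h)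
      have huv : u ≠ v := fun h => h3 (Subtype.ext (Subtype.ext h))
      have hus : u ≠ s := fun h => h4 (Subtype.ext (Subtype.ext h))
      have hvu := hv2 u hu huv hus hut
      refine ⟨⟨fun h => huv (congrArg Subtype.val h), hu', hvt', Or.inl hvu.symm⟩,
        ⟨fun h => hus (congrArg Subtype.val h), hu', hst2, ?_⟩⟩
      rcases hx u hu hvu with h | h
      · exact Or.inl h.symm
      · exact Or.inr (Or.inr ⟨rfl, h⟩)
  have e2 : ∀ j, i = j + 1 → LV (H.induce (H.neighborSet s' ∩ H.neighborSet t')) j := by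
    intro j hj
    rw [hH, lv_sub]
    refine lv_set ?_ (h2 j hj)
    ext x
    simp only [Set.mem_image, Set.mem_inter_iff, SimpleGraph.mem_neighborSet, Subtype.exists,
      exists_and_right, exists_eq_right, mem_coe, mem_nb]
    constructor
    · rintro ⟨h, h3, h4⟩
      exact ⟨⟨h, h3⟩, h4⟩
    · rintro ⟨⟨h, h3⟩, h4⟩
      exact ⟨h, h3, h4⟩
  intro _ _
  refine l2split _ H s' t' i hst ?_ (e1 _ _) fun j hj => e2 j hj _ _
  rintro ⟨x, hx'⟩ ⟨y, hy'⟩ h3 h4 h5 h6 h7 h8
  exact hsq x hx' y hy' h3 h4 (fun h => h5 (Subtype.ext h)) h6 h7 (fun h => h8 (Subtype.ext h))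

/-- the sphere itself, in the presence of a vertex with exactly two non-neighbours -/
theorem lv_two {n : ℕ} {S : Finset V} (hS : Sp G (n + 1) S) {v : V} (hv : v ∈ S)
    (h2 : (mn G S v).card = 2) (i : ℕ)
    (h : ∀ s t : V, s ∈ S → t ∈ nb G S s → ∀ j, i = j + 1 →
      LV (G.induce ((nb G (nb G S s) t : Finset V) : Set V)) j) :
    LV (G.induce (S : Set V)) i := by
  obtain ⟨s, t, hst, hM⟩ := card_eq_two.1 h2
  have hs := mem_mn.1 (hM ▸ mem_insert_self s {t} : s ∈ mn G S v)
  have ht := mem_mn.1 (hM ▸ mem_insert_of_mem (mem_singleton_self t) : t ∈ mn G S v)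
  have hadj : G.Adj s t := by
    obtain ⟨c, hc, d, hd1, hd2, hcd⟩ := hS.conn hv {s} (by
      rw [hM, singleton_subset_iff]
      exact mem_insert_self _ _) (singleton_nonempty s) (by
      intro h3
      have h4 : t ∈ ({s} : Finset V) := by
        rw [h3, hM]
        exact mem_insert_of_mem (mem_singleton_self t)
      exact hst (mem_singleton.1 h4).symm)
    rw [mem_singleton] at hc
    rw [hM, mem_insert, mem_singleton] at hd1
    rw [mem_singleton] at hd2
    rcases hd1 with h3 | h3
    · exact absurd h3 hd2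
    · rw [hc, h3] at hcd
      exact hcd
  have hvx : ∀ x ∈ S, x ≠ v → x ≠ s → x ≠ t → G.Adj v x := by
    intro x hx h3 h4 h5
    by_contra h6
    have h7 : x ∈ mn G S v := mem_mn.2 ⟨hx, h3, h6⟩
    rw [hM, mem_insert, mem_singleton] at h7
    rcases h7 with h7 | h7
    · exact h4 h7
    · exact h5 h7
  refine lv_splitF hv hs.1 ht.1 hs.2.1.symm ht.2.1.symm hadj ?_ hs.2.2 ht.2.2 hvx ?_ i
    (fun j hj => h s t hs.1 (mem_nb.2 ⟨ht.1, hadj⟩) j hj)
  · intro x hx y hy h3 h4 h5 h6 h7 h8 hxy
    have hxv : x ≠ v := by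
      rintro rfl
      exact hs.2.2 h3.symm
    have hyv : y ≠ v := by
      rintro rfl
      exact ht.2.2 h6.symm
    have hvx' := hvx x hx hxv (by rintro rfl; exact G.irrefl h3) h5
    have hvy' := hvx y hy hyv h8 (by rintro rfl; exact G.irrefl h6)
    -- the link of the edge `xy`
    have e1 : Sp G n (nb G S x) := hS.nb hx
    have e2 : y ∈ nb G S x := mem_nb.2 ⟨hy, hxy⟩
    have e3 : v ∈ nb G S x := mem_nb.2 ⟨hv, hvx'.symm⟩
    obtain ⟨z, hz, hzy⟩ := e1.ex_nb e3 e2 hvy'
    rw [mem_mn, mem_nb] at hz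
    obtain ⟨⟨hz1, hz2⟩, hz3, hz4⟩ := hz
    have hz5 : z ∈ mn G S v := mem_mn.2 ⟨hz1, hz3, hz4⟩
    rw [hM, mem_insert, mem_singleton] at hz5
    rcases hz5 with rfl | rfl
    · exact h7 hzy
    · exact h4 hz2.symm
  · intro x hx hvx'
    obtain ⟨z, hz, hzx⟩ := hS.ex_nb hv hx hvx'
    rw [hM, mem_insert, mem_singleton] at hz
    rcases hz with rfl | rfl
    · exact Or.inl hzx
    · exact Or.inr hzx

theorem nb_mono {A S : Finset V} (h : A ⊆ S) (v : V) : nb G A v ⊆ nb G S v := by
  intro x hx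
  rw [mem_nb] at hx ⊢
  exact ⟨h hx.1, hx.2⟩

/-- **Main theorem on `ℓ²`-vanishing.** -/
theorem main : ∀ (n s : ℕ) (S : Finset V), Sp G n S → n ≤ s → 2 * S.card ≤ 4 * n + s + 1 →
    ∀ A ⊆ S, ∀ i, s / 2 + 1 ≤ i → LV (G.induce (A : Set V)) i := by
  intro n
  induction n using Nat.strong_induction_on with
  | _ n ih =>
    intro s S hS hns hcard
    rcases n with _ | m
    · intro A hA i hi
      have h1 : S = ∅ := hS
      rw [h1, subset_empty] at hA
      rw [hA]
      exact lv_none i (by omega)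
    by_cases hp : ∃ v, v ∈ pl G S
    · intro A hA i hi
      obtain ⟨v, hvp⟩ := hp
      obtain ⟨hvS, hv1⟩ := mem_pl.1 hvp
      obtain ⟨v', hv'⟩ := card_eq_one.1 hv1
      have hv2 : v' ∈ S ∧ v' ≠ v ∧ ¬ G.Adj v v' := mem_mn.1 (hv' ▸ mem_singleton_self v')
      have hsym : mn G S v' = {v} := sym_pole hS hvS hv'
      have h2 := card_split (G := G) hvS
      have hv3 : ∀ u ∈ S, u ≠ v → u ≠ v' → G.Adj v u ∧ G.Adj v' u := by
        intro u hu h3 h4
        constructor
        · by_contra h5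
          have h6 : u ∈ mn G S v := mem_mn.2 ⟨hu, h3, h5⟩
          rw [hv', mem_singleton] at h6
          exact h4 h6
        · by_contra h5
          have h6 : u ∈ mn G S v' := mem_mn.2 ⟨hu, h4, h5⟩
          rw [hsym, mem_singleton] at h6
          exact h3 h6
      have hI : ∀ B ⊆ nb G S v, LV (G.induce (B : Set V)) i := fun B hB =>
        ih m (by omega) s (nb G S v) (hS.nb hvS) (by omega) (by omega) B hB i hi
      by_cases h3 : v ∈ A
      · by_cases h4 : v' ∈ A
        · exact lv_suspF h3 h4 hv2.2.1.symm hv2.2.2 (fun u hu h5 h6 =>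
            ⟨(hv3 u (hA hu) h5 h6).1.symm, (hv3 u (hA hu) h5 h6).2.symm⟩) i
        · refine lv_coneF h3 (fun u hu h5 => (hv3 u (hA hu) h5 (by
            rintro rfl; exact h4 hu)).1) i (hI _ ?_)
          intro u hu
          rw [mem_erase] at hu
          exact mem_nb.2 ⟨hA hu.2, (hv3 u (hA hu.2) hu.1 (by
            rintro rfl; exact h4 hu.2)).1⟩
      · by_cases h4 : v' ∈ A
        · refine lv_coneF h4 (fun u hu h5 => (hv3 u (hA hu) (by
            rintro rfl; exact h3 hu) h5).2) i (hI _ ?_)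
          intro u hu
          rw [mem_erase] at hu
          exact mem_nb.2 ⟨hA hu.2, (hv3 u (hA hu.2) (by
            rintro rfl; exact h3 hu.2) hu.1).1⟩
        · refine hI _ ?_
          intro u hu
          exact mem_nb.2 ⟨hA hu, (hv3 u (hA hu) (by
            rintro rfl; exact h3 hu) (by rintro rfl; exact h4 hu)).1⟩
    -- no poles
    push Not at hp
    have hm : ∀ v ∈ S, 2 ≤ (mn G S v).card := by
      intro v hv
      have h1 := card_pos.2 (hS.ne hv)
      have h2 : (mn G S v).card ≠ 1 := fun h2 => hp v (mem_pl.2 ⟨hv, h2⟩)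
      omega
    have hnb : ∀ v ∈ S, 2 * (nb G S v).card + 6 ≤ 2 * S.card := by
      intro v hv
      have h1 := card_split (G := G) hv
      have h2 := hm v hv
      omega
    by_cases hc : ∃ s', m ≤ s' ∧ s' / 2 + 1 ≤ s / 2 ∧ s ≤ s' + 2
    · obtain ⟨s', hs1, hs2, hs3⟩ := hc
      intro A
      induction A using Finset.strongInduction with
      | _ A ihA =>
        intro hA i hi
        rcases A.eq_empty_or_nonempty with h1 | ⟨v, hv⟩
        · rw [h1]
          exact lv_none i (by omega)
        · refine lv_addF hv i (ihA _ (erase_ssubset hv) ((erase_subset v A).trans hA) i hi)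
            fun j hj => ?_
          have h2 := hnb v (hA hv)
          exact ih m (by omega) s' (nb G S v) (hS.nb (hA hv)) hs1 (by omega) _ (nb_mono hA v) j
            (by omega)
    · -- `s = n` is odd
      push Not at hc
      have hsm : s = m + 1 := by
        by_contra h1
        have := hc (s - 2) (by omega) (by omega)
        omega
      subst hsm
      have hodd : m / 2 + 1 ≠ (m + 1) / 2 := by
        intro h1
        have := hc m le_rfl (by omega)
        omega
      -- the sphere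
      have hsph : ∀ i, (m + 1) / 2 + 1 ≤ i → LV (G.induce (S : Set V)) i := by
        intro i hi
        have h1 : ∃ v ∈ S, (mn G S v).card = 2 := by
          by_contra h2
          push Not at h2
          have h3 := (bound (m + 1) S hS).2 (fun v hv => by
            have := hm v hv
            have := h2 v hv
            omega) (by omega)
          omega
        obtain ⟨v, hv, hv2⟩ := h1
        refine lv_two hS hv hv2 i fun a b ha hb j hj => ?_
        have e1 : Sp G m (nb G S a) := hS.nb ha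
        obtain ⟨k, rfl⟩ := e1.pos hb
        have e2 := card_split (G := G) hb
        have e3 := card_pos.2 (e1.ne hb)
        have e4 := hnb a ha
        exact ih k (by omega) k _ (e1.nb hb) le_rfl (by omega) _ (Subset.refl _) j (by omega)
      have hrem : ∀ B ⊆ S, ∀ i, (m + 1) / 2 + 1 ≤ i →
          LV (G.induce ((S \ B : Finset V) : Set V)) i := by
        intro B
        induction B using Finset.induction_on with
        | empty =>
          intro _ i hi
          rw [sdiff_empty]
          exact hsph i hi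
        | insert v B hvB ihB =>
          intro hB i hi
          have h1 : v ∈ S := hB (mem_insert_self v B)
          have h2 : B ⊆ S := (subset_insert v B).trans hB
          have h3 : v ∈ S \ B := mem_sdiff.2 ⟨h1, hvB⟩
          have h4 := lv_delF h3 i (ihB h2 i hi) (by
            have h5 := hnb v h1
            exact ih m (by omega) m (nb G S v) (hS.nb h1) le_rfl (by omega) _
              (nb_mono sdiff_subset v) i (by omega))
          have h5 : S \ insert v B = (S \ B).erase v := by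
            ext x
            simp only [mem_sdiff, mem_insert, mem_erase, not_or]
            tauto
          rw [h5]
          exact h4
      intro A hA i hi
      have h1 := hrem (S \ A) sdiff_subset i hi
      rwa [Finset.sdiff_sdiff_eq_self hA] at h1

end Pool.Agent.W5h83.FS
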