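import Pool.Agent.H87.L.W5h83_GT_Loc

/-!
# Local operators on the Hilbert space
-/

set_option autoImplicit false

namespace Pool.Agent.W5h83.GT

open Module Pool.Agent.W907.SG Filter Topology
open scoped ENNReal InnerProductSpace

section
open Classical

variable {ι E : Type} [Fintype ι] [Fintype E] (c : ι → E)

/-- the Hilbert space -/
abbrev HS (ι E : Type) : Type := lp (fun _ : FP E × ι => ℝ) 2

/-- the vertex coordinates -/
noncomputable def t2 (z : FP E × ι) : FP E × ι := (z.1 * sf (c z.2), z.2)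

theorem t2_t2 (z : FP E × ι) : t2 c (t2 c z) = z := by
  unfold t2
  refine Prod.ext ?_ rfl
  show z.1 * sf (c z.2) * sf (c z.2) = z.1
  rw [mul_assoc, sf_sf, mul_one]

/-- square-summable functions with values in `K` -/
def KV (θ : FP E × ι → FP E × ι) (K : Submodule ℝ (ι → ℝ)) : Submodule ℝ (HS ι E) where
  carrier := {x | ∀ g, (fun j => (x : FP E × ι → ℝ) (θ (g, j))) ∈ K}
  add_mem' h h' g := K.add_mem (h g) (h' g)
  zero_mem' _ := K.zero_mem
  smul_mem' r _ h g := K.smul_mem r (h g)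

theorem cont_eval (z : FP E × ι) : Continuous fun x : HS ι E => (x : FP E × ι → ℝ) z := by
  have h : (fun x : HS ι E => (x : FP E × ι → ℝ) z) = fun x => ⟪(lp.single 2 z (1 : ℝ) : HS ι E), x⟫_ℝ := by
    funext x
    rw [lp.inner_single_left]
    simp
  rw [h]
  exact continuous_const.inner continuous_id

theorem closed_KV (θ : FP E × ι → FP E × ι) (K : Submodule ℝ (ι → ℝ)) :
    IsClosed (KV θ K : Set (HS ι E)) := by
  have h : (KV θ K : Set (HS ι E)) = ⋂ g : FP E, (fun x : HS ι E => fun j => (x : FP E × ι → ℝ) (θ (g, j))) ⁻¹'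
      (K : Set (ι → ℝ)) := by
    ext x
    rw [Set.mem_iInter]
    rfl
  rw [h]
  refine isClosed_iInter fun g => IsClosed.preimage (continuous_pi fun j => cont_eval _) ?_
  exact Submodule.closed_of_finiteDimensional K

noncomputable instance (θ : FP E × ι → FP E × ι) (K : Submodule ℝ (ι → ℝ)) :
    (KV θ K).HasOrthogonalProjection := by
  haveI : CompleteSpace (KV θ K) := (closed_KV θ K).completeSpace_coe
  infer_instance

/-- the delta functions -/
noncomputable def dl (z : FP E × ι) : HS ι E := lp.single 2 z (1 : ℝ)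

theorem dl_apply (z w : FP E × ι) : (dl z : FP E × ι → ℝ) w = (Pi.single z 1 : FP E × ι → ℝ) w := by
  unfold dl
  rw [lp.coeFn_single]

theorem inner_dl (z : FP E × ι) (x : HS ι E) : ⟪dl z, x⟫_ℝ = (x : FP E × ι → ℝ) z := by
  unfold dl
  rw [lp.inner_single_left]
  simp

theorem pr_formula {θ : FP E × ι → FP E × ι} (hθ : Function.Injective θ) {K : Submodule ℝ (ι → ℝ)}
    {p : (ι → ℝ) →ₗ[ℝ] (ι → ℝ)} (hp : IsPr K p) (x : HS ι E) (g : FP E) :
    (fun j => ((KV θ K).starProjection x : FP E × ι → ℝ) (θ (g, j))) =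
      p (fun j => (x : FP E × ι → ℝ) (θ (g, j))) := by
  have h1 : (KV θ K).starProjection x ∈ KV θ K := Submodule.starProjection_apply_mem _ _
  refine (hp.uniq (h1 g) fun v hv => ?_).symm
  let w : HS ι E := ∑ j, v j • dl (θ (g, j))
  have hw : ∀ z, (w : FP E × ι → ℝ) z = ∑ j, v j * (Pi.single (θ (g, j)) 1 : FP E × ι → ℝ) z := by
    intro z
    show ((∑ j, v j • dl (θ (g, j)) : HS ι E) : FP E × ι → ℝ) z = _
    rw [lp.coeFn_sum, Finset.sum_apply]
    refine Finset.sum_congr rfl fun j _ => ?_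
    rw [lp.coeFn_smul, Pi.smul_apply, dl_apply, smul_eq_mul]
  have hwK : w ∈ KV θ K := by
    intro g'
    have : (fun j => (w : FP E × ι → ℝ) (θ (g', j))) = if g' = g then v else 0 := by
      funext j'
      rw [hw]
      by_cases h : g' = g
      · rw [if_pos h, h, Finset.sum_eq_single j']
        · rw [Pi.single_eq_same, mul_one]
        · intro j _ hj
          rw [Pi.single_eq_of_ne (fun e => hj (congrArg Prod.snd (hθ e)).symm), mul_zero]
        · intro h; exact absurd (Finset.mem_univ _) h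
      · rw [if_neg h]
        refine Finset.sum_eq_zero fun j _ => ?_
        rw [Pi.single_eq_of_ne (fun e => h (congrArg Prod.fst (hθ e))), mul_zero]
    rw [this]
    split_ifs
    · exact hv
    · exact K.zero_mem
  have h2 := Submodule.starProjection_inner_eq_zero (K := KV θ K) x w hwK
  have h3 : ⟪x - (KV θ K).starProjection x, w⟫_ℝ =
      ∑ j, v j * ((x : FP E × ι → ℝ) (θ (g, j)) - ((KV θ K).starProjection x : FP E × ι → ℝ) (θ (g, j))) := by
    show ⟪x - (KV θ K).starProjection x, ∑ j, v j • dl (θ (g, j))⟫_ℝ = _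
    rw [inner_sum]
    refine Finset.sum_congr rfl fun j _ => ?_
    rw [inner_smul_right, real_inner_comm, inner_dl, lp.coeFn_sub, Pi.sub_apply]
  rw [h3] at h2
  rw [dotProduct_comm]
  exact h2

/-- `T'` is the restriction of `T` to the Hilbert space -/
def Ex (T' : HS ι E →L[ℝ] HS ι E) (T : Module.End ℝ (FP E × ι → ℝ)) : Prop :=
  ∀ x : HS ι E, (T' x : FP E × ι → ℝ) = T (x : FP E × ι → ℝ)

theorem Ex.one : Ex (ContinuousLinearMap.id ℝ (HS ι E)) 1 := fun _ => rfl

theorem Ex.mul {T' S' : HS ι E →L[ℝ] HS ι E} {T S : Module.End ℝ (FP E × ι → ℝ)} (h : Ex T' T) (h' : Ex S' S) :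
    Ex (T'.comp S') (T * S) := fun x => by
  show (T' (S' x) : FP E × ι → ℝ) = T (S x)
  rw [h, h']

theorem Ex.add {T' S' : HS ι E →L[ℝ] HS ι E} {T S : Module.End ℝ (FP E × ι → ℝ)} (h : Ex T' T) (h' : Ex S' S) :
    Ex (T' + S') (T + S) := fun x => by
  show ((T' x + S' x : HS ι E) : FP E × ι → ℝ) = T x + S x
  rw [lp.coeFn_add, h, h']

theorem Ex.sub {T' S' : HS ι E →L[ℝ] HS ι E} {T S : Module.End ℝ (FP E × ι → ℝ)} (h : Ex T' T) (h' : Ex S' S) :
    Ex (T' - S') (T - S) := fun x => by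
  show ((T' x - S' x : HS ι E) : FP E × ι → ℝ) = T x - S x
  rw [lp.coeFn_sub, h, h']

theorem Ex.smul {T' : HS ι E →L[ℝ] HS ι E} {T : Module.End ℝ (FP E × ι → ℝ)} (r : ℝ) (h : Ex T' T) :
    Ex (r • T') (r • T) := fun x => by
  show ((r • T' x : HS ι E) : FP E × ι → ℝ) = r • T x
  rw [lp.coeFn_smul, h]

theorem Ex.pr1 {K : Submodule ℝ (ι → ℝ)} {p : (ι → ℝ) →ₗ[ℝ] (ι → ℝ)} (hp : IsPr K p) :
    Ex ((KV (E := E) id K).starProjection) (o1 (FP E) p) := fun x => by
  funext z
  exact congrFun (pr_formula (θ := id) Function.injective_id hp x z.1) z.2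

theorem Ex.pr2 {K : Submodule ℝ (ι → ℝ)} {p : (ι → ℝ) →ₗ[ℝ] (ι → ℝ)} (hp : IsPr K p) :
    Ex ((KV (t2 c) K).starProjection) (o2 aU c p) := fun x => by
  funext z
  have h := congrFun (pr_formula (θ := t2 c) (Function.LeftInverse.injective (t2_t2 c)) hp x (aU (c z.2) z.1)) z.2
  rw [o2_apply]
  rw [show (p (fun j => (x : FP E × ι → ℝ) (aU (c j) (aU (c z.2) z.1), j))) z.2 =
    p (fun j => (x : FP E × ι → ℝ) (t2 c (aU (c z.2) z.1, j))) z.2 from rfl, ← h]
  exact congrArg ((KV (t2 c) K).starProjection x : FP E × ι → ℝ) (t2_t2 c z).symm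

/-- the ergodic theorem for local operators -/
theorem ergodic {T' S' : HS ι E →L[ℝ] HS ι E} {T S : Module.End ℝ (FP E × ι → ℝ)} (h : Ex T' T) (h' : Ex S' S)
    (hT : ‖T'‖ ≤ 1) (M : Submodule ℝ (HS ι E)) [M.HasOrthogonalProjection] (hM : ∀ x, T' x = x ↔ x ∈ M) :
    Tendsto (fun n : ℕ => (n : ℝ)⁻¹ * ∑ k ∈ Finset.range n, nt (T ^ k * S)) atTop
      (𝓝 (∑ i, (M.starProjection (S' (dl (1, i))) : FP E × ι → ℝ) (1, i))) := by
  have hMe : M = T'.eqLocus (1 : HS ι E →L[ℝ] HS ι E) := by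
    ext x
    exact (hM x).symm
  have h1 : ∀ x : HS ι E, Tendsto (fun n => birkhoffAverage ℝ T' _root_.id n x) atTop (𝓝 (M.starProjection x)) := by
    intro x
    have h2 := ContinuousLinearMap.tendsto_birkhoffAverage_orthogonalProjection T' hT x
    subst hMe
    exact h2
  have h2 : ∀ i : ι, Tendsto (fun n : ℕ =>
      ((birkhoffAverage ℝ T' _root_.id n (S' (dl (1, i))) : HS ι E) : FP E × ι → ℝ) (1, i))
      atTop (𝓝 ((M.starProjection (S' (dl (1, i))) : FP E × ι → ℝ) (1, i))) := fun i =>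
    ((cont_eval (1, i)).tendsto _).comp (h1 _)
  have h3 := tendsto_finset_sum Finset.univ fun i _ => h2 i
  refine h3.congr fun n => ?_
  have hit : ∀ (k : ℕ) (x : HS ι E), (T'^[k] x : FP E × ι → ℝ) = (T ^ k) (x : FP E × ι → ℝ) := by
    intro k
    induction k with
    | zero => intro x; rfl
    | succ k ih =>
      intro x
      rw [Function.iterate_succ_apply, ih, h, pow_succ, Module.End.mul_apply]
  have h4 : ∀ i : ι, ((birkhoffAverage ℝ T' _root_.id n (S' (dl (1, i))) : HS ι E) : FP E × ι → ℝ) (1, i) =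
      (n : ℝ)⁻¹ * ∑ k ∈ Finset.range n, ((T ^ k * S) (Pi.single (1, i) 1)) (1, i) := by
    intro i
    show (((n : ℝ)⁻¹ • ∑ k ∈ Finset.range n, T'^[k] (S' (dl (1, i))) : HS ι E) : FP E × ι → ℝ) (1, i) = _
    rw [lp.coeFn_smul, Pi.smul_apply, smul_eq_mul, lp.coeFn_sum, Finset.sum_apply]
    congr 1
    refine Finset.sum_congr rfl fun k _ => ?_
    rw [hit, h', Module.End.mul_apply]
    have : ((dl (1, i) : HS ι E) : FP E × ι → ℝ) = Pi.single (1, i) 1 := funext fun w => dl_apply _ w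
    rw [this]
  simp only [h4]
  rw [← Finset.mul_sum, Finset.sum_comm]
  rfl

end

end Pool.Agent.W5h83.GT
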